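import Pool.Agent.Lib.JP.MC
import Pool.Agent.Lib.JP.Kill

/-! Absorbing a fresh circuit; the tokens of a minimal counterexample. -/

set_option autoImplicit false

namespace JP.CG

open Finset Classical

variable {V D : Type*} {G : CG V D} {K : Finset V} {F : Finset D}

lemma adm_ins {c : V} {Z : Finset V} : G.Adm (insert c K) F Z ↔ G.Adm K F Z ∧ c ∉ Z := by
  constructor
  · intro h
    refine ⟨⟨h.sub, fun v hv hvK => h.dis v hv (mem_insert_of_mem hvK), h.clo⟩, ?_⟩
    intro hc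
    exact h.dis c hc (mem_insert_self c K)
  · rintro ⟨h, hc⟩
    refine ⟨h.sub, fun v hv hvK => ?_, h.clo⟩
    rw [mem_insert] at hvK
    rcases hvK with rfl | hvK
    · exact hc hv
    · exact h.dis v hv hvK

lemma Inst.ins (hI : G.Inst K F) {c : V} (hc : c ∈ G.vs) : G.Inst (insert c K) F := by
  refine ⟨hI.even, hI.four, hI.b0, ?_, ?_, hI.sm.of_adm (fun Z hZ => (adm_ins.1 hZ).1)
    (fun Z hZ Z' hs hZ' => adm_ins.2 ⟨hZ', fun h => (adm_ins.1 hZ).2 (hs h)⟩)⟩
  · refine ⟨?_, hI.cls.Fsub, hI.cls.Fal, hI.cls.Ftok, ?_, ?_⟩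
    · intro v hv
      rw [mem_insert] at hv
      rcases hv with rfl | hv
      · exact hc
      · exact hI.cls.Ksub hv
    · intro v hv hvK
      rw [mem_insert, not_or] at hvK
      exact hI.cls.F2 v hv hvK.2
    · intro d hd ht
      exact mem_insert_of_mem (hI.cls.tokK d hd ht)
  · intro Z hZ ho
    exact hI.cc Z (adm_ins.1 hZ).1 ho

/-- in a minimal counterexample nothing can be absorbed for free -/
lemma MC.absorb (h : G.MC K F) {c : V} (hc : c ∈ G.vs) (hcK : c ∉ K)
    (hh : ∀ M, G.IsPM M → ∀ Z, G.Adm K F Z → c ∈ Z → ∃ d ∈ G.bd Z, d ∉ M) : False := by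
  obtain ⟨M, hM⟩ := h.abs c hc hcK (h.inst.ins hc)
  refine h.no ⟨M, hM.pm, ?_⟩
  intro Z hZ ho
  by_cases hcZ : c ∈ Z
  · exact hh M hM.pm Z hZ hcZ
  · exact hM.hit Z (adm_ins.2 ⟨hZ, hcZ⟩) ho

private lemma three_darts {a b c d : D} (ha : a ∈ G.ds) (hb : b ∈ G.ds) (hc : c ∈ G.ds)
    (hd : d ∈ G.ds) (pb : G.pi b = G.pi a) (pc : G.pi c = G.pi a) (pd : G.pi d = G.pi a)
    (nab : a ≠ b) (nac : a ≠ c) (nbc : b ≠ c) : d = a ∨ d = b ∨ d = c := by
  have h3 := G.cubic (G.pi a) (G.pi_mem a ha)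
  have hs : ({a, b, c} : Finset D) ⊆ G.ds.filter fun d => G.pi d = G.pi a := by
    intro x hx
    rw [mem_insert, mem_insert, mem_singleton] at hx
    rw [mem_filter]
    rcases hx with rfl | rfl | rfl
    · exact ⟨ha, rfl⟩
    · exact ⟨hb, pb⟩
    · exact ⟨hc, pc⟩
  have hcard : ({a, b, c} : Finset D).card = 3 := by
    rw [card_eq_three]
    exact ⟨a, b, c, nab, nac, nbc, rfl⟩
  have he := eq_of_subset_of_card_le hs (by rw [h3, hcard])
  have hm : d ∈ G.ds.filter fun d => G.pi d = G.pi a := mem_filter.2 ⟨hd, pd⟩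
  rw [← he, mem_insert, mem_insert, mem_singleton] at hm
  exact hm

private lemma abs_tok' (hc : G.Cls K F) {d : D} (hd : d ∈ G.ds) (ht : G.al d = d) :
    G.Abs K F (G.pi d) := fun _ hZ hvZ => hZ.dis _ hvZ (hc.tokK d hd ht)

/-- a vertex with two tokens: its third edge goes to a vertex which is not absorbed.

Proof. If `u` is a token as well then `vs \ {s}` is odd of degree 1 (four tokens). If the other end is
absorbed use `del_red` (`4 + bd ≤ 4 + tk`: the set has at least two tokens and at most two edges). -/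
lemma MC.double (h : G.MC K F) {σ τ u : D} (mσ : σ ∈ G.ds) (mτ : τ ∈ G.ds) (mu : u ∈ G.ds)
    (tσ : G.al σ = σ) (tτ : G.al τ = τ) (pτ : G.pi τ = G.pi σ) (pu : G.pi u = G.pi σ)
    (n1 : σ ≠ τ) (n2 : σ ≠ u) (n3 : τ ≠ u) : G.al u ≠ u ∧ ¬ G.Abs K F (G.pi (G.al u)) := by
  have hsv : G.pi σ ∈ G.vs := G.pi_mem σ mσ
  have hu : G.al u ≠ u := by
    intro tu
    have hsub : ({G.pi σ} : Finset V) ⊆ G.vs := by
      intro x hx
      rw [mem_singleton] at hx
      rw [hx]
      exact hsv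
    have hodd : Odd ({G.pi σ} : Finset V).card := by
      rw [card_singleton]
      exact odd_one
    have hb : G.bd {G.pi σ} = ∅ := by
      rw [eq_empty_iff_forall_notMem]
      intro d hd
      rw [mem_bd] at hd
      obtain ⟨hd1, hd2, hd3⟩ := hd
      rw [mem_singleton] at hd2
      have := three_darts mσ mτ mu hd1 pτ pu hd2 n1 n2 n3
      apply hd3
      rw [mem_singleton]
      rcases this with rfl | rfl | rfl
      · rw [tσ]
      · rw [tτ]; exact hd2
      · rw [tu]; exact hd2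
    have htk : 3 ≤ (G.tk {G.pi σ}).card := by
      have hs : ({σ, τ, u} : Finset D) ⊆ G.tk {G.pi σ} := by
        intro x hx
        rw [mem_insert, mem_insert, mem_singleton] at hx
        rw [mem_tk, mem_singleton]
        rcases hx with rfl | rfl | rfl
        · exact ⟨mσ, rfl, tσ⟩
        · exact ⟨mτ, pτ, tτ⟩
        · exact ⟨mu, pu, tu⟩
      have hcard : ({σ, τ, u} : Finset D).card = 3 := by
        rw [card_eq_three]
        exact ⟨σ, τ, u, n1, n2, n3, rfl⟩
      rw [← hcard]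
      exact card_le_card hs
    have hco : Odd (G.vs \ {G.pi σ}).card := by
      have hev := h.inst.even
      have h1 := card_sdiff_add_card_eq_card hsub
      rw [card_singleton] at h1
      rw [← h1] at hev
      rcases Nat.even_or_odd (G.vs \ {G.pi σ}).card with h2 | h2
      · exfalso
        have := (Nat.even_add.1 hev).1 h2
        exact absurd this (by decide)
      · exact h2
    have h3 := h.inst.b0 (G.vs \ {G.pi σ}) sdiff_subset hco
    unfold dg at h3
    rw [G.bd_compl hsub, hb, card_empty] at h3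
    have h4 := G.tk_compl hsub
    have h5 := h.four
    omega
  refine ⟨hu, fun habs => h.no ?_⟩
  have hne : G.pi (G.al u) ≠ G.pi u := h.inst.b0.no_loop mu hu
  refine del_red G h.inst h.ih mu hu ?_ habs ?_
  · rw [pu]
    exact abs_tok' h.inst.cls mσ tσ
  · have htk : 2 ≤ (G.tk {G.pi u, G.pi (G.al u)}).card := by
      have hs : ({σ, τ} : Finset D) ⊆ G.tk {G.pi u, G.pi (G.al u)} := by
        intro x hx
        rw [mem_insert, mem_singleton] at hx
        rw [mem_tk, mem_insert]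
        rcases hx with rfl | rfl
        · exact ⟨mσ, Or.inl pu.symm, tσ⟩
        · exact ⟨mτ, Or.inl (pτ.trans pu.symm), tτ⟩
      rw [← card_pair n1]
      exact card_le_card hs
    have hbd : (G.bd {G.pi u, G.pi (G.al u)}).card ≤ 2 := by
      have hs : G.bd {G.pi u, G.pi (G.al u)} ⊆
          (G.ds.filter fun d => G.pi d = G.pi (G.al u)).erase (G.al u) := by
        intro d hd
        rw [mem_bd, mem_insert, mem_singleton, mem_insert, mem_singleton, not_or] at hd
        obtain ⟨hd1, hd2, hd3, hd4⟩ := hd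
        rw [mem_erase, mem_filter]
        rcases hd2 with hd2 | hd2
        · exfalso
          rcases three_darts mσ mτ mu hd1 pτ pu (hd2.trans pu) n1 n2 n3 with rfl | rfl | rfl
          · exact hd3 (by rw [tσ]; exact hd2)
          · exact hd3 (by rw [tτ]; exact hd2)
          · exact hd4 rfl
        · refine ⟨?_, hd1, hd2⟩
          rintro rfl
          apply hd3
          rw [G.al_al u mu]
      refine (card_le_card hs).trans ?_
      have hmu : G.al u ∈ G.ds.filter fun d => G.pi d = G.pi (G.al u) :=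
        mem_filter.2 ⟨G.al_mem u mu, rfl⟩
      rw [card_erase_of_mem hmu, G.cubic _ (G.pi_mem _ (G.al_mem u mu))]
    have h5 := h.four
    omega

/-- the neighbour of a token vertex (with one token) is not absorbed -/
private lemma MC.alpha_abs (h : G.MC K F) {σ u1 u2 : D} (mσ : σ ∈ G.ds) (m1 : u1 ∈ G.ds)
    (m2 : u2 ∈ G.ds) (tσ : G.al σ = σ) (t1 : G.al u1 ≠ u1) (t2 : G.al u2 ≠ u2)
    (p1 : G.pi u1 = G.pi σ) (p2 : G.pi u2 = G.pi σ) (n1 : σ ≠ u1) (n2 : σ ≠ u2) (n3 : u1 ≠ u2) :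
    ¬ G.Abs K F (G.pi (G.al u1)) := by
  intro av
  apply h.no
  have hI := h.inst
  have mv : G.al u1 ∈ G.ds := G.al_mem u1 m1
  have hvv : G.pi (G.al u1) ∈ G.vs := G.pi_mem _ mv
  have hne : G.pi (G.al u1) ≠ G.pi u1 := hI.b0.no_loop m1 t1
  have as : G.Abs K F (G.pi u1) := by
    rw [p1]
    exact abs_tok' hI.cls mσ tσ
  have h5 := h.four
  -- the two other darts at v
  have hmv : G.al u1 ∈ G.ds.filter fun d => G.pi d = G.pi (G.al u1) := mem_filter.2 ⟨mv, rfl⟩
  have h3 := G.cubic _ hvv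
  have h2 : ((G.ds.filter fun d => G.pi d = G.pi (G.al u1)).erase (G.al u1)).card = 2 := by
    rw [card_erase_of_mem hmv, h3]
  obtain ⟨v2, v3, n6, he⟩ := card_eq_two.1 h2
  have hv2 : v2 ∈ (G.ds.filter fun d => G.pi d = G.pi (G.al u1)).erase (G.al u1) := by
    rw [he]
    exact mem_insert_self _ _
  have hv3 : v3 ∈ (G.ds.filter fun d => G.pi d = G.pi (G.al u1)).erase (G.al u1) := by
    rw [he]
    exact mem_insert_of_mem (mem_singleton_self _)
  rw [mem_erase, mem_filter] at hv2 hv3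
  obtain ⟨n4, mv2, pv2⟩ := hv2
  obtain ⟨n5, mv3, pv3⟩ := hv3
  -- the boundary of `{s, v}`
  have hbs : G.bd {G.pi u1, G.pi (G.al u1)} ⊆ {u2, v2, v3} := by
    intro d hd
    rw [mem_bd, mem_insert, mem_singleton, mem_insert, mem_singleton, not_or] at hd
    obtain ⟨hd1, hd2, hd3, hd4⟩ := hd
    rw [mem_insert, mem_insert, mem_singleton]
    rcases hd2 with hd2 | hd2
    · rcases three_darts mσ m1 m2 hd1 p1 p2 (hd2.trans p1) n1 n2 n3 with rfl | rfl | rfl
      · exact absurd (by rw [tσ]; exact hd2) hd3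
      · exact absurd rfl hd4
      · exact Or.inl rfl
    · rcases three_darts mv mv2 mv3 hd1 pv2 pv3 hd2 n4.symm n5.symm n6 with rfl | rfl | rfl
      · exact absurd (by rw [G.al_al u1 m1]) hd3
      · exact Or.inr (Or.inl rfl)
      · exact Or.inr (Or.inr rfl)
  have hst : σ ∈ G.tk {G.pi u1, G.pi (G.al u1)} := by
    rw [mem_tk, mem_insert]
    exact ⟨mσ, Or.inl p1.symm, tσ⟩
  -- a token at v
  have htok : ∀ x y : D, x ∈ G.ds → G.pi x = G.pi (G.al u1) → G.al x = x →
      G.bd {G.pi u1, G.pi (G.al u1)} ⊆ {u2, x, y} → ∃ M, G.Good K F M := by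
    intro x y hx px tx hsub
    refine del_red G hI h.ih m1 t1 as av ?_
    have htk : 2 ≤ (G.tk {G.pi u1, G.pi (G.al u1)}).card := by
      have hnx : σ ≠ x := by
        rintro rfl
        exact hne (px.symm.trans p1.symm)
      have hs : ({σ, x} : Finset D) ⊆ G.tk {G.pi u1, G.pi (G.al u1)} := by
        intro z hz
        rw [mem_insert, mem_singleton] at hz
        rcases hz with rfl | rfl
        · exact hst
        · rw [mem_tk, mem_insert, mem_singleton]
          exact ⟨hx, Or.inr px, tx⟩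
      rw [← card_pair hnx]
      exact card_le_card hs
    have hbd : (G.bd {G.pi u1, G.pi (G.al u1)}).card ≤ 2 := by
      have hs : G.bd {G.pi u1, G.pi (G.al u1)} ⊆ {u2, y} := by
        intro d hd
        have h1 := hsub hd
        rw [mem_insert, mem_insert, mem_singleton] at h1
        rw [mem_insert, mem_singleton]
        rcases h1 with rfl | rfl | rfl
        · exact Or.inl rfl
        · exfalso
          rw [mem_bd] at hd
          rw [tx] at hd
          exact hd.2.2 hd.2.1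
        · exact Or.inr rfl
      exact (card_le_card hs).trans card_le_two
    omega
  by_cases b2 : G.al v2 = v2
  · exact htok v2 v3 mv2 pv2 b2 hbs
  by_cases b3 : G.al v3 = v3
  · refine htok v3 v2 mv3 pv3 b3 (hbs.trans ?_)
    intro d hd
    rw [mem_insert, mem_insert, mem_singleton] at hd ⊢
    rcases hd with hd | hd | hd
    · exact Or.inl hd
    · exact Or.inr (Or.inr hd)
    · exact Or.inr (Or.inl hd)
  -- a double edge sv
  have hdbl : ∀ x y : D, G.pi x = G.pi (G.al u1) → G.al u2 = x →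
      G.bd {G.pi u1, G.pi (G.al u1)} ⊆ {u2, x, y} → ∃ M, G.Good K F M := by
    intro x y px hx hsub
    refine del_red G hI h.ih m1 t1 as av ?_
    have htk : 1 ≤ (G.tk {G.pi u1, G.pi (G.al u1)}).card := card_pos.2 ⟨σ, hst⟩
    have hbd : (G.bd {G.pi u1, G.pi (G.al u1)}).card ≤ 1 := by
      have hs : G.bd {G.pi u1, G.pi (G.al u1)} ⊆ {y} := by
        intro d hd
        have h1 := hsub hd
        rw [mem_insert, mem_insert, mem_singleton] at h1
        rw [mem_bd] at hd
        rw [mem_singleton]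
        rcases h1 with rfl | rfl | rfl
        · exfalso
          apply hd.2.2
          rw [hx, px, mem_insert, mem_singleton]
          exact Or.inr rfl
        · exfalso
          apply hd.2.2
          rw [← hx, G.al_al u2 m2, p2, ← p1]
          exact mem_insert_self _ _
        · rfl
      exact (card_le_card hs).trans (by rw [card_singleton])
    omega
  by_cases c2 : G.al u2 = v2
  · exact hdbl v2 v3 pv2 c2 hbs
  by_cases c3 : G.al u2 = v3
  · refine hdbl v3 v2 pv3 c3 (hbs.trans ?_)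
    intro d hd
    rw [mem_insert, mem_insert, mem_singleton] at hd ⊢
    rcases hd with hd | hd | hd
    · exact Or.inl hd
    · exact Or.inr (Or.inr hd)
    · exact Or.inr (Or.inl hd)
  have d2 : G.al v2 ≠ v3 := by
    intro hh
    exact hI.b0.no_loop mv2 b2 (by rw [hh, pv3, pv2])
  have hSD : G.SD σ u1 u2 (G.al u1) v2 v3 :=
    { mσ := mσ, mu1 := m1, mu2 := m2, mv1 := mv, mv2 := mv2, mv3 := mv3, tσ := tσ
      pu1 := p1, pu2 := p2, pv2 := pv2, pv3 := pv3
      hsv := fun hh => hne (hh.symm.trans p1.symm)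
      n1 := n1, n2 := n2, n3 := n3, n4 := n4.symm, n5 := n5.symm, n6 := n6
      e1 := rfl, a2 := t2, b2 := b2, b3 := b3, c2 := c2, c3 := c3, d2 := d2 }
  exact beta hI h5 h.ih hSD av

/-- the two neighbours of a token vertex are separated -/
private lemma MC.alpha_sep (h : G.MC K F) {σ u1 u2 : D} (mσ : σ ∈ G.ds) (m1 : u1 ∈ G.ds)
    (m2 : u2 ∈ G.ds) (tσ : G.al σ = σ) (p1 : G.pi u1 = G.pi σ) (p2 : G.pi u2 = G.pi σ)
    (n3 : u1 ≠ u2) (ha : ¬ G.Abs K F (G.pi (G.al u1))) :
    ∃ Z, G.Adm K F Z ∧ G.pi (G.al u1) ∈ Z ∧ G.pi (G.al u2) ∉ Z := by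
  by_contra hcon
  push Not at hcon
  refine h.absorb (G.pi_mem _ (G.al_mem u1 m1)) (fun hK => ha fun Z hZ hv => hZ.dis _ hv hK) ?_
  intro M hM Z hZ h1
  have h2 := hcon Z hZ h1
  have hs : G.pi σ ∉ Z := abs_tok' h.inst.cls mσ tσ Z hZ
  refine KD.two_out hM (d1 := G.al u1) (d2 := G.al u2) ?_ ?_ ?_ ?_
  · rw [mem_bd, G.al_al u1 m1, p1]
    exact ⟨G.al_mem u1 m1, h1, hs⟩
  · rw [mem_bd, G.al_al u2 m2, p2]
    exact ⟨G.al_mem u2 m2, h2, hs⟩
  · intro hh
    apply n3
    rw [← G.al_al u1 m1, hh, G.al_al u2 m2]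
  · rw [G.al_al u1 m1, G.al_al u2 m2, p1, p2]

/-- **alpha tokens**: a vertex `s` with exactly one token `σ`; `u1`, `u2` are its other darts. Its two
neighbours are not absorbed and lie on different fresh circuits.

Proof. Let `v` be the other end of `u1`, assume `v` absorbed. If `v` has a token: `del_red`. Otherwise
let `v2`, `v3` be the other darts of `v`. If one of them is `al u2` (double edge `sv`): `del_red`
(the set `{s,v}` has one token and one edge). Otherwise `SD σ u1 u2 v1 v2 v3` holds (no loops by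
`B0.no_loop`): `beta`. If `v` is not absorbed and double (`c1 = c2`): the circuit of `v` uses an edge to
`s`, so `v` is absorbed. Finally if every `Z` containing `c1` contains `c2`: `MC.absorb` for `c1`, `two_out`. -/
lemma MC.alpha (h : G.MC K F) {σ u1 u2 : D} (mσ : σ ∈ G.ds) (m1 : u1 ∈ G.ds) (m2 : u2 ∈ G.ds)
    (tσ : G.al σ = σ) (t1 : G.al u1 ≠ u1) (t2 : G.al u2 ≠ u2) (p1 : G.pi u1 = G.pi σ)
    (p2 : G.pi u2 = G.pi σ) (n1 : σ ≠ u1) (n2 : σ ≠ u2) (n3 : u1 ≠ u2) :
    ¬ G.Abs K F (G.pi (G.al u1)) ∧ ¬ G.Abs K F (G.pi (G.al u2)) ∧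
      (∃ Z, G.Adm K F Z ∧ G.pi (G.al u1) ∈ Z ∧ G.pi (G.al u2) ∉ Z) ∧
      (∃ Z, G.Adm K F Z ∧ G.pi (G.al u2) ∈ Z ∧ G.pi (G.al u1) ∉ Z) := by
  have a1 := h.alpha_abs mσ m1 m2 tσ t1 t2 p1 p2 n1 n2 n3
  have a2 := h.alpha_abs mσ m2 m1 tσ t2 t1 p2 p1 n2 n1 n3.symm
  exact ⟨a1, a2, h.alpha_sep mσ m1 m2 tσ p1 p2 n3 a1, h.alpha_sep mσ m2 m1 tσ p2 p1 n3.symm a2⟩

end JP.CG
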