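import Pool.Agent.Lib.JP.F4
import Pool.Agent.Lib.JP.Absorb
import Pool.Agent.Lib.JP.Glue

/-! (F2), (F3): cuts of size three with tokens, and the case of two absorbed vertices. -/

set_option autoImplicit false

namespace JP.CG

open Finset Classical

variable {V D : Type*} {G : CG V D} {K : Finset V} {F : Finset D}

/-- (F2): an odd set with a token, at least three vertices and degree three is the complement of one
vertex, which has two tokens -/
theorem MC.F2 (h : G.MC K F) {X : Finset V} (hX : X ⊆ G.vs) (ho : Odd X.card) (h3 : 3 ≤ X.card)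
    (ht : (G.tk X).Nonempty) (hd : G.dg X = 3) :
    ∃ v, G.vs \ X = {v} ∧ (G.tk {v}).card = 2 ∧ (G.tk X).card = 2 ∧ (G.bd X).card = 1 := by
  have h4 := h.four
  have hc := G.tk_compl hX
  have hev := h.inst.even
  have hcard : (G.vs \ X).card + X.card = G.vs.card := card_sdiff_add_card_eq_card hX
  have hWo : Odd (G.vs \ X).card := by
    by_contra hne
    rw [Nat.not_odd_iff_even] at hne
    rw [← hcard] at hev
    exact (Nat.not_even_iff_odd.2 (hne.add_odd ho)) hev
  have h1 : (G.vs \ X).card = 1 := by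
    by_contra hne
    have h5 : 3 ≤ (G.vs \ X).card := by
      obtain ⟨k, hk⟩ := hWo
      omega
    refine h.no (glue h.inst h.ih hX ho hd h3 h5 ?_)
    intro he
    rw [he] at ht
    exact absurd ht (by simp)
  obtain ⟨v, hv⟩ := card_eq_one.1 h1
  have hvv : v ∈ G.vs := by
    have : v ∈ G.vs \ X := by rw [hv]; exact mem_singleton_self v
    exact (mem_sdiff.1 this).1
  have h5 := B0.dg_singleton h.inst.b0 hvv
  have h6 : (G.bd (G.vs \ X)).card = (G.bd X).card := G.bd_compl hX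
  rw [hv] at h6 hc
  unfold dg at h5 hd
  exact ⟨v, hv, by omega, by omega, by omega⟩

/-- a vertex with two tokens: the third dart is an edge to a vertex which is not absorbed -/
theorem MC.dbl (h : G.MC K F) {x : V} (hx : (G.tk {x}).card = 2) :
    ∃ u ∈ G.ds, G.pi u = x ∧ G.al u ≠ u ∧ ¬ G.Abs K F (G.pi (G.al u)) ∧ u ∉ F ∧
      ∀ d ∈ G.ds, G.pi d = x → G.al d ≠ d → d = u := by
  obtain ⟨σ, τ, hne, he⟩ := card_eq_two.1 hx
  have hσ : σ ∈ G.tk {x} := by rw [he]; exact mem_insert_self _ _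
  have hτ : τ ∈ G.tk {x} := by rw [he]; exact mem_insert_of_mem (mem_singleton_self _)
  rw [mem_tk, mem_singleton] at hσ hτ
  have hxv : x ∈ G.vs := by
    rw [← hσ.2.1]
    exact G.pi_mem _ hσ.1
  have h3 := G.cubic x hxv
  have hsub : ({σ, τ} : Finset D) ⊆ G.ds.filter fun d => G.pi d = x := by
    intro d hd
    rw [mem_insert, mem_singleton] at hd
    rw [mem_filter]
    rcases hd with rfl | rfl
    · exact ⟨hσ.1, hσ.2.1⟩
    · exact ⟨hτ.1, hτ.2.1⟩
  have h1 := card_sdiff_add_card_eq_card hsub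
  have h2 : ({σ, τ} : Finset D).card = 2 := card_pair hne
  obtain ⟨u, hu⟩ := card_eq_one.1 (by omega : ((G.ds.filter fun d => G.pi d = x) \ {σ, τ}).card = 1)
  have hum : u ∈ (G.ds.filter fun d => G.pi d = x) \ {σ, τ} := by
    rw [hu]
    exact mem_singleton_self u
  rw [mem_sdiff, mem_filter, mem_insert, mem_singleton, not_or] at hum
  obtain ⟨⟨hud, hux⟩, huσ, huτ⟩ := hum
  have h5 := h.double hσ.1 hτ.1 hud hσ.2.2 hτ.2.2 (hτ.2.1.trans hσ.2.1.symm)
    (hux.trans hσ.2.1.symm) hne (Ne.symm huσ) (Ne.symm huτ)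
  refine ⟨u, hud, hux, h5.1, h5.2, ?_, ?_⟩
  · intro hF
    apply h5.2
    intro Z hZ hm
    have h6 := hZ.clo _ (h.inst.cls.Fal u hF) hm
    rw [G.al_al u hud, hux] at h6
    have h7 := h.inst.cls.tokK σ hσ.1 hσ.2.2
    rw [hσ.2.1] at h7
    exact hZ.dis x h6 h7
  · intro d hd hdx hdt
    by_contra hdu
    have h6 : d ∈ (G.ds.filter fun d => G.pi d = x) \ {σ, τ} := by
      rw [mem_sdiff, mem_filter, mem_insert, mem_singleton, not_or]
      refine ⟨⟨hd, hdx⟩, ?_, ?_⟩
      · rintro rfl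
        exact hdt hσ.2.2
      · rintro rfl
        exact hdt hτ.2.2
    rw [hu, mem_singleton] at h6
    exact hdu h6

/-- (F3): `K` does not consist of two vertices with two tokens each -/
theorem MC.F3 (h : G.MC K F) {t v : V} (hK : K = {t, v}) (ht : (G.tk {t}).card = 2)
    (hv : (G.tk {v}).card = 2) : False := by
  have hc := h.inst.cls
  have htv : t ≠ v := by
    rintro rfl
    have h4 := h.four
    have h1 : G.tk G.vs ⊆ G.tk {t} := by
      intro d hd
      rw [mem_tk] at hd ⊢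
      have h2 := hc.tokK d hd.1 hd.2.2
      rw [hK] at h2
      simp only [mem_insert, mem_singleton, or_self] at h2
      exact ⟨hd.1, mem_singleton.2 h2, hd.2.2⟩
    have h2 := card_le_card h1
    omega
  have hx : ∀ x ∈ K, ∃ u ∈ G.ds, G.pi u = x ∧ G.al u ≠ u ∧ ¬ G.Abs K F (G.pi (G.al u)) ∧ u ∉ F ∧
      ∀ d ∈ G.ds, G.pi d = x → G.al d ≠ d → d = u := by
    intro x hx
    rw [hK, mem_insert, mem_singleton] at hx
    rcases hx with rfl | rfl
    · exact h.dbl ht
    · exact h.dbl hv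
  have hcl : ∀ X, G.Adm K F X → G.Adm K F ((G.vs \ K) \ X) := by
    intro X hX
    refine ⟨sdiff_subset.trans sdiff_subset, fun v hv => (mem_sdiff.1 (mem_sdiff.1 hv).1).2, ?_⟩
    intro d hd hdX
    rw [mem_sdiff, mem_sdiff] at hdX ⊢
    have hds := hc.Fsub hd
    refine ⟨⟨G.pi_mem _ (G.al_mem d hds), ?_⟩, ?_⟩
    · intro h1
      obtain ⟨u, hu, hux, h2, h3, h4, h5⟩ := hx _ h1
      have h6 := h5 (G.al d) (G.al_mem d hds) rfl (hc.Ftok _ (hc.Fal d hd))
      apply h4
      rw [← h6]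
      exact hc.Fal d hd
    · intro h1
      have h2 := hX.clo _ (hc.Fal d hd) h1
      rw [G.al_al d hds] at h2
      exact hdX.2 h2
  obtain ⟨u, hu, hux, hut, hua, -, -⟩ := hx t (by rw [hK]; exact mem_insert_self _ _)
  obtain ⟨c, hcd⟩ : ∃ c, G.pi (G.al u) = c := ⟨_, rfl⟩
  rw [hcd] at hua
  have hcv : c ∈ G.vs := by rw [← hcd]; exact G.pi_mem _ (G.al_mem u hu)
  have hcK : c ∉ K := fun h1 => hua fun Z hZ hv => hZ.dis c hv h1
  obtain ⟨M, hM⟩ := h.abs c hcv hcK (h.inst.ins hcv)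
  refine h.no ⟨M, hM.pm, ?_⟩
  intro X hX ho
  by_contra hcon
  push Not at hcon
  by_cases hcX : c ∈ X
  · have h1 := hcl X hX
    have h2 : G.Adm (insert c K) F ((G.vs \ K) \ X) :=
      adm_ins.2 ⟨h1, fun h3 => (mem_sdiff.1 h3).2 hcX⟩
    have h3 : Odd ((G.vs \ K) \ X).card := by
      have e1 : (G.vs \ K).card + K.card = G.vs.card := card_sdiff_add_card_eq_card hc.Ksub
      have e2 : ((G.vs \ K) \ X).card + X.card = (G.vs \ K).card :=
        card_sdiff_add_card_eq_card fun w hw => mem_sdiff.2 ⟨hX.sub hw, hX.dis w hw⟩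
      have e3 : K.card = 2 := by rw [hK, card_pair htv]
      obtain ⟨a, ha⟩ := h.inst.even
      obtain ⟨b, hb⟩ := ho
      exact ⟨a - b - 2, by omega⟩
    obtain ⟨d, hd, hdM⟩ := hM.hit _ h2 h3
    apply hdM
    have hd' := G.mem_bd.1 hd
    have hal := G.al_al d hd'.1
    have hads := G.al_mem d hd'.1
    have hX' := mem_sdiff.1 hd'.2.1
    by_cases h4 : G.pi (G.al d) ∈ X
    · have h5 : G.al d ∈ G.bd X := G.mem_bd.2 ⟨hads, h4, by rw [hal]; exact hX'.2⟩
      have h6 := hM.pm.closed _ (hcon _ h5)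
      rwa [hal] at h6
    · have h5 : G.pi (G.al d) ∈ K := by
        by_contra h6
        exact hd'.2.2 (mem_sdiff.2 ⟨mem_sdiff.2 ⟨G.pi_mem _ hads, h6⟩, h4⟩)
      obtain ⟨w, hw, hwx, h6, h7, h8, h9⟩ := hx _ h5
      have h10 : G.al d = w := by
        refine h9 _ hads rfl ?_
        rw [hal]
        intro h11
        rw [← h11] at h5
        exact (mem_sdiff.1 hX'.1).2 h5
      obtain ⟨e, he⟩ := card_eq_one.1 (hM.pm.one _ (hc.Ksub h5))
      have he' : e ∈ M.filter fun d' => G.pi d' = G.pi (G.al d) := by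
        rw [he]
        exact mem_singleton_self e
      rw [mem_filter] at he'
      have h11 := h9 e (hM.pm.sub he'.1) he'.2 (hM.pm.notok e he'.1)
      have h12 := hM.pm.closed _ he'.1
      rwa [h11, ← h10, hal] at h12
  · obtain ⟨d, hd, hdM⟩ := hM.hit X (adm_ins.2 ⟨hX, hcX⟩) ho
    exact hdM (hcon d hd)

end JP.CG
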