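import Pool.Agent.Lib.JP.OfSG
import Pool.Agent.Lib.JP.Three

/-! Two perfect matchings whose intersection contains no odd cut. -/

set_option autoImplicit false

namespace JP

open Finset Classical

variable {V : Type} [Fintype V]

/-- the main theorem applied to a 2-factor whose complement `M1` contains no odd cut of size 3 and
all whose circuits except at most one (the one through `v0`) have length at most 5 -/
lemma two_core {D : Type} (G : CG V D) (huniv : G.vs = univ) (heven : Even G.vs.card)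
    (htk : G.tk G.vs = ∅) (hb : G.B0)
    (hmain : ∀ (K : Finset V) (F : Finset D), G.Inst K F → ∃ M, G.Good K F M)
    {M1 : Finset D} (hM1 : G.IsPM M1)
    (h3 : ∀ X ⊆ G.vs, Odd X.card → (G.bd X).card = 3 →
      ((G.bd X).filter fun d => d ∈ M1).card = 1) (v0 : V)
    (hsm : G.Sm {v0} (G.ds \ M1)) :
    ∃ M2 : Finset D, G.IsPM M2 ∧
      ∀ Z : Finset V, Odd Z.card → ∃ d ∈ G.bd Z, ¬ (d ∈ M1 ∧ d ∈ M2) := by
  have hsub : ∀ Z : Finset V, Z ⊆ G.vs := fun Z => by rw [huniv]; exact subset_univ _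
  have hnotok : ∀ d ∈ G.ds, G.al d ≠ d := by
    intro d hd h
    have : d ∈ G.tk G.vs := (G.mem_tk).2 ⟨hd, G.pi_mem d hd, h⟩
    rw [htk] at this
    exact absurd this (notMem_empty _)
  have htkZ : ∀ Z : Finset V, G.tk Z = ∅ := by
    intro Z
    rw [eq_empty_iff_forall_notMem]
    intro d hd
    obtain ⟨h1, _, h2⟩ := (G.mem_tk).1 hd
    exact hnotok d h1 h2
  have hsubM : ∀ Z : Finset V, G.Adm {v0} (G.ds \ M1) Z → G.bd Z ⊆ M1 := by
    intro Z hZ d hd
    by_contra hdM
    obtain ⟨h1, h2, h3'⟩ := (G.mem_bd).1 hd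
    exact h3' (hZ.clo d (mem_sdiff.2 ⟨h1, hdM⟩) h2)
  have hinst : G.Inst {v0} (G.ds \ M1) := by
    refine ⟨heven, ?_, hb, ?_, ?_, hsm⟩
    · rw [htk]; simp
    · refine ⟨hsub _, sdiff_subset, ?_, ?_, ?_, ?_⟩
      · intro d hd
        obtain ⟨h1, h2⟩ := mem_sdiff.1 hd
        refine mem_sdiff.2 ⟨G.al_mem d h1, fun h => h2 ?_⟩
        have := hM1.closed _ h
        rwa [G.al_al d h1] at this
      · intro d hd
        exact hnotok d (mem_sdiff.1 hd).1
      · intro v hv _
        have e1 : ((G.ds \ M1).filter fun d => G.pi d = v) =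
            (G.ds.filter fun d => G.pi d = v) \ (M1.filter fun d => G.pi d = v) := by
          ext d
          simp only [mem_filter, mem_sdiff]
          tauto
        rw [e1, card_sdiff_of_subset (filter_subset_filter _ hM1.sub), G.cubic v hv, hM1.one v hv]
      · intro d hd h
        exact absurd h (hnotok d hd)
    · intro Z hZ hodd
      have hs := hsubM Z hZ
      have e0 : G.dg Z = (G.bd Z).card := by
        unfold CG.dg
        rw [htkZ Z]
        simp
      have h1 : 3 ≤ (G.bd Z).card := by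
        rw [← e0]; exact hb Z (hsub Z) hodd
      have h2 : Odd (G.bd Z).card := by
        rw [← e0]; exact (G.dg_parity (hsub Z)).2 hodd
      have h4 : (G.bd Z).card ≠ 3 := by
        intro h
        have h5 := h3 Z (hsub Z) hodd h
        rw [filter_true_of_mem (fun d hd => hs hd), h] at h5
        omega
      obtain ⟨k, hk⟩ := h2
      omega
  obtain ⟨M2, hM2⟩ := hmain _ _ hinst
  refine ⟨M2, hM2.pm, ?_⟩
  intro Z hodd
  by_contra hcon
  push Not at hcon
  have hZ1 : ∀ d ∈ G.bd Z, d ∈ M1 ∧ d ∈ M2 := hcon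
  by_cases hv : v0 ∈ Z
  · -- use the complement
    have hcard : (G.vs \ Z).card + Z.card = G.vs.card := card_sdiff_add_card_eq_card (hsub Z)
    have hoddc : Odd (G.vs \ Z).card := by
      obtain ⟨a, ha⟩ := hodd
      obtain ⟨b, hb'⟩ := heven
      rw [Nat.odd_iff]
      omega
    have key : ∀ d ∈ G.ds, G.pi d ∉ Z → G.pi (G.al d) ∈ Z → G.al d ∈ G.bd Z := by
      intro d hd h1 h2
      refine (G.mem_bd).2 ⟨G.al_mem d hd, h2, ?_⟩
      rwa [G.al_al d hd]
    have hadm : G.Adm {v0} (G.ds \ M1) (G.vs \ Z) := by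
      refine ⟨sdiff_subset, ?_, ?_⟩
      · intro v hvv h
        rw [mem_singleton] at h
        subst h
        exact (mem_sdiff.1 hvv).2 hv
      · intro d hd hp
        obtain ⟨h1, h2⟩ := mem_sdiff.1 hd
        refine mem_sdiff.2 ⟨G.pi_mem _ (G.al_mem d h1), fun h => h2 ?_⟩
        have h5 := (hZ1 _ (key d h1 (mem_sdiff.1 hp).2 h)).1
        have := hM1.closed _ h5
        rwa [G.al_al d h1] at this
    obtain ⟨d, hd, hdM⟩ := hM2.hit _ hadm hoddc
    obtain ⟨h1, h2, h6⟩ := (G.mem_bd).1 hd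
    have h7 : G.pi (G.al d) ∈ Z := by
      by_contra h8
      exact h6 (mem_sdiff.2 ⟨G.pi_mem _ (G.al_mem d h1), h8⟩)
    have h5 := (hZ1 _ (key d h1 (mem_sdiff.1 h2).2 h7)).2
    have := hM2.pm.closed _ h5
    rw [G.al_al d h1] at this
    exact hdM this
  · have hadm : G.Adm {v0} (G.ds \ M1) Z := by
      refine ⟨hsub Z, ?_, ?_⟩
      · intro v hvv h
        rw [mem_singleton] at h
        subst h
        exact hv hvv
      · intro d hd hp
        obtain ⟨h1, h2⟩ := mem_sdiff.1 hd
        by_contra h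
        exact h2 (hZ1 d ((G.mem_bd).2 ⟨h1, hp, h⟩)).1
    obtain ⟨d, hd, hdM⟩ := hM2.hit _ hadm hodd
    exact hdM (hZ1 d hd).2

end JP
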