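import Pool.Agent.Lib.JP.CutA

/-! Cuts, second part: disjoint unions, single vertices, perfect matchings. -/

set_option autoImplicit false

namespace JP.CG

open Finset Classical

variable {V D : Type*} (G : CG V D)

lemma dg_empty : G.dg ∅ = 0 := by
  have h1 : G.bd ∅ = ∅ := by
    apply Finset.eq_empty_of_forall_notMem
    intro d hd
    exact absurd ((G.mem_bd.mp hd).2.1) (Finset.notMem_empty _)
  have h2 : G.tk ∅ = ∅ := by
    apply Finset.eq_empty_of_forall_notMem
    intro d hd
    exact absurd ((G.mem_tk.mp hd).2.1) (Finset.notMem_empty _)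
  unfold dg
  rw [h1, h2]
  rfl

/-- adding a disjoint set -/
lemma dg_union {X Y : Finset V} (h : Disjoint X Y) :
    G.dg (X ∪ Y) + 2 * (G.ed X Y).card = G.dg X + G.dg Y := by
  have h1 := G.dg_submod X Y
  rw [Finset.disjoint_iff_inter_eq_empty.mp h, dg_empty,
    Finset.sdiff_eq_self_of_disjoint h, Finset.sdiff_eq_self_of_disjoint h.symm] at h1
  omega

lemma bd_disj_tk (X : Finset V) : Disjoint (G.bd X) (G.tk X) := by
  rw [Finset.disjoint_left]
  intro d hd ht
  have h1 := G.mem_bd.mp hd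
  have h2 := G.mem_tk.mp ht
  rw [h2.2.2] at h1
  exact h1.2.2 h1.2.1

lemma dg_eq_card_union (X : Finset V) : G.dg X = (G.bd X ∪ G.tk X).card := by
  rw [Finset.card_union_of_disjoint (G.bd_disj_tk X)]
  rfl

lemma bd_union_tk_sub (v : V) : G.bd {v} ∪ G.tk {v} ⊆ G.ds.filter fun d => G.pi d = v := by
  intro d hd
  rw [Finset.mem_filter]
  rcases Finset.mem_union.mp hd with h | h
  · have h1 := G.mem_bd.mp h
    exact ⟨h1.1, Finset.mem_singleton.mp h1.2.1⟩
  · have h1 := G.mem_tk.mp h
    exact ⟨h1.1, Finset.mem_singleton.mp h1.2.1⟩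

lemma dg_singleton_le {v : V} (hv : v ∈ G.vs) : G.dg {v} ≤ 3 := by
  rw [dg_eq_card_union, ← G.cubic v hv]
  exact Finset.card_le_card (G.bd_union_tk_sub v)

/-- in a bridgeless graph a vertex has degree exactly 3, and there are no loops -/
lemma B0.dg_singleton {G : CG V D} (h : G.B0) {v : V} (hv : v ∈ G.vs) : G.dg {v} = 3 := by
  apply le_antisymm (G.dg_singleton_le hv)
  apply h
  · exact Finset.singleton_subset_iff.mpr hv
  · rw [Finset.card_singleton]; exact odd_one

lemma B0.no_loop {G : CG V D} (h : G.B0) {d : D} (hd : d ∈ G.ds) (ht : G.al d ≠ d) :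
    G.pi (G.al d) ≠ G.pi d := by
  intro he
  have hv := G.pi_mem d hd
  have h3 := h.dg_singleton hv
  have hlt : G.dg {G.pi d} < 3 := by
    rw [dg_eq_card_union, ← G.cubic _ hv]
    apply Finset.card_lt_card
    rw [Finset.ssubset_iff_of_subset (G.bd_union_tk_sub _)]
    refine ⟨d, Finset.mem_filter.mpr ⟨hd, rfl⟩, ?_⟩
    intro hm
    rcases Finset.mem_union.mp hm with h1 | h1
    · exact (G.mem_bd.mp h1).2.2 (Finset.mem_singleton.mpr he)
    · exact ht (G.mem_tk.mp h1).2.2
  omega

/-- no loops in a bridgeless graph, the complement of an odd set -/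
lemma B0.compl {G : CG V D} (h : G.B0) (he : Even G.vs.card) {X : Finset V} (hX : X ⊆ G.vs)
    (ho : Odd X.card) : 3 ≤ (G.bd X).card + (G.tk (G.vs \ X)).card := by
  have h1 : Odd (G.vs \ X).card := by
    rw [Finset.card_sdiff_of_subset hX, Nat.odd_sub (Finset.card_le_card hX)]
    constructor
    · intro hodd
      exact absurd he (Nat.not_even_iff_odd.mpr hodd)
    · intro heven
      exact absurd heven (Nat.not_even_iff_odd.mpr ho)
  have h2 := h (G.vs \ X) Finset.sdiff_subset h1
  unfold dg at h2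
  rwa [G.bd_compl hX] at h2

variable {G} {M : Finset D}

/-- number of matching darts in `X` -/
lemma IsPM.card_in (h : G.IsPM M) {X : Finset V} (hX : X ⊆ G.vs) :
    (M.filter fun d => G.pi d ∈ X).card = X.card := by
  have h1 : (M.filter fun d => G.pi d ∈ X).card =
      ∑ v ∈ X, ((M.filter fun d => G.pi d ∈ X).filter fun d => G.pi d = v).card := by
    apply Finset.card_eq_sum_card_fiberwise
    intro d hd
    exact (Finset.mem_filter.mp hd).2
  rw [h1, Finset.card_eq_sum_ones]
  apply Finset.sum_congr rfl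
  intro v hv
  rw [← h.one v (hX hv)]
  congr 1
  ext d
  simp only [Finset.mem_filter]
  constructor
  · rintro ⟨⟨h2, _⟩, h3⟩
    exact ⟨h2, h3⟩
  · rintro ⟨h2, h3⟩
    exact ⟨⟨h2, h3 ▸ hv⟩, h3⟩

lemma IsPM.parity (h : G.IsPM M) {X : Finset V} (hX : X ⊆ G.vs) :
    Odd ((G.bd X).filter fun d => d ∈ M).card ↔ Odd X.card := by
  have h1 : (M.filter fun d => G.pi d ∈ X) =
      ((G.bd X).filter fun d => d ∈ M) ∪
        (M.filter fun d => G.pi d ∈ X ∧ G.pi (G.al d) ∈ X) := by
    ext d
    simp only [Finset.mem_filter, Finset.mem_union, G.mem_bd]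
    constructor
    · rintro ⟨h2, h3⟩
      by_cases h4 : G.pi (G.al d) ∈ X
      · exact Or.inr ⟨h2, h3, h4⟩
      · exact Or.inl ⟨⟨h.sub h2, h3, h4⟩, h2⟩
    · rintro (⟨⟨_, h3, _⟩, h2⟩ | ⟨h2, h3, _⟩)
      · exact ⟨h2, h3⟩
      · exact ⟨h2, h3⟩
  have hd : Disjoint ((G.bd X).filter fun d => d ∈ M)
      (M.filter fun d => G.pi d ∈ X ∧ G.pi (G.al d) ∈ X) := by
    rw [Finset.disjoint_left]
    intro d h2 h3
    exact (G.mem_bd.mp (Finset.mem_filter.mp h2).1).2.2 (Finset.mem_filter.mp h3).2.2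
  have he : Even (M.filter fun d => G.pi d ∈ X ∧ G.pi (G.al d) ∈ X).card := by
    apply G.even_of_closed
    · exact (Finset.filter_subset _ _).trans h.sub
    · intro d h2
      have h3 := Finset.mem_filter.mp h2
      refine Finset.mem_filter.mpr ⟨h.closed d h3.1, h3.2.2, ?_⟩
      rw [G.al_al d (h.sub h3.1)]
      exact h3.2.1
    · intro d h2
      exact h.notok d (Finset.mem_filter.mp h2).1
  rw [← h.card_in hX, h1, Finset.card_union_of_disjoint hd, Nat.odd_add]
  exact ⟨fun _ => by tauto, fun h5 => by tauto⟩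

/-- if `X` contains no token, the number of non-matching edges leaving `X` is even -/
lemma IsPM.even_compl (h : G.IsPM M) {X : Finset V} (hX : X ⊆ G.vs) (ht : G.tk X = ∅) :
    Even ((G.bd X).filter fun d => d ∉ M).card := by
  have h1 : ((G.bd X).filter fun d => d ∈ M).card + ((G.bd X).filter fun d => d ∉ M).card
      = G.dg X := by
    unfold dg
    rw [ht, Finset.card_empty, add_zero]
    exact Finset.card_filter_add_card_filter_not (fun d => d ∈ M)
  have h2 := h.parity hX
  have h3 := G.dg_parity hX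
  rw [← h1, Nat.odd_add, ← h2] at h3
  tauto

/-- a vertex has exactly one matching dart -/
lemma IsPM.unique (h : G.IsPM M) {d e : D} (hd : d ∈ M) (he : e ∈ M) (hde : G.pi d = G.pi e) :
    d = e := by
  have h1 := h.one (G.pi e) (G.pi_mem e (h.sub he))
  rw [Finset.card_eq_one] at h1
  obtain ⟨a, ha⟩ := h1
  have h2 : d ∈ M.filter fun d => G.pi d = G.pi e := Finset.mem_filter.mpr ⟨hd, hde⟩
  have h3 : e ∈ M.filter fun d => G.pi d = G.pi e := Finset.mem_filter.mpr ⟨he, rfl⟩
  rw [ha, Finset.mem_singleton] at h2 h3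
  rw [h2, h3]

end JP.CG
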