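import Pool.Agent.Lib.JP.Two
import Pool.Agent.Lib.JP.EvenSub

/-! From the main theorem in the pentagon world to 2-factors of cubic graphs. -/

set_option autoImplicit false

namespace JP

open Finset Classical

section

variable {V : Type} [Fintype V] (G : SimpleGraph V)
  (hc : ∀ v : V, (G.neighborSet v).ncard = 3)

/-- the complement of a perfect matching -/
private def compl2 (M : Finset (V × V)) (hM : (ofSG G hc).IsPM M) : SimpleGraph V where
  Adj v w := G.Adj v w ∧ (v, w) ∉ M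
  symm := ⟨fun v w h => ⟨h.1.symm, fun hw => h.2 (hM.closed (w, v) hw)⟩⟩
  loopless := ⟨fun v h => G.loopless.irrefl v h.1⟩

private lemma compl2_le (M : Finset (V × V)) (hM : (ofSG G hc).IsPM M) :
    compl2 G hc M hM ≤ G := fun _ _ h => h.1

private lemma compl2_card (M : Finset (V × V))
    (hM : (ofSG G hc).IsPM M) (v : V) : ((compl2 G hc M hM).neighborSet v).ncard = 2 := by
  obtain ⟨d, hd⟩ := Finset.card_eq_one.1 (hM.one v (Finset.mem_univ v))
  have hd1 : d ∈ M ∧ d.1 = v := by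
    have : d ∈ M.filter fun d => (ofSG G hc).pi d = v := by rw [hd]; simp
    rw [Finset.mem_filter] at this
    exact this
  obtain ⟨a, w⟩ := d
  obtain ⟨hm, rfl⟩ := hd1
  have hadj : G.Adj a w := by
    have := hM.sub hm
    simpa [ofSG] using this
  have hset : (compl2 G hc M hM).neighborSet a = G.neighborSet a \ {w} := by
    ext x
    simp only [SimpleGraph.mem_neighborSet, Set.mem_sdiff, Set.mem_singleton_iff]
    constructor
    · rintro ⟨h1, h2⟩
      refine ⟨h1, ?_⟩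
      rintro rfl
      exact h2 hm
    · rintro ⟨h1, h2⟩
      refine ⟨h1, fun h3 => h2 ?_⟩
      have : (a, x) ∈ M.filter fun d => (ofSG G hc).pi d = a := by
        rw [Finset.mem_filter]
        exact ⟨h3, rfl⟩
      rw [hd, Finset.mem_singleton] at this
      exact (Prod.ext_iff.1 this).2
  rw [hset, Set.ncard_sdiff_singleton_of_mem (show w ∈ G.neighborSet a from hadj), hc]

private lemma filt_inst {α : Type*} {s : Finset α} {p : α → Prop} (i j : DecidablePred p) :
    @Finset.filter α p i s = @Finset.filter α p j s := by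
  have h : i = j := Subsingleton.elim i j
  subst h
  rfl

/-- the darts of the edges of `G` outside `F` -/
private noncomputable def mt (F : SimpleGraph V) : Finset (V × V) :=
  univ.filter fun d => G.Adj d.1 d.2 ∧ ¬ F.Adj d.1 d.2

private lemma mem_mt {F : SimpleGraph V} {d : V × V} :
    d ∈ mt G F ↔ G.Adj d.1 d.2 ∧ ¬ F.Adj d.1 d.2 := by
  unfold mt
  rw [mem_filter]
  exact ⟨fun h => h.2, fun h => ⟨mem_univ _, h⟩⟩

private lemma mt_pm {F : SimpleGraph V} (hF : F ≤ G)
    (hF2 : ∀ v : V, (F.neighborSet v).ncard = 2) : (ofSG G hc).IsPM (mt G F) := by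
  refine ⟨?_, ?_, ?_, ?_⟩
  · intro d hd
    rw [ofSG_mem_ds]
    exact ((mem_mt G).1 hd).1
  · intro d hd
    rw [mem_mt] at hd ⊢
    exact ⟨hd.1.symm, fun h => hd.2 h.symm⟩
  · intro d hd h
    have h1 := ((mem_mt G).1 hd).1
    have h4 : d.2 = d.1 := congrArg Prod.fst (h : d.swap = d)
    rw [h4] at h1
    exact G.loopless.irrefl _ h1
  · intro v _
    have h1 : ((mt G F).filter fun p => (ofSG G hc).pi p = v) =
        (univ.filter fun w => G.Adj v w ∧ ¬ F.Adj v w).image fun w => (v, w) := by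
      ext ⟨a, b⟩
      rw [mem_filter, mem_mt]
      simp only [mem_filter, mem_univ, true_and, mem_image, Prod.mk.injEq]
      constructor
      · rintro ⟨h, e⟩
        have e' : a = v := e
        subst e'
        exact ⟨b, h, rfl, rfl⟩
      · rintro ⟨w, h, rfl, rfl⟩
        exact ⟨h, rfl⟩
    rw [h1, card_image_of_injective _ (fun a b h => (Prod.mk.injEq _ _ _ _ ▸ h).2)]
    have h2 : ((univ.filter fun w => G.Adj v w ∧ ¬ F.Adj v w : Finset V) : Set V) =
        G.neighborSet v \ F.neighborSet v := by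
      ext w
      simp
    have h3 : F.neighborSet v ⊆ G.neighborSet v := fun w hw => hF hw
    rw [← Set.ncard_coe_finset, h2, Set.ncard_sdiff h3 (Set.toFinite _), hc, hF2]

private lemma mt_sm {F : SimpleGraph V} (hF : F ≤ G) {v0 : V}
    (h5 : ∀ v : V, ¬ F.Reachable v0 v → {w | F.Reachable v w}.ncard ≤ 5) (E : Finset (V × V))
    (hE : ∀ d, d ∈ E ↔ d ∈ (ofSG G hc).ds ∧ d ∉ mt G F) :
    (ofSG G hc).Sm {v0} E := by
  have hmem : ∀ d : V × V, d ∈ E ↔ F.Adj d.1 d.2 := by
    intro d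
    rw [hE, ofSG_mem_ds, mem_mt]
    constructor
    · rintro ⟨h1, h2⟩
      by_contra h
      exact h2 ⟨h1, h⟩
    · intro h
      exact ⟨hF h, fun h2 => h2.2 h⟩
  intro Z hZ v hv
  have hcl : ∀ w : V, F.Reachable v w → w ∈ Z := by
    intro w hw
    by_contra hn
    obtain ⟨q⟩ := hw
    obtain ⟨d, -, hd1, hd2⟩ := q.exists_boundary_dart (Z : Set V) (by exact_mod_cast hv)
      (by exact_mod_cast hn)
    have h1 := hZ.clo (d.fst, d.snd) ((hmem _).2 d.adj) (by exact_mod_cast hd1)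
    exact hd2 (by exact_mod_cast h1)
  have hv0 : ¬ F.Reachable v0 v := by
    intro h
    exact hZ.dis v0 (hcl v0 h.symm) (mem_singleton_self _)
  refine ⟨univ.filter fun w => F.Reachable v w, ?_, ?_, ?_, ?_⟩
  · intro w hw
    exact hcl w (mem_filter.1 hw).2
  · refine ⟨fun w hw => hZ.sub (hcl w (mem_filter.1 hw).2),
      fun w hw => hZ.dis w (hcl w (mem_filter.1 hw).2), ?_⟩
    intro d hd hdw
    have h1 : F.Reachable v d.1 := (mem_filter.1 hdw).2
    refine mem_filter.2 ⟨mem_univ _, ?_⟩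
    exact h1.trans ((hmem d).1 hd).reachable
  · exact mem_filter.2 ⟨mem_univ _, SimpleGraph.Reachable.refl _⟩
  · refine le_trans (le_of_eq ?_) (h5 v hv0)
    rw [← Set.ncard_coe_finset]
    congr 1
    ext w
    simp

private lemma mt_three {F : SimpleGraph V} (hF : F ≤ G)
    (hF2 : ∀ v : V, (F.neighborSet v).ncard = 2)
    (hcut : ∀ X : Set V, {e : V × V | e.1 ∈ X ∧ e.2 ∉ X ∧ G.Adj e.1 e.2}.ncard = 3 →
      ∃ v ∈ X, ∃ w, w ∉ X ∧ F.Adj v w) (i : DecidablePred fun d : V × V => d ∈ mt G F) :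
    ∀ X ⊆ (ofSG G hc).vs, Odd X.card → ((ofSG G hc).bd X).card = 3 →
      (@Finset.filter _ (fun d => d ∈ mt G F) i ((ofSG G hc).bd X)).card = 1 := by
  intro X hX ho h3
  have hpm := mt_pm G hc hF hF2
  have hpar := (hpm.parity hX).2 ho
  rw [filt_inst _ i] at hpar
  have hset : {e : V × V | e.1 ∈ (X : Set V) ∧ e.2 ∉ (X : Set V) ∧ G.Adj e.1 e.2} =
      (((ofSG G hc).bd X : Finset (V × V)) : Set (V × V)) := by
    ext e
    rw [mem_coe, ofSG_mem_bd]
    simp only [Set.mem_ofPred_eq, mem_coe]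
    tauto
  obtain ⟨v, hv, w, hw, hvw⟩ := hcut X (by rw [hset, Set.ncard_coe_finset]; exact h3)
  have hlt : (@Finset.filter _ (fun d => d ∈ mt G F) i ((ofSG G hc).bd X)).card < 3 := by
    rw [← h3]
    apply card_lt_card
    refine ⟨filter_subset _ _, fun h => ?_⟩
    have h1 : (v, w) ∈ (ofSG G hc).bd X := by
      rw [ofSG_mem_bd]
      exact ⟨hF hvw, by exact_mod_cast hv, by exact_mod_cast hw⟩
    exact ((mem_mt G).1 (mem_filter.1 (h h1)).2).2 hvw
  obtain ⟨k, hk⟩ := hpar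
  omega

end

/-- **the pentagon theorem for cubic graphs**, given the main theorem -/
theorem finalP (hmain : ∀ (V D : Type) (G : CG V D) (K : Finset V) (F : Finset D),
      G.Inst K F → ∃ M, G.Good K F M) :
    ∀ (V : Type) [Fintype V] (G F : SimpleGraph V),
      (∀ v : V, (G.neighborSet v).ncard = 3) →
      (∀ v w : V, G.Adj v w → (G.deleteEdges {s(v, w)}).Reachable v w) →
      F ≤ G → (∀ v : V, (F.neighborSet v).ncard = 2) →
      (∀ X : Set V, {e : V × V | e.1 ∈ X ∧ e.2 ∉ X ∧ G.Adj e.1 e.2}.ncard = 3 →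
        ∃ v ∈ X, ∃ w, w ∉ X ∧ F.Adj v w) →
      ∀ v₀ : V, (∀ v : V, ¬ F.Reachable v₀ v → {w | F.Reachable v w}.ncard ≤ 5) →
      ∃ F₂ C : SimpleGraph V,
        F₂ ≤ G ∧ C ≤ G ∧
        (∀ v : V, (F₂.neighborSet v).ncard = 2) ∧
        (∀ v : V, Even ((C.neighborSet v).ncard)) ∧
        F ⊔ F₂ ⊔ C = G := by
  intro V _ G F hc hb hF hF2 hcut v0 h5
  have h1 := mt_pm G hc hF hF2
  obtain ⟨M2, h2, hZ⟩ := two_core (ofSG G hc) rfl (ofSG_even G hc) (ofSG_tk G hc)
    (ofSG_b0 G hc hb) (hmain V (V × V) (ofSG G hc)) h1 (mt_three G hc hF hF2 hcut _) v0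
    (mt_sm G hc hF h5 _ fun d =>
      @mem_sdiff _ (fun a b => propDecidable (a = b)) _ _ d)
  obtain ⟨C, hC, hT, hev⟩ := exists_even G hc (mt G F ∩ M2)
    (fun d hd => ((mem_mt G).1 (Finset.mem_inter.1 hd).1).1)
    (fun d hd => Finset.mem_inter.2 ⟨h1.closed d (Finset.mem_inter.1 hd).1,
      h2.closed d (Finset.mem_inter.1 hd).2⟩)
    (fun Z hZo => by
      obtain ⟨d, hd, hd'⟩ := hZ Z hZo
      exact ⟨d, hd, fun h => hd' (Finset.mem_inter.1 h)⟩)
  refine ⟨compl2 G hc M2 h2, C, compl2_le G hc M2 h2, hC, compl2_card G hc M2 h2, hev, ?_⟩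
  ext v w
  simp only [SimpleGraph.sup_adj]
  constructor
  · rintro ((h | h) | h)
    · exact hF h
    · exact h.1
    · exact hC h
  · intro h
    by_cases hm1 : F.Adj v w
    · exact Or.inl (Or.inl hm1)
    · by_cases hm2 : (v, w) ∈ M2
      · exact Or.inr (hT _ (Finset.mem_inter.2 ⟨(mem_mt G).2 ⟨h, hm1⟩, hm2⟩))
      · exact Or.inl (Or.inr ⟨h, hm2⟩)

end JP
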