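import Pool.Agent.Lib.JP.Cut
import Mathlib.Combinatorics.SimpleGraph.Tutte

/-! Existence of perfect matchings (Petersen - Plesnik, via Tutte). -/

set_option autoImplicit false

namespace JP.CG

open Finset Classical

variable {V D : Type*}

/-- the underlying simple graph -/
def h88S (G : CG V D) : SimpleGraph {v // v ∈ G.vs} where
  Adj u w := u ≠ w ∧ ∃ d ∈ G.ds, G.pi d = u ∧ G.pi (G.al d) = w
  symm := ⟨by
    rintro u w ⟨h, d, hd, h1, h2⟩
    exact ⟨h.symm, G.al d, G.al_mem d hd, h2, by rw [G.al_al d hd]; exact h1⟩⟩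
  loopless := ⟨fun u h => h.1 rfl⟩

/-- from a perfect matching of the simple graph to a perfect matching in darts -/
theorem h88_pm (G : CG V D) (M : (h88S G).Subgraph) (hM : M.IsPerfectMatching) :
    ∃ N, G.IsPM N := by
  rcases isEmpty_or_nonempty D with hD | hD
  · refine ⟨∅, empty_subset _, by simp, by simp, ?_⟩
    intro v hv
    have h := G.cubic v hv
    rw [Finset.card_eq_zero.mpr (Finset.eq_empty_of_isEmpty _)] at h
    omega
  have hex : ∀ e ∈ M.edgeSet, ∃ d ∈ G.ds,
      s(G.pi d, G.pi (G.al d)) = Sym2.map Subtype.val e := by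
    intro e
    induction e using Sym2.ind with
    | _ u w =>
      intro he
      have ha : (h88S G).Adj u w := M.adj_sub he
      obtain ⟨_, d, hd, h1, h2⟩ := ha
      exact ⟨d, hd, by rw [Sym2.map_mk]; simp [h1, h2]⟩
  choose! f hf hfs using hex
  refine ⟨G.ds.filter fun d => ∃ e ∈ M.edgeSet, d = f e ∨ d = G.al (f e), ?_, ?_, ?_, ?_⟩
  · exact filter_subset _ _
  · intro d hd
    rw [mem_filter] at hd ⊢
    obtain ⟨hd, e, he, h⟩ := hd
    refine ⟨G.al_mem d hd, e, he, ?_⟩
    rcases h with h | h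
    · exact Or.inr (by rw [h])
    · exact Or.inl (by rw [h, G.al_al _ (hf e he)])
  · intro d hd hal
    rw [mem_filter] at hd
    obtain ⟨hd, e, he, h⟩ := hd
    have h3 : s(G.pi d, G.pi (G.al d)) = Sym2.map Subtype.val e := by
      rcases h with h | h
      · rw [h]; exact hfs e he
      · rw [h, G.al_al _ (hf e he), Sym2.eq_swap]; exact hfs e he
    rw [hal] at h3
    revert he h3
    induction e using Sym2.ind with
    | _ u w =>
      intro he h3
      have ha : (h88S G).Adj u w := M.adj_sub he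
      rw [Sym2.map_mk] at h3
      have h4 : (u : V) = G.pi d ∧ (w : V) = G.pi d := by
        have := h3
        simp only [Sym2.eq_iff] at this
        rcases this with ⟨a, b⟩ | ⟨a, b⟩
        · exact ⟨a.symm, b.symm⟩
        · exact ⟨b.symm, a.symm⟩
      exact ha.1 (Subtype.ext (h4.1.trans h4.2.symm))
  · intro v hv
    obtain ⟨w, hw, huw⟩ := hM.1 (hM.2 ⟨v, hv⟩)
    have he : s((⟨v, hv⟩ : {v // v ∈ G.vs}), w) ∈ M.edgeSet := hw
    have hne : v ≠ (w : V) := by
      have ha : (h88S G).Adj ⟨v, hv⟩ w := M.adj_sub hw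
      intro h
      exact ha.1 (Subtype.ext h)
    have hd := hf _ he
    have hs := hfs _ he
    rw [Sym2.map_mk] at hs
    rw [card_eq_one]
    set e₀ : Sym2 {v // v ∈ G.vs} := s((⟨v, hv⟩ : {v // v ∈ G.vs}), w) with he0
    have key : ∃ d₀ ∈ G.ds, (d₀ = f e₀ ∨ d₀ = G.al (f e₀)) ∧ G.pi d₀ = v ∧
        ∀ d, (d = f e₀ ∨ d = G.al (f e₀)) → G.pi d = v → d = d₀ := by
      simp only [Sym2.eq_iff] at hs
      rcases hs with ⟨a, b⟩ | ⟨a, b⟩
      · refine ⟨f e₀, hd, Or.inl rfl, a, ?_⟩
        rintro d (h | h) h'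
        · exact h
        · exfalso; rw [h, b] at h'; exact hne h'.symm
      · refine ⟨G.al (f e₀), G.al_mem _ hd, Or.inr rfl, b, ?_⟩
        rintro d (h | h) h'
        · exfalso; rw [h, a] at h'; exact hne h'.symm
        · exact h
    obtain ⟨d₀, hd0, h0, hp0, hun⟩ := key
    refine ⟨d₀, ?_⟩
    ext d
    rw [mem_filter, mem_filter, mem_singleton]
    constructor
    · rintro ⟨⟨hd1, e, he1, h1⟩, hpv⟩
      have h3 : s(G.pi d, G.pi (G.al d)) = Sym2.map Subtype.val e := by
        rcases h1 with h | h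
        · rw [h]; exact hfs e he1
        · rw [h, G.al_al _ (hf e he1), Sym2.eq_swap]; exact hfs e he1
      have h4 : (⟨v, hv⟩ : {v // v ∈ G.vs}) ∈ e := by
        have : v ∈ Sym2.map (Subtype.val : {v // v ∈ G.vs} → V) e := by
          rw [← h3, hpv]; exact Sym2.mem_mk_left _ _
        rw [Sym2.mem_map] at this
        obtain ⟨a, ha, hav⟩ := this
        have : a = ⟨v, hv⟩ := Subtype.ext hav
        rw [← this]; exact ha
      have h5 : e = e₀ := by
        obtain ⟨w', hw'⟩ := h4
        subst hw'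
        have : w' = w := huw w' he1
        rw [this]
      rw [h5] at h1
      exact hun d h1 hpv
    · intro h
      rw [h]
      exact ⟨⟨hd0, e₀, he, h0⟩, hp0⟩

/-- Proof. Tutte's theorem (`SimpleGraph.tutte`) for the simple graph on `vs` in which `u ≠ v` are
adjacent iff some non-token edge joins them. If `U` is a Tutte violator: `q` odd components
`Q1, ..., Qq` of `G - U` with `q > |U|`; parity (`|vs|` even) gives `q ≥ |U| + 2`; all edges leaving
`Qi` go to `U`, `dg Qi ≥ 3`; so `3 q ≤ ∑ dg Qi = ∑ (edges to U) + (tokens in the Qi) ≤ 3 |U| + 4`,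
contradiction. -/
theorem exists_pm (G : CG V D) (he : Even G.vs.card) (h4 : (G.tk G.vs).card ≤ 4) (hb : G.B0) :
    ∃ M, G.IsPM M := by
  by_contra hno
  have hnot : ¬ ∃ M : (h88S G).Subgraph, M.IsPerfectMatching := fun ⟨M, hM⟩ =>
    hno (h88_pm G M hM)
  rw [SimpleGraph.tutte] at hnot
  push Not at hnot
  obtain ⟨u, hu⟩ := hnot
  unfold SimpleGraph.IsTutteViolator at hu
  set S : (h88S G).Subgraph := (⊤ : (h88S G).Subgraph).deleteVerts u with hS
  set H := S.coe with hH
  have hverts : ∀ w : {v // v ∈ G.vs}, w ∈ S.verts ↔ w ∉ u := by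
    intro w
    simp [hS]
  haveI : Finite S.verts := Subtype.finite
  haveI : Finite H.ConnectedComponent := Quot.finite _
  haveI : Fintype H.ConnectedComponent := Fintype.ofFinite _
  -- the set U
  set U : Finset V := G.vs.filter fun v => ∃ h : v ∈ G.vs, (⟨v, h⟩ : {v // v ∈ G.vs}) ∈ u with hU
  have hUsub : U ⊆ G.vs := filter_subset _ _
  have hUcard : U.card = u.ncard := by
    rw [← Set.ncard_coe_finset]
    have : (U : Set V) = Subtype.val '' u := by
      ext v
      simp only [hU, coe_filter, Set.mem_setOf_eq, Set.mem_image]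
      constructor
      · rintro ⟨_, h, h'⟩; exact ⟨_, h', rfl⟩
      · rintro ⟨⟨w, hw⟩, h, rfl⟩; exact ⟨hw, hw, h⟩
    rw [this, Set.ncard_image_of_injective _ Subtype.val_injective]
  -- the components
  set Q : H.ConnectedComponent → Finset V := fun c => G.vs.filter fun v =>
    ∃ (h : v ∈ G.vs) (h' : (⟨v, h⟩ : {v // v ∈ G.vs}) ∈ S.verts),
      H.connectedComponentMk ⟨⟨v, h⟩, h'⟩ = c with hQ
  have hQsub : ∀ c, Q c ⊆ G.vs := fun c => filter_subset _ _
  have hQcard : ∀ c, (Q c).card = c.supp.ncard := by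
    intro c
    rw [← Set.ncard_coe_finset]
    have : (Q c : Set V) = (fun x : S.verts => ((x : {v // v ∈ G.vs}) : V)) '' c.supp := by
      ext v
      simp only [hQ, coe_filter, Set.mem_setOf_eq, Set.mem_image,
        SimpleGraph.ConnectedComponent.mem_supp_iff]
      constructor
      · rintro ⟨_, h, h', h''⟩; exact ⟨_, h'', rfl⟩
      · rintro ⟨⟨⟨w, hw⟩, hw'⟩, h, rfl⟩; exact ⟨hw, hw, hw', h⟩
    rw [this, Set.ncard_image_of_injective]
    intro x y hxy
    exact Subtype.ext (Subtype.ext hxy)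
  have hQdis : ∀ c c', c ≠ c' → Disjoint (Q c) (Q c') := by
    intro c c' hcc
    rw [Finset.disjoint_left]
    intro v hv hv'
    simp only [hQ, mem_filter] at hv hv'
    obtain ⟨_, h, h1, h2⟩ := hv
    obtain ⟨_, h', h1', h2'⟩ := hv'
    exact hcc (h2.symm.trans h2')
  have hleave : ∀ c, ∀ d ∈ G.bd (Q c), G.pi (G.al d) ∈ U := by
    intro c d hd
    rw [G.mem_bd] at hd
    obtain ⟨hds, hp, hp'⟩ := hd
    have hpa : G.pi (G.al d) ∈ G.vs := G.pi_mem _ (G.al_mem _ hds)
    by_contra hnU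
    have hnu : (⟨G.pi (G.al d), hpa⟩ : {v // v ∈ G.vs}) ∉ u := by
      intro h
      exact hnU (by simp only [hU, mem_filter]; exact ⟨hpa, hpa, h⟩)
    have hv2 := (hverts _).mpr hnu
    simp only [hQ, mem_filter] at hp
    obtain ⟨hpv, h, h', h''⟩ := hp
    apply hp'
    simp only [hQ, mem_filter]
    refine ⟨hpa, hpa, hv2, ?_⟩
    rw [← h'']
    by_cases heq : G.pi d = G.pi (G.al d)
    · congr 1
      exact Subtype.ext (Subtype.ext heq.symm)
    · apply SimpleGraph.ConnectedComponent.sound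
      apply SimpleGraph.Adj.reachable
      have hadj : (h88S G).Adj ⟨G.pi (G.al d), hpa⟩ ⟨G.pi d, h⟩ := by
        refine ⟨fun h => heq (congrArg Subtype.val h).symm, G.al d, G.al_mem _ hds, rfl, ?_⟩
        rw [G.al_al _ hds]
      show S.Adj _ _
      exact (SimpleGraph.Subgraph.deleteVerts_adj (G' := (⊤ : (h88S G).Subgraph)) (s := u)).mpr
        ⟨Set.mem_univ _, (hverts _).mp hv2, Set.mem_univ _, (hverts _).mp h', hadj⟩
  set OC : Finset H.ConnectedComponent := univ.filter fun c => c ∈ H.oddComponents with hOC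
  have hOCcard : OC.card = H.oddComponents.ncard := by
    rw [← Set.ncard_coe_finset]
    congr 1
    ext c
    simp [hOC]
  have hodd : ∀ c ∈ OC, Odd (Q c).card := by
    intro c hc
    rw [hQcard]
    have : c ∈ H.oddComponents := (mem_filter.mp hc).2
    exact this
  have hlow : 3 * OC.card ≤ ∑ c ∈ OC, G.dg (Q c) := by
    rw [mul_comm, ← smul_eq_mul]
    apply Finset.card_nsmul_le_sum
    intro c hc
    exact hb _ (hQsub c) (hodd c hc)
  have hbdsum : ∑ c ∈ OC, (G.bd (Q c)).card ≤ 3 * U.card := by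
    have hdis : ∀ c ∈ OC, ∀ c' ∈ OC, c ≠ c' → Disjoint (G.bd (Q c)) (G.bd (Q c')) := by
      intro c _ c' _ hcc
      rw [Finset.disjoint_left]
      intro d hd hd'
      rw [G.mem_bd] at hd hd'
      exact (Finset.disjoint_left.mp (hQdis c c' hcc)) hd.2.1 hd'.2.1
    rw [← Finset.card_biUnion hdis, ← G.card_darts hUsub]
    apply Finset.card_le_card_of_injOn G.al
    · intro d hd
      rw [mem_coe, mem_biUnion] at hd
      obtain ⟨c, _, hd⟩ := hd
      rw [mem_coe, mem_filter]
      exact ⟨G.al_mem _ ((G.mem_bd.mp hd).1), hleave c d hd⟩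
    · intro d hd d' hd' h
      rw [mem_coe, mem_biUnion] at hd hd'
      obtain ⟨c, _, hd⟩ := hd
      obtain ⟨c', _, hd'⟩ := hd'
      rw [← G.al_al d ((G.mem_bd.mp hd).1), ← G.al_al d' ((G.mem_bd.mp hd').1), h]
  have htksum : ∑ c ∈ OC, (G.tk (Q c)).card ≤ 4 := by
    have hdis : ∀ c ∈ OC, ∀ c' ∈ OC, c ≠ c' → Disjoint (G.tk (Q c)) (G.tk (Q c')) := by
      intro c _ c' _ hcc
      rw [Finset.disjoint_left]
      intro d hd hd'
      rw [G.mem_tk] at hd hd'
      exact (Finset.disjoint_left.mp (hQdis c c' hcc)) hd.2.1 hd'.2.1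
    rw [← Finset.card_biUnion hdis]
    refine le_trans (Finset.card_le_card ?_) h4
    intro d hd
    rw [mem_biUnion] at hd
    obtain ⟨c, _, hd⟩ := hd
    rw [G.mem_tk] at hd ⊢
    exact ⟨hd.1, hQsub c hd.2.1, hd.2.2⟩
  have hup : ∑ c ∈ OC, G.dg (Q c) ≤ 3 * U.card + 4 := by
    have : ∑ c ∈ OC, G.dg (Q c) =
        ∑ c ∈ OC, (G.bd (Q c)).card + ∑ c ∈ OC, (G.tk (Q c)).card := by
      rw [← Finset.sum_add_distrib]; rfl
    rw [this]
    exact Nat.add_le_add hbdsum htksum
  -- parity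
  have hpar : Odd OC.card ↔ Odd (Nat.card S.verts) := by
    rw [hOCcard]
    exact H.odd_ncard_oddComponents
  have hSv : Nat.card S.verts + U.card = G.vs.card := by
    have h1 : Nat.card S.verts = (uᶜ : Set {v // v ∈ G.vs}).ncard := by
      have : S.verts = uᶜ := by ext w; rw [hverts]; rfl
      rw [this]; rfl
    rw [h1, hUcard, add_comm, Set.ncard_add_ncard_compl, Nat.card_eq_fintype_card,
      Fintype.card_coe]
  rw [← hOCcard, ← hUcard] at hu
  rw [Nat.odd_iff, Nat.odd_iff] at hpar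
  rw [Nat.even_iff] at he
  omega

end JP.CG
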