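import Pool.Agent.Lib.JP.GG
import Pool.Agent.Lib.JP.Tutte

/-! Restricting a graph to a set `X` and rejoining the boundary darts; the gluing step of the state
gamma. -/

set_option autoImplicit false

namespace JP.CG

open Finset Classical

variable {V D : Type*}

/-- the graph on `X`; the boundary darts of `X` are rejoined by the involution `j` -/
noncomputable def rj (G : CG V D) (X : Finset V) (j : D → D) (hX : X ⊆ G.vs)
    (hj : ∀ d ∈ G.bd X, j d ∈ G.bd X ∧ j (j d) = d) : CG V D where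
  vs := X
  ds := G.ds.filter fun d => G.pi d ∈ X
  pi := G.pi
  al := fun d => if d ∈ G.bd X then j d else G.al d
  pi_mem := by
    intro d hd
    exact (mem_filter.1 hd).2
  al_mem := by
    intro d hd
    rw [mem_filter] at hd
    by_cases h : d ∈ G.bd X
    · simp only [h, if_true]
      have := (hj d h).1
      rw [mem_bd] at this
      exact mem_filter.2 ⟨this.1, this.2.1⟩
    · simp only [h, if_false]
      refine mem_filter.2 ⟨G.al_mem d hd.1, ?_⟩
      by_contra h2
      exact h ((mem_bd _).2 ⟨hd.1, hd.2, h2⟩)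
  al_al := by
    intro d hd
    rw [mem_filter] at hd
    by_cases h : d ∈ G.bd X
    · simp only [h, if_true, (hj d h).1, (hj d h).2]
    · simp only [h, if_false]
      have h2 : G.al d ∉ G.bd X := by
        rw [mem_bd, G.al_al d hd.1]
        exact fun h3 => h3.2.2 hd.2
      simp only [h2, if_false, G.al_al d hd.1]
  cubic := by
    intro v hv
    rw [← G.cubic v (hX hv), filter_filter]
    congr 1
    ext d
    simp only [mem_filter]
    constructor
    · rintro ⟨h1, _, h3⟩
      exact ⟨h1, h3⟩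
    · rintro ⟨h1, h3⟩
      exact ⟨h1, by rw [h3]; exact hv, h3⟩

section rj

variable {G : CG V D} {X : Finset V} {j : D → D} {hX : X ⊆ G.vs}
  {hj : ∀ d ∈ G.bd X, j d ∈ G.bd X ∧ j (j d) = d}

lemma rj_al_in {d : D} (h : d ∈ G.bd X) : (G.rj X j hX hj).al d = j d := by
  show (if d ∈ G.bd X then j d else G.al d) = j d
  rw [if_pos h]

lemma rj_al_out {d : D} (h : d ∉ G.bd X) : (G.rj X j hX hj).al d = G.al d := by
  show (if d ∈ G.bd X then j d else G.al d) = G.al d
  rw [if_neg h]

lemma mem_rj_ds {d : D} : d ∈ (G.rj X j hX hj).ds ↔ d ∈ G.ds ∧ G.pi d ∈ X := by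
  show d ∈ G.ds.filter (fun d => G.pi d ∈ X) ↔ _
  rw [mem_filter]

/-- tokens, if `j` has no fixed boundary dart -/
lemma rj_tk (hf : ∀ d ∈ G.bd X, j d ≠ d) {Y : Finset V} (hY : Y ⊆ X) :
    (G.rj X j hX hj).tk Y = G.tk Y := by
  ext d
  rw [mem_tk, mem_tk, mem_rj_ds]
  show (d ∈ G.ds ∧ G.pi d ∈ X) ∧ G.pi d ∈ Y ∧ (G.rj X j hX hj).al d = d ↔ _
  constructor
  · rintro ⟨⟨h1, h2⟩, h3, h4⟩
    by_cases h : d ∈ G.bd X
    · rw [rj_al_in h] at h4
      exact absurd h4 (hf d h)
    · rw [rj_al_out h] at h4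
      exact ⟨h1, h3, h4⟩
  · rintro ⟨h1, h3, h4⟩
    have h : d ∉ G.bd X := by
      rw [mem_bd, h4]
      exact fun h5 => h5.2.2 h5.2.1
    exact ⟨⟨h1, hY h3⟩, h3, by rw [rj_al_out h]; exact h4⟩

/-- the boundary of a set whose boundary darts in `X` are not rejoined inside the set -/
lemma rj_bd {Y : Finset V} (hY : Y ⊆ X)
    (h0 : ∀ d ∈ G.bd X, G.pi d ∈ Y → G.pi (j d) ∉ Y) : (G.rj X j hX hj).bd Y = G.bd Y := by
  ext d
  rw [mem_bd, mem_bd, mem_rj_ds]
  show (d ∈ G.ds ∧ G.pi d ∈ X) ∧ G.pi d ∈ Y ∧ G.pi ((G.rj X j hX hj).al d) ∉ Y ↔ _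
  constructor
  · rintro ⟨⟨h1, h2⟩, h3, h4⟩
    by_cases h : d ∈ G.bd X
    · exact ⟨h1, h3, fun h5 => ((mem_bd _).1 h).2.2 (hY h5)⟩
    · rw [rj_al_out h] at h4
      exact ⟨h1, h3, h4⟩
  · rintro ⟨h1, h3, h4⟩
    refine ⟨⟨h1, hY h3⟩, h3, ?_⟩
    by_cases h : d ∈ G.bd X
    · rw [rj_al_in h]
      exact h0 d h h3
    · rw [rj_al_out h]
      exact h4

/-- sets with at least two tokens -/
lemma three_of_tk {G : CG V D} {Y : Finset V} (hY : Y ⊆ G.vs) (ho : Odd Y.card)
    (h2 : 2 ≤ (G.tk Y).card) : 3 ≤ G.dg Y := by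
  have h3 := (G.dg_parity hY).2 ho
  rw [Nat.odd_iff] at h3
  unfold dg at h3 ⊢
  omega

end rj

variable {G : CG V D} {K : Finset V} {F : Finset D}

/-- a closed subset of a bipartite union of fresh circuits is balanced -/
lemma bip_card (hc : G.Cls K F) {Y E O : Finset V} (hY : Y ⊆ G.vs) (hYK : ∀ v ∈ Y, v ∉ K)
    (hclo : ∀ d ∈ F, G.pi d ∈ Y → G.pi (G.al d) ∈ Y) (hEO : ∀ v ∈ Y, v ∈ E ∨ v ∈ O)
    (hdis : Disjoint E O)
    (hb : ∀ d ∈ F, G.pi d ∈ Y → (G.pi d ∈ E ↔ G.pi (G.al d) ∈ O)) :
    (Y ∩ E).card = (Y ∩ O).card := by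
  have cnt : ∀ S : Finset V, S ⊆ Y → (F.filter fun d => G.pi d ∈ S).card = 2 * S.card := by
    intro S hS
    have h1 : (F.filter fun d => G.pi d ∈ S).card =
        ∑ v ∈ S, ((F.filter fun d => G.pi d ∈ S).filter fun d => G.pi d = v).card := by
      apply card_eq_sum_card_fiberwise
      intro d hd
      exact (mem_filter.1 hd).2
    rw [h1, sum_congr rfl (g := fun _ => 2), sum_const, smul_eq_mul, mul_comm]
    intro v hv
    rw [← hc.F2 v (hY (hS hv)) (hYK v (hS hv))]
    congr 1
    ext d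
    simp only [mem_filter]
    constructor
    · rintro ⟨⟨a, _⟩, b⟩; exact ⟨a, b⟩
    · rintro ⟨a, b⟩; exact ⟨⟨a, b ▸ hv⟩, b⟩
  have hsw : ∀ S T : Finset V, (∀ d ∈ F, G.pi d ∈ Y → G.pi d ∈ S → G.pi (G.al d) ∈ T) →
      (F.filter fun d => G.pi d ∈ Y ∩ S).card ≤ (F.filter fun d => G.pi d ∈ Y ∩ T).card := by
    intro S T hST
    apply card_le_card_of_injOn G.al
    · intro d hd
      have hd' := mem_filter.1 (mem_coe.1 hd)
      rw [mem_inter] at hd'
      apply mem_coe.2
      rw [mem_filter, mem_inter]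
      exact ⟨hc.Fal d hd'.1, hclo d hd'.1 hd'.2.1, hST d hd'.1 hd'.2.1 hd'.2.2⟩
    · intro d hd e he hde
      have h1 := hc.Fsub (mem_filter.1 (mem_coe.1 hd)).1
      have h2 := hc.Fsub (mem_filter.1 (mem_coe.1 he)).1
      rw [← G.al_al d h1, hde, G.al_al e h2]
  have h1 := hsw E O fun d hd hy he => (hb d hd hy).1 he
  have h2 := hsw O E fun d hd hy ho => by
    have hnE : G.pi d ∉ E := fun he => disjoint_left.1 hdis he ho
    have hy' := hclo d hd hy
    rcases hEO _ hy' with h3 | h3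
    · exact h3
    · exact absurd ((hb d hd hy).2 h3) hnE
  rw [cnt _ inter_subset_left, cnt _ inter_subset_left] at h1 h2
  omega

/-- a closed subset of a bipartite union of fresh circuits is even -/
lemma even_of_bip (hc : G.Cls K F) {Y E O : Finset V} (hY : Y ⊆ G.vs) (hYK : ∀ v ∈ Y, v ∉ K)
    (hclo : ∀ d ∈ F, G.pi d ∈ Y → G.pi (G.al d) ∈ Y) (hEO : ∀ v ∈ Y, v ∈ E ∨ v ∈ O)
    (hdis : Disjoint E O)
    (hb : ∀ d ∈ F, G.pi d ∈ Y → (G.pi d ∈ E ↔ G.pi (G.al d) ∈ O)) : Even Y.card := by
  have h0 := bip_card hc hY hYK hclo hEO hdis hb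
  have h3 : Y = (Y ∩ E) ∪ (Y ∩ O) := by
    ext v
    rw [mem_union, mem_inter, mem_inter]
    constructor
    · intro hv
      rcases hEO v hv with h | h
      · exact Or.inl ⟨hv, h⟩
      · exact Or.inr ⟨hv, h⟩
    · rintro (h | h) <;> exact h.1
  have h4 : Y.card = (Y ∩ E).card + (Y ∩ O).card := by
    conv_lhs => rw [h3]
    apply card_union_of_disjoint
    rw [disjoint_left]
    intro v hv hv'
    exact disjoint_left.1 hdis (mem_inter.1 hv).2 (mem_inter.1 hv').2
  rw [h4, Nat.even_iff]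
  omega

/-- **gluing in the state gamma** (helper29, helper42): `W` is a bipartite union of fresh circuits
with exactly four boundary edges, two of which are `al u`, `al u'` (at colour `O`) and the two others are
at colour `E`. Then every perfect matching contains all four boundary edges. -/
theorem gamma_glue (hI : G.Inst K F) (ih : IH G.vs.card V D) {u u' : D} (h : G.GQ u)
    (h' : G.GQ u') (hne : G.pi u ≠ G.pi u') {W E O : Finset V} (hW : G.Adm K F W)
    (hEO : W = E ∪ O) (hdis : Disjoint E O) (hxO : G.pi (G.al u) ∈ O)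
    (hxO' : G.pi (G.al u') ∈ O) {h1 h2 : D} (hbd : G.bd W = {G.al u, G.al u', h1, h2})
    (h1E : G.pi h1 ∈ E) (h2E : G.pi h2 ∈ E) (hn : h1 ≠ h2)
    (hin : ∀ d ∈ G.ds, G.pi d ∈ W → G.pi (G.al d) ∈ W → (G.pi d ∈ E ↔ G.pi (G.al d) ∈ O)) :
    ∃ M, G.Good K F M := by
  have hc := hI.cls
  have hOW : ∀ v ∈ O, v ∈ W := fun v hv => by rw [hEO]; exact mem_union_right _ hv
  have hEW : ∀ v ∈ E, v ∈ W := fun v hv => by rw [hEO]; exact mem_union_left _ hv
  have hnEO : ∀ v ∈ E, v ∉ O := fun v a b => disjoint_left.1 hdis a b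
  have hxW := hOW _ hxO
  have hxW' := hOW _ hxO'
  have hqW : G.pi u ∉ W := fun hh => hW.dis _ hh (h.qK hc)
  have hqW' : G.pi u' ∉ W := fun hh => hW.dis _ hh (h'.qK hc)
  have hx : ¬ G.Abs K F (G.pi (G.al u)) := fun ha => ha W hW hxW
  have hx' : ¬ G.Abs K F (G.pi (G.al u')) := fun ha => ha W hW hxW'
  -- boundary darts
  have b1 : h1 ∈ G.ds ∧ G.pi h1 ∈ W ∧ G.pi (G.al h1) ∉ W := by
    have : h1 ∈ G.bd W := by rw [hbd]; simp
    exact (mem_bd _).1 this
  have b2 : h2 ∈ G.ds ∧ G.pi h2 ∈ W ∧ G.pi (G.al h2) ∉ W := by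
    have : h2 ∈ G.bd W := by rw [hbd]; simp
    exact (mem_bd _).1 this
  have hcases : ∀ d ∈ G.ds, G.pi d ∈ W → G.pi (G.al d) ∉ W →
      d = G.al u ∨ d = G.al u' ∨ d = h1 ∨ d = h2 := by
    intro d a b c
    have : d ∈ G.bd W := (mem_bd _).2 ⟨a, b, c⟩
    rw [hbd] at this
    simpa only [mem_insert, mem_singleton] using this
  -- the far ends of `h1`, `h2` are not `q`, `q'`
  have far : ∀ g : D, g ∈ G.ds → G.pi g ∈ E → G.pi (G.al g) ∉ W → ∀ w : D, G.GQ w →
      G.pi (G.al w) ∈ O → G.pi (G.al g) ≠ G.pi w := by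
    intro g hg hgE hgW w hw hwO e
    rcases hw.hq _ (G.al_mem _ hg) e with e1 | e1
    · have := congrArg G.al e1
      rw [G.al_al _ hg] at this
      rw [this] at hgE
      exact hnEO _ hgE hwO
    · rw [G.al_al _ hg] at e1
      rw [← e1] at hgW
      exact hgW (hEW _ hgE)
  have n1 := far h1 b1.1 h1E b1.2.2 u h hxO
  have n1' := far h1 b1.1 h1E b1.2.2 u' h' hxO'
  have n2 := far h2 b2.1 h2E b2.2.2 u h hxO
  have n2' := far h2 b2.1 h2E b2.2.2 u' h' hxO'
  have hal12 : G.al h1 ≠ G.al h2 := by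
    intro e
    apply hn
    rw [← G.al_al _ b1.1, e, G.al_al _ b2.1]
  -- tokens
  have htq : G.tk G.vs = G.tk {G.pi u} ∪ G.tk {G.pi u'} := by
    symm
    apply eq_of_subset_of_card_le
    · intro d hd
      rw [mem_union, mem_tk, mem_tk] at hd
      rw [mem_tk]
      rcases hd with a | a
      · exact ⟨a.1, G.pi_mem _ a.1, a.2.2⟩
      · exact ⟨a.1, G.pi_mem _ a.1, a.2.2⟩
    · rw [card_union_of_disjoint, h.tk_q, h'.tk_q]
      · exact hI.four
      · rw [disjoint_left]
        intro d a b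
        rw [mem_tk, mem_singleton] at a b
        exact hne (a.2.1.symm.trans b.2.1)
  have htok : ∀ d ∈ G.ds, G.al d = d → G.pi d = G.pi u ∨ G.pi d = G.pi u' := by
    intro d a b
    have : d ∈ G.tk G.vs := (mem_tk _).2 ⟨a, G.pi_mem _ a, b⟩
    rw [htq, mem_union, mem_tk, mem_tk, mem_singleton, mem_singleton] at this
    rcases this with c | c
    · exact Or.inl c.2.1
    · exact Or.inr c.2.1
  have two_tk : ∀ Y : Finset V, (G.pi u ∈ Y ∨ G.pi u' ∈ Y) → 2 ≤ (G.tk Y).card := by
    intro Y hY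
    rcases hY with a | a
    · rw [← h.tk_q]
      apply card_le_card
      intro d hd
      rw [mem_tk, mem_singleton] at hd
      rw [mem_tk]
      exact ⟨hd.1, hd.2.1 ▸ a, hd.2.2⟩
    · rw [← h'.tk_q]
      apply card_le_card
      intro d hd
      rw [mem_tk, mem_singleton] at hd
      rw [mem_tk]
      exact ⟨hd.1, hd.2.1 ▸ a, hd.2.2⟩
  -- sizes
  have hbF : ∀ d ∈ F, G.pi d ∈ W → (G.pi d ∈ E ↔ G.pi (G.al d) ∈ O) := fun d hd hw =>
    hin d (hc.Fsub hd) hw (hW.clo d hd hw)
  have hbal : (W ∩ E).card = (W ∩ O).card :=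
    bip_card hc hW.sub hW.dis hW.clo (fun v hv => by rw [hEO, mem_union] at hv; exact hv) hdis hbF
  have hWE : W ∩ E = E := inter_eq_right.2 fun v hv => hEW v hv
  have hWO : W ∩ O = O := inter_eq_right.2 fun v hv => hOW v hv
  rw [hWE, hWO] at hbal
  have hWc : W.card = E.card + O.card := by rw [hEO, card_union_of_disjoint hdis]
  -- the outer graph
  have hXo : G.vs \ W ⊆ G.vs := sdiff_subset
  set Xo := G.vs \ W with hXoD
  have hbo : ∀ d, d ∈ G.bd Xo ↔ d = u ∨ d = u' ∨ d = G.al h1 ∨ d = G.al h2 := by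
    intro d
    rw [G.bd_compl_eq hW.sub, hbd]
    simp only [mem_image, mem_insert, mem_singleton]
    constructor
    · rintro ⟨e, (rfl | rfl | rfl | rfl), rfl⟩
      · exact Or.inl h.alal
      · exact Or.inr (Or.inl h'.alal)
      · exact Or.inr (Or.inr (Or.inl rfl))
      · exact Or.inr (Or.inr (Or.inr rfl))
    · rintro (rfl | rfl | rfl | rfl)
      · exact ⟨G.al d, Or.inl rfl, h.alal⟩
      · exact ⟨G.al d, Or.inr (Or.inl rfl), h'.alal⟩
      · exact ⟨h1, Or.inr (Or.inr (Or.inl rfl)), rfl⟩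
      · exact ⟨h2, Or.inr (Or.inr (Or.inr rfl)), rfl⟩
  have nuu : u ≠ u' := fun e => hne (by rw [e])
  have nu1 : u ≠ G.al h1 := fun e => n1 (by rw [← e])
  have nu2 : u ≠ G.al h2 := fun e => n2 (by rw [← e])
  have nu1' : u' ≠ G.al h1 := fun e => n1' (by rw [← e])
  have nu2' : u' ≠ G.al h2 := fun e => n2' (by rw [← e])
  set jo : D → D := fun d => if d = u then G.al h1 else if d = G.al h1 then u else
    if d = u' then G.al h2 else u' with hjo
  have jo1 : jo u = G.al h1 := by simp [hjo]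
  have jo2 : jo (G.al h1) = u := by simp [hjo, nu1.symm]
  have jo3 : jo u' = G.al h2 := by simp [hjo, nuu.symm, nu1']
  have jo4 : jo (G.al h2) = u' := by simp [hjo, nu2.symm, hal12.symm, nu2'.symm]
  have hjO : ∀ d ∈ G.bd Xo, jo d ∈ G.bd Xo ∧ jo (jo d) = d := by
    intro d hd
    rcases (hbo d).1 hd with rfl | rfl | rfl | rfl
    · rw [jo1, jo2]; exact ⟨(hbo _).2 (Or.inr (Or.inr (Or.inl rfl))), rfl⟩
    · rw [jo3, jo4]; exact ⟨(hbo _).2 (Or.inr (Or.inr (Or.inr rfl))), rfl⟩
    · rw [jo2, jo1]; exact ⟨(hbo _).2 (Or.inl rfl), rfl⟩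
    · rw [jo4, jo3]; exact ⟨(hbo _).2 (Or.inr (Or.inl rfl)), rfl⟩
  have hjOf : ∀ d ∈ G.bd Xo, jo d ≠ d := by
    intro d hd
    rcases (hbo d).1 hd with rfl | rfl | rfl | rfl
    · rw [jo1]; exact nu1.symm
    · rw [jo3]; exact nu2'.symm
    · rw [jo2]; exact nu1
    · rw [jo4]; exact nu2'
  set Go := G.rj Xo jo hXo hjO with hGo
  have bdo : ∀ Y ⊆ Xo, G.pi u ∉ Y → G.pi u' ∉ Y → Go.bd Y = G.bd Y := by
    intro Y hY a b
    apply rj_bd hY
    intro d hd hdY
    rcases (hbo d).1 hd with rfl | rfl | rfl | rfl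
    · exact absurd hdY a
    · exact absurd hdY b
    · rw [jo2]; exact a
    · rw [jo4]; exact b
  have tko : ∀ Y ⊆ Xo, Go.tk Y = G.tk Y := fun Y hY => rj_tk hjOf hY
  have hFo : ∀ d ∈ F, G.pi d ∉ W → G.pi (G.al d) ∉ W := by
    intro d hd hdW hh
    have := hW.clo _ (hc.Fal _ hd) hh
    rw [G.al_al _ (hc.Fsub hd)] at this
    exact hdW this
  have hFbo : ∀ d ∈ F, d ∉ G.bd Xo := by
    intro d hd hb
    rw [mem_bd] at hb
    have h3 := (mem_sdiff.1 hb.2.1).2
    exact hb.2.2 (mem_sdiff.2 ⟨G.pi_mem _ (G.al_mem _ hb.1), hFo d hd h3⟩)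
  have clso : Go.Cls K (F.filter fun d => G.pi d ∉ W) := by
    refine ⟨?_, ?_, ?_, ?_, ?_, ?_⟩
    · intro v hv
      exact mem_sdiff.2 ⟨hc.Ksub hv, fun hh => hW.dis _ hh hv⟩
    · intro d hd
      rw [mem_filter] at hd
      exact mem_rj_ds.2 ⟨hc.Fsub hd.1, mem_sdiff.2 ⟨G.pi_mem _ (hc.Fsub hd.1), hd.2⟩⟩
    · intro d hd
      rw [mem_filter] at hd
      rw [rj_al_out (hFbo d hd.1), mem_filter]
      exact ⟨hc.Fal d hd.1, hFo d hd.1 hd.2⟩
    · intro d hd
      rw [mem_filter] at hd
      rw [rj_al_out (hFbo d hd.1)]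
      exact hc.Ftok d hd.1
    · intro v hv hvK
      have hv' := mem_sdiff.1 (show v ∈ G.vs \ W from hv)
      rw [← hc.F2 v hv'.1 hvK, filter_filter]
      congr 1
      ext d
      simp only [mem_filter]
      constructor
      · rintro ⟨a, _, b⟩; exact ⟨a, b⟩
      · rintro ⟨a, b⟩
        exact ⟨a, (show G.pi d = v from b) ▸ hv'.2, b⟩
    · intro d hd ht
      have hd' := mem_rj_ds.1 hd
      by_cases hb : d ∈ G.bd Xo
      · rw [rj_al_in hb] at ht
        exact absurd ht (hjOf d hb)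
      · rw [rj_al_out hb] at ht
        exact hc.tokK d hd'.1 ht
  have admo : ∀ Z, Go.Adm K (F.filter fun d => G.pi d ∉ W) Z ↔ G.Adm K F Z ∧ Disjoint Z W := by
    intro Z
    constructor
    · intro hZ
      have hs : ∀ v ∈ Z, v ∉ W := fun v hv => (mem_sdiff.1 (show v ∈ G.vs \ W from hZ.sub hv)).2
      refine ⟨⟨fun v hv => (mem_sdiff.1 (show v ∈ G.vs \ W from hZ.sub hv)).1, hZ.dis, ?_⟩,
        disjoint_left.2 hs⟩
      intro d hd hz
      have := hZ.clo d (mem_filter.2 ⟨hd, hs _ hz⟩) hz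
      rw [rj_al_out (hFbo d hd)] at this
      exact this
    · rintro ⟨hZ, hd⟩
      rw [disjoint_left] at hd
      refine ⟨fun v hv => mem_sdiff.2 ⟨hZ.sub hv, hd hv⟩, hZ.dis, ?_⟩
      intro e he hz
      rw [mem_filter] at he
      rw [rj_al_out (hFbo e he.1)]
      exact hZ.clo e he.1 hz
  have nK : ∀ Z, G.Adm K F Z → G.pi u ∉ Z ∧ G.pi u' ∉ Z := fun Z hZ =>
    ⟨fun hh => hZ.dis _ hh (h.qK hc), fun hh => hZ.dis _ hh (h'.qK hc)⟩
  have hcard : Xo.card + W.card = G.vs.card := card_sdiff_add_card_eq_card hW.sub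
  have hWpos : 0 < W.card := card_pos.2 ⟨_, hxW⟩
  have hIo : Go.Inst K (F.filter fun d => G.pi d ∉ W) := by
    refine ⟨?_, ?_, ?_, clso, ?_, hI.sm.of_adm (fun Z hZ => ((admo Z).1 hZ).1)
      (fun Z hZ Z' hs hZ' => (admo Z').2 ⟨hZ', disjoint_of_subset_left hs ((admo Z).1 hZ).2⟩)⟩
    · show Even Xo.card
      have := hI.even
      rw [← hcard, Nat.even_iff] at this
      rw [Nat.even_iff]
      omega
    · show (Go.tk Xo).card ≤ 4
      rw [tko Xo (subset_refl _)]
      refine le_trans (card_le_card ?_) hI.four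
      intro d hd
      rw [mem_tk] at hd ⊢
      exact ⟨hd.1, hXo hd.2.1, hd.2.2⟩
    · intro Y hY ho
      have hY' : Y ⊆ Xo := hY
      by_cases hq : G.pi u ∈ Y ∨ G.pi u' ∈ Y
      · refine three_of_tk hY ho ?_
        rw [tko Y hY']
        exact two_tk Y hq
      · rw [not_or] at hq
        have := hI.b0 Y (hY'.trans hXo) ho
        unfold dg at this ⊢
        rw [bdo Y hY' hq.1 hq.2, tko Y hY']
        exact this
    · intro Z hZ ho
      have hZs : Z ⊆ Xo := hZ.sub
      rw [admo] at hZ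
      rw [bdo Z hZs (nK Z hZ.1).1 (nK Z hZ.1).2]
      exact hI.cc Z hZ.1 ho
  obtain ⟨M2, hM2⟩ := ih Go _ _ (by show Xo.card < G.vs.card; omega) hIo
  -- `q`, `q'` are matched by `u`, `u'`
  have hqo : ∀ w : D, G.GQ w → G.pi w ∉ W → w ∈ M2 := by
    intro w hw hwW
    have hv : G.pi w ∈ Go.vs := mem_sdiff.2 ⟨G.pi_mem _ hw.mu, hwW⟩
    have h3 := hM2.pm.one _ hv
    rw [card_eq_one] at h3
    obtain ⟨d, hd⟩ := h3
    have h4 : d ∈ M2.filter fun d => Go.pi d = G.pi w := by rw [hd]; exact mem_singleton_self _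
    rw [mem_filter] at h4
    have h5 := mem_rj_ds.1 (hM2.pm.sub h4.1)
    rcases hw.hq d h5.1 h4.2 with rfl | e
    · exact h4.1
    · exfalso
      apply hM2.pm.notok d h4.1
      have hb : d ∉ G.bd Xo := by
        rw [mem_bd, e]
        exact fun h6 => h6.2.2 h6.2.1
      rw [rj_al_out hb]
      exact e
  have mu2 : u ∈ M2 := hqo u h hqW
  have mu2' : u' ∈ M2 := hqo u' h' hqW'
  have mh1 : G.al h1 ∈ M2 := by
    have := hM2.pm.closed _ mu2
    rw [rj_al_in ((hbo _).2 (Or.inl rfl)), jo1] at this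
    exact this
  have mh2 : G.al h2 ∈ M2 := by
    have := hM2.pm.closed _ mu2'
    rw [rj_al_in ((hbo _).2 (Or.inr (Or.inl rfl))), jo3] at this
    exact this
  -- the inner graph
  set Xi := W ∪ {G.pi u, G.pi u'} with hXiD
  have hXi : Xi ⊆ G.vs := by
    intro v hv
    rw [hXiD, mem_union, mem_insert, mem_singleton] at hv
    rcases hv with a | rfl | rfl
    · exact hW.sub a
    · exact G.pi_mem _ h.mu
    · exact G.pi_mem _ h'.mu
  have mXi : ∀ v, v ∈ Xi ↔ v ∈ W ∨ v = G.pi u ∨ v = G.pi u' := by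
    intro v
    rw [hXiD, mem_union, mem_insert, mem_singleton]
  have hqi : ∀ w : D, G.GQ w → G.pi (G.al w) ∈ W → ∀ d ∈ G.ds, G.pi d = G.pi w →
      G.pi d ∈ Xi → G.pi (G.al d) ∈ Xi := by
    intro w hw hwW d hd e hdX
    rcases hw.hq d hd e with rfl | e1
    · exact (mXi _).2 (Or.inl hwW)
    · rw [e1]; exact hdX
  have hbi : ∀ d, d ∈ G.bd Xi ↔ d = h1 ∨ d = h2 := by
    intro d
    rw [mem_bd]
    constructor
    · rintro ⟨a, b, c⟩
      rcases (mXi _).1 b with b' | b' | b'
      · have hnW : G.pi (G.al d) ∉ W := fun hh => c ((mXi _).2 (Or.inl hh))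
        rcases hcases d a b' hnW with rfl | rfl | rfl | rfl
        · exfalso; apply c; rw [h.alal]; exact (mXi _).2 (Or.inr (Or.inl rfl))
        · exfalso; apply c; rw [h'.alal]; exact (mXi _).2 (Or.inr (Or.inr rfl))
        · exact Or.inl rfl
        · exact Or.inr rfl
      · exact absurd (hqi u h hxW d a b' b) c
      · exact absurd (hqi u' h' hxW' d a b' b) c
    · rintro (rfl | rfl)
      · refine ⟨b1.1, (mXi _).2 (Or.inl b1.2.1), fun hh => ?_⟩
        rcases (mXi _).1 hh with e | e | e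
        · exact b1.2.2 e
        · exact n1 e
        · exact n1' e
      · refine ⟨b2.1, (mXi _).2 (Or.inl b2.2.1), fun hh => ?_⟩
        rcases (mXi _).1 hh with e | e | e
        · exact b2.2.2 e
        · exact n2 e
        · exact n2' e
  set ji : D → D := fun d => if d = h1 then h2 else h1 with hji
  have ji1 : ji h1 = h2 := by simp [hji]
  have ji2 : ji h2 = h1 := by simp [hji, hn.symm]
  have hjI : ∀ d ∈ G.bd Xi, ji d ∈ G.bd Xi ∧ ji (ji d) = d := by
    intro d hd
    rcases (hbi d).1 hd with rfl | rfl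
    · rw [ji1, ji2]; exact ⟨(hbi _).2 (Or.inr rfl), rfl⟩
    · rw [ji2, ji1]; exact ⟨(hbi _).2 (Or.inl rfl), rfl⟩
  have hjIf : ∀ d ∈ G.bd Xi, ji d ≠ d := by
    intro d hd
    rcases (hbi d).1 hd with rfl | rfl
    · rw [ji1]; exact hn.symm
    · rw [ji2]; exact hn
  set Gi := G.rj Xi ji hXi hjI with hGi
  have tki : ∀ Y ⊆ Xi, Gi.tk Y = G.tk Y := fun Y hY => rj_tk hjIf hY
  have hQdisj : Disjoint W ({G.pi u, G.pi u'} : Finset V) := by
    rw [disjoint_left]
    intro v hv hh
    rw [mem_insert, mem_singleton] at hh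
    rcases hh with rfl | rfl
    · exact hqW hv
    · exact hqW' hv
  have hXic : Xi.card = W.card + 2 := by
    rw [hXiD, card_union_of_disjoint hQdisj, card_pair hne]
  have b0i : Gi.B0 := by
    intro Y hY ho
    have hY' : Y ⊆ Xi := hY
    by_cases hq : G.pi u ∈ Y ∨ G.pi u' ∈ Y
    · refine three_of_tk hY ho ?_
      rw [tki Y hY']
      exact two_tk Y hq
    · rw [not_or] at hq
      by_cases hb : G.pi h1 ∈ Y ∧ G.pi h2 ∈ Y
      · -- add the outside
        set B := G.vs \ Xi with hB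
        have hBd : Disjoint Y B := by
          rw [disjoint_left]
          intro v hv hh
          exact (mem_sdiff.1 hh).2 (hY' hv)
        have hBc : B.card + Xi.card = G.vs.card := card_sdiff_add_card_eq_card hXi
        have ho2 : Odd (Y ∪ B).card := by
          rw [card_union_of_disjoint hBd]
          have he := hI.even
          rw [Nat.even_iff] at he
          rw [Nat.odd_iff] at ho ⊢
          omega
        have h3 := hI.b0 (Y ∪ B) (union_subset (hY'.trans hXi) sdiff_subset) ho2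
        have e1 : G.bd (Y ∪ B) ⊆ Gi.bd Y := by
          intro d hd
          rw [mem_bd, mem_union, mem_union, not_or] at hd
          obtain ⟨a, b, c, c'⟩ := hd
          have hv := G.pi_mem _ (G.al_mem _ a)
          have hcX : G.pi (G.al d) ∈ Xi := by
            by_contra hh
            exact c' (mem_sdiff.2 ⟨hv, hh⟩)
          have hdY : G.pi d ∈ Y := by
            rcases b with b | b
            · exact b
            · exfalso
              have hnX := (mem_sdiff.1 b).2
              have : G.al d ∈ G.bd Xi := (mem_bd _).2 ⟨G.al_mem _ a, hcX, by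
                rw [G.al_al _ a]; exact hnX⟩
              rcases (hbi _).1 this with e | e
              · rw [e] at c; exact c hb.1
              · rw [e] at c; exact c hb.2
          have hnb : d ∉ G.bd Xi := by
            rw [mem_bd]; exact fun hh => hh.2.2 hcX
          rw [mem_bd, mem_rj_ds]
          refine ⟨⟨a, hY' hdY⟩, hdY, ?_⟩
          rw [rj_al_out hnb]
          exact c
        have e2 : G.tk (Y ∪ B) ⊆ Gi.tk Y := by
          intro d hd
          rw [mem_tk, mem_union] at hd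
          rw [tki Y hY', mem_tk]
          refine ⟨hd.1, ?_, hd.2.2⟩
          rcases hd.2.1 with b | b
          · exact b
          · exfalso
            apply (mem_sdiff.1 b).2
            rcases htok d hd.1 hd.2.2 with e | e
            · exact (mXi _).2 (Or.inr (Or.inl e))
            · exact (mXi _).2 (Or.inr (Or.inr e))
        have c1 := card_le_card e1
        have c2 := card_le_card e2
        unfold dg at h3 ⊢
        omega
      · have h3 := hI.b0 Y (hY'.trans hXi) ho
        have e1 : Gi.bd Y = G.bd Y := by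
          apply rj_bd hY'
          intro d hd hdY hjY
          rcases (hbi d).1 hd with rfl | rfl
          · rw [ji1] at hjY; exact hb ⟨hdY, hjY⟩
          · rw [ji2] at hjY; exact hb ⟨hjY, hdY⟩
        unfold dg at h3 ⊢
        rw [e1, tki Y hY']
        exact h3
  obtain ⟨M3, hM3⟩ := exists_pm Gi (by
      show Even Xi.card
      rw [hXic, Nat.even_iff]; omega) (by
      show (Gi.tk Xi).card ≤ 4
      rw [tki Xi (subset_refl _)]
      refine le_trans (card_le_card ?_) hI.four
      intro d hd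
      rw [mem_tk] at hd ⊢
      exact ⟨hd.1, hXi hd.2.1, hd.2.2⟩) b0i
  have hqi3 : ∀ w : D, G.GQ w → G.pi w ∈ Xi → G.pi (G.al w) ∈ Xi → w ∈ M3 ∧ G.al w ∈ M3 := by
    intro w hw hwX hwX'
    have h3 := hM3.one _ (show G.pi w ∈ Gi.vs from hwX)
    rw [card_eq_one] at h3
    obtain ⟨d, hd⟩ := h3
    have h4 : d ∈ M3.filter fun d => Gi.pi d = G.pi w := by rw [hd]; exact mem_singleton_self _
    rw [mem_filter] at h4
    have h5 := mem_rj_ds.1 (hM3.sub h4.1)
    have hwb : w ∉ G.bd Xi := by rw [mem_bd]; exact fun hh => hh.2.2 hwX'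
    have hw3 : w ∈ M3 := by
      rcases hw.hq d h5.1 h4.2 with rfl | e
      · exact h4.1
      · exfalso
        apply hM3.notok d h4.1
        have hb : d ∉ G.bd Xi := by
          rw [mem_bd, e]
          exact fun h6 => h6.2.2 h6.2.1
        rw [rj_al_out hb]
        exact e
    refine ⟨hw3, ?_⟩
    have := hM3.closed _ hw3
    rw [rj_al_out hwb] at this
    exact this
  obtain ⟨mu3, mau3⟩ := hqi3 u h ((mXi _).2 (Or.inr (Or.inl rfl))) ((mXi _).2 (Or.inl hxW))
  obtain ⟨mu3', mau3'⟩ := hqi3 u' h' ((mXi _).2 (Or.inr (Or.inr rfl))) ((mXi _).2 (Or.inl hxW'))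
  have nalu : G.al u ≠ G.al u' := by
    intro e
    apply nuu
    rw [← h.alal, e, h'.alal]
  -- the counting: the joined edge is in every perfect matching
  have mh13 : h1 ∈ M3 := by
    by_contra hno
    have hno2 : h2 ∉ M3 := by
      intro hh
      have := hM3.closed _ hh
      rw [rj_al_in ((hbi _).2 (Or.inr rfl)), ji2] at this
      exact hno this
    have cE := hM3.card_in (X := E) (fun v hv => (mXi v).2 (Or.inl (hEW v hv)))
    have cO := hM3.card_in (X := O) (fun v hv => (mXi v).2 (Or.inl (hOW v hv)))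
    have hinj : (M3.filter fun d => Gi.pi d ∈ E).card ≤
        (((M3.filter fun d => Gi.pi d ∈ O).erase (G.al u)).erase (G.al u')).card := by
      apply card_le_card_of_injOn Gi.al
      · intro d hd
        have hd' := mem_filter.1 (mem_coe.1 hd)
        have hds := (mem_rj_ds.1 (hM3.sub hd'.1)).1
        have hdE : G.pi d ∈ E := hd'.2
        have hnb : d ∉ G.bd Xi := by
          intro hh
          rcases (hbi d).1 hh with rfl | rfl
          · exact hno hd'.1
          · exact hno2 hd'.1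
        have hW2 : G.pi (G.al d) ∈ W := by
          by_contra hh
          rcases hcases d hds (hEW _ hdE) hh with rfl | rfl | rfl | rfl
          · exact hnEO _ hdE hxO
          · exact hnEO _ hdE hxO'
          · exact hno hd'.1
          · exact hno2 hd'.1
        have hO2 := (hin d hds (hEW _ hdE) hW2).1 hdE
        apply mem_coe.2
        rw [rj_al_out hnb, mem_erase, mem_erase, mem_filter]
        refine ⟨?_, ?_, ?_, hO2⟩
        · intro e
          have := congrArg G.al e
          rw [G.al_al _ hds, h'.alal] at this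
          rw [this] at hdE
          exact hqW' (hEW _ hdE)
        · intro e
          have := congrArg G.al e
          rw [G.al_al _ hds, h.alal] at this
          rw [this] at hdE
          exact hqW (hEW _ hdE)
        · have := hM3.closed _ hd'.1
          rw [rj_al_out hnb] at this
          exact this
      · intro d hd e he hde
        have h5 := hM3.sub (mem_filter.1 (mem_coe.1 hd)).1
        have h6 := hM3.sub (mem_filter.1 (mem_coe.1 he)).1
        rw [← Gi.al_al d h5, hde, Gi.al_al e h6]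
    have m1 : G.al u ∈ M3.filter fun d => Gi.pi d ∈ O := mem_filter.2 ⟨mau3, hxO⟩
    have m2 : G.al u' ∈ (M3.filter fun d => Gi.pi d ∈ O).erase (G.al u) :=
      mem_erase.2 ⟨nalu.symm, mem_filter.2 ⟨mau3', hxO'⟩⟩
    have c1 := card_erase_of_mem m1
    have c2 := card_erase_of_mem m2
    have p1 := card_pos.2 ⟨_, m1⟩
    have p2 := card_pos.2 ⟨_, m2⟩
    omega
  have mh23 : h2 ∈ M3 := by
    have := hM3.closed _ mh13
    rw [rj_al_in ((hbi _).2 (Or.inl rfl)), ji1] at this
    exact this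
  -- the union
  have pm : G.IsPM (M2 ∪ M3) := by
    refine ⟨?_, ?_, ?_, ?_⟩
    · intro d hd
      rcases mem_union.1 hd with a | a
      · exact (mem_rj_ds.1 (hM2.pm.sub a)).1
      · exact (mem_rj_ds.1 (hM3.sub a)).1
    · intro d hd
      rw [mem_union]
      rcases mem_union.1 hd with a | a
      · by_cases hb : d ∈ G.bd Xo
        · right
          rcases (hbo d).1 hb with rfl | rfl | rfl | rfl
          · exact mau3
          · exact mau3'
          · rw [G.al_al _ b1.1]; exact mh13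
          · rw [G.al_al _ b2.1]; exact mh23
        · left
          have := hM2.pm.closed _ a
          rw [rj_al_out hb] at this
          exact this
      · by_cases hb : d ∈ G.bd Xi
        · left
          rcases (hbi d).1 hb with rfl | rfl
          · exact mh1
          · exact mh2
        · right
          have := hM3.closed _ a
          rw [rj_al_out hb] at this
          exact this
    · intro d hd ht
      have hnb : ∀ X : Finset V, d ∉ G.bd X := fun X hh => by
        rw [mem_bd, ht] at hh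
        exact hh.2.2 hh.2.1
      rcases mem_union.1 hd with a | a
      · apply hM2.pm.notok d a
        rw [rj_al_out (hnb _)]
        exact ht
      · apply hM3.notok d a
        rw [rj_al_out (hnb _)]
        exact ht
    · intro v hv
      by_cases hvW : v ∈ W
      · have e0 : ((M2 ∪ M3).filter fun d => G.pi d = v) = M3.filter fun d => Gi.pi d = v := by
          ext d
          rw [mem_filter, mem_filter, mem_union]
          constructor
          · rintro ⟨a | a, b⟩
            · exfalso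
              have := (mem_rj_ds.1 (hM2.pm.sub a)).2
              rw [b] at this
              exact (mem_sdiff.1 this).2 hvW
            · exact ⟨a, b⟩
          · rintro ⟨a, b⟩
            exact ⟨Or.inr a, b⟩
        rw [e0]
        exact hM3.one v ((mXi v).2 (Or.inl hvW))
      · have e0 : ((M2 ∪ M3).filter fun d => G.pi d = v) = M2.filter fun d => Go.pi d = v := by
          ext d
          rw [mem_filter, mem_filter, mem_union]
          constructor
          · rintro ⟨a | a, b⟩
            · exact ⟨a, b⟩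
            · have h5 := (mem_rj_ds.1 (hM3.sub a)).2
              have h6 : Gi.pi d = v := b
              rw [b] at h5
              have h7 : v = G.pi u ∨ v = G.pi u' := by
                rcases (mXi v).1 h5 with c | c
                · exact absurd c hvW
                · exact c
              rcases h7 with c | c
              · have : d = u := hM3.unique a mu3 (h6.trans c)
                rw [this]; exact ⟨mu2, c.symm⟩
              · have : d = u' := hM3.unique a mu3' (h6.trans c)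
                rw [this]; exact ⟨mu2', c.symm⟩
          · rintro ⟨a, b⟩
            exact ⟨Or.inl a, b⟩
        rw [e0]
        exact hM2.pm.one v (mem_sdiff.2 ⟨hv, hvW⟩)
  refine ⟨M2 ∪ M3, pm, ?_⟩
  intro Z hZ ho
  by_contra hcon
  push Not at hcon
  have hZ1 : G.Adm K F (Z \ W) := by
    refine ⟨fun v hv => hZ.sub (mem_sdiff.1 hv).1, fun v hv => hZ.dis v (mem_sdiff.1 hv).1, ?_⟩
    intro d hd hz
    rw [mem_sdiff] at hz ⊢
    exact ⟨hZ.clo d hd hz.1, hFo d hd hz.2⟩
  have hZi : Even (Z ∩ W).card := by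
    refine even_of_bip (E := E) (O := O) hc (fun v hv => hZ.sub (mem_inter.1 hv).1)
      (fun v hv => hZ.dis v (mem_inter.1 hv).1) ?_ ?_ hdis ?_
    · intro d hd hz
      rw [mem_inter] at hz ⊢
      exact ⟨hZ.clo d hd hz.1, hW.clo d hd hz.2⟩
    · intro v hv
      have := (mem_inter.1 hv).2
      rw [hEO, mem_union] at this
      exact this
    · intro d hd hz
      exact hbF d hd (mem_inter.1 hz).2
  have ho1 : Odd (Z \ W).card := by
    have := card_sdiff_add_card_inter Z W
    rw [Nat.odd_iff] at ho ⊢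
    rw [Nat.even_iff] at hZi
    omega
  have hdj : Disjoint (Z \ W) W := sdiff_disjoint
  obtain ⟨d, hd, hdM⟩ := hM2.hit _ ((admo _).2 ⟨hZ1, hdj⟩) ho1
  rw [bdo _ (fun v hv => mem_sdiff.2 ⟨hZ.sub (mem_sdiff.1 hv).1, (mem_sdiff.1 hv).2⟩)
    (nK _ hZ1).1 (nK _ hZ1).2, mem_bd] at hd
  obtain ⟨d1, d2, d3⟩ := hd
  have hdZ := mem_sdiff.1 d2
  have hd3 : d ∉ M3 := by
    intro hh
    have h5 := (mem_rj_ds.1 (hM3.sub hh)).2
    rcases (mXi _).1 h5 with c | c | c
    · exact hdZ.2 c
    · exact (nK _ hZ1).1 (c ▸ d2)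
    · exact (nK _ hZ1).2 (c ▸ d2)
  by_cases hz2 : G.pi (G.al d) ∈ Z
  · have hw2 : G.pi (G.al d) ∈ W := by
      by_contra hh
      exact d3 (mem_sdiff.2 ⟨hz2, hh⟩)
    have := hcases _ (G.al_mem _ d1) hw2 (by rw [G.al_al _ d1]; exact hdZ.2)
    rcases this with e | e | e | e
    · have := congrArg G.al e
      rw [G.al_al _ d1, h.alal] at this
      rw [this] at d2
      exact (nK _ hZ1).1 d2
    · have := congrArg G.al e
      rw [G.al_al _ d1, h'.alal] at this
      rw [this] at d2
      exact (nK _ hZ1).2 d2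
    · have := congrArg G.al e
      rw [G.al_al _ d1] at this
      rw [this] at hdM
      exact hdM mh1
    · have := congrArg G.al e
      rw [G.al_al _ d1] at this
      rw [this] at hdM
      exact hdM mh2
  · have := hcon d ((mem_bd _).2 ⟨d1, hdZ.1, hz2⟩)
    rcases mem_union.1 this with a | a
    · exact hdM a
    · exact hd3 a

end JP.CG
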