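import Pool.Agent.Lib.JP.PWt

/-! The start gadget of the pentagon world (S5, MP_c95763_co): a fresh pentagon `c1,p1,p2,p3,p4` and
the token vertex `t`, joined by the edge `c = t c1` with `z c = 2`. -/

set_option autoImplicit false

namespace JP.CG

open Finset Classical

variable {V D : Type*} {G : CG V D}

section gadget

variable {F : Finset D} {C : Finset V} {r : ZMod 5 → D}

private lemma z5_cases : ∀ k : ZMod 5, k = 0 ∨ k = 1 ∨ k = 2 ∨ k = 3 ∨ k = 4 := by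
  decide

private lemma nif {a b : Prop} (h : ¬ (a ↔ b)) : a ↔ ¬ b := by
  tauto

private lemma nif' {a b : Prop} (h : ¬ (a ↔ b)) : ¬ a ↔ b := by
  tauto

/-- the edge `c` is not cut -/
private lemma cun {z : D → ℕ} {t : V → ℕ} (hs : ∀ d ∈ G.ds, z (G.al d) = z d) {c : D}
    (hc : c ∈ G.ds) (hzc : z c = 2) {W : Finset V} (hv : G.zc z t W ≤ 1) :
    G.pi c ∈ W ↔ G.pi (G.al c) ∈ W := by
  by_contra hne
  by_cases h2 : G.pi c ∈ W
  · have h3 := zc_bd_le hv (G.mem_bd.2 ⟨hc, h2, (nif hne).1 h2⟩)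
    omega
  · have h4 : G.pi (G.al c) ∈ W := (nif' hne).1 h2
    have h3 := zc_bd_le hv (G.mem_bd.2 ⟨G.al_mem _ hc, h4, by rw [G.al_al _ hc]; exact h2⟩)
    rw [hs _ hc] at h3
    omega

private lemma rcd (h : Cy G F C 5 r) (hF : F ⊆ G.ds) {z : D → ℕ} {t : V → ℕ}
    (hs : ∀ d ∈ G.ds, z (G.al d) = z d) {W : Finset V} (hv : G.zc z t W ≤ 1) {k l : ZMod 5}
    (hkl : k + 1 = l) (h2 : 2 ≤ z (r k)) : G.pi (r k) ∈ W ↔ G.pi (r l) ∈ W := by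
  subst hkl
  by_contra hne
  have h3 := zc_bd_le hv (h.cd_mem hF hne)
  rw [Cy.z_cd hF h hs] at h3
  omega

private lemma rcc (h : Cy G F C 5 r) (hF : F ⊆ G.ds) {z : D → ℕ} {t : V → ℕ}
    (hs : ∀ d ∈ G.ds, z (G.al d) = z d) {W : Finset V} (hv : G.zc z t W ≤ 1) {k k' l l' : ZMod 5}
    (hk : k + 1 = k') (hl : l + 1 = l') (hkl : k ≠ l) (h1 : z (r k) = 1) (h2 : z (r l) = 1)
    (hne : ¬ (G.pi (r k) ∈ W ↔ G.pi (r k') ∈ W)) : G.pi (r l) ∈ W ↔ G.pi (r l') ∈ W := by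
  subst hk
  subst hl
  by_contra hne2
  have h3 := zc_bd_two hv (h.cd_mem hF hne) (h.cd_mem hF hne2) (h.cd_ne hF hkl)
  rw [Cy.z_cd hF h hs, Cy.z_cd hF h hs] at h3
  omega

private lemma gfin (h : Cy G F C 5 r) {c : D} {W' : Finset V}
    (e1 : G.pi (r 1) ∈ W' ↔ G.pi (r 2) ∈ W') (e2 : G.pi (r 2) ∈ W' ↔ G.pi (r 3) ∈ W')
    (e3 : G.pi (r 3) ∈ W' ↔ G.pi (r 4) ∈ W') (e4 : G.pi (r 4) ∈ W' ↔ G.pi (r 0) ∈ W')
    (e5 : G.pi (r 0) ∈ W' ↔ G.pi c ∈ W') :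
    (C ⊆ W' ∧ G.pi c ∈ W') ∨ (Disjoint C W' ∧ G.pi c ∉ W') := by
  have hall : ∀ k : ZMod 5, G.pi (r k) ∈ W' ↔ G.pi c ∈ W' := by
    have f4 := e4.trans e5
    have f3 := e3.trans f4
    have f2 := e2.trans f3
    have f1 := e1.trans f2
    intro k
    rcases z5_cases k with rfl | rfl | rfl | rfl | rfl
    · exact e5
    · exact f1
    · exact f2
    · exact f3
    · exact f4
  by_cases q : G.pi c ∈ W'
  · left
    refine ⟨fun v hvC => ?_, q⟩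
    obtain ⟨k, rfl⟩ := h.sur v hvC
    exact (hall k).2 q
  · right
    refine ⟨?_, q⟩
    rw [disjoint_left]
    intro v hvC hvW
    obtain ⟨k, rfl⟩ := h.sur v hvC
    exact q ((hall k).1 hvW)

/-- toggling `c1, t` -/
private lemma tog_c (h : Cy G F C 5 r) (hF : F ⊆ G.ds) {z : D → ℕ} {t : V → ℕ} (hw : G.ZW z t)
    {c : D} (hc : c ∈ G.ds) (hcC : G.pi c ∉ C) (hc0 : G.pi (G.al c) = G.pi (r 0))
    (hzc : z c = 2) (z4 : z (r 4) = 1) {W : Finset V} (hW : W ⊆ G.vs) (hv : G.zc z t W ≤ 1)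
    (c40 : ¬ (G.pi (r 4) ∈ W ↔ G.pi (r 0) ∈ W)) :
    ∃ W' ⊆ G.vs, G.zc z t W' ≤ 1 ∧ (Odd W.card → Odd W'.card) ∧
      (G.pi (r 0) ∈ W' ↔ G.pi (r 0) ∉ W) ∧ (G.pi c ∈ W' ↔ G.pi c ∉ W) ∧
      (∀ k : ZMod 5, k ≠ 0 → (G.pi (r k) ∈ W' ↔ G.pi (r k) ∈ W)) ∧
      ∀ v, v ∉ C → v ≠ G.pi c → (v ∈ W' ↔ v ∈ W) := by
  have a40 : (4 : ZMod 5) + 1 = 0 := by decide
  have ht : G.pi c ∈ W ↔ G.pi (r 0) ∈ W := by
    rw [← hc0]
    exact cun hw.sym hc hzc hv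
  have hcne : ∀ k : ZMod 5, G.pi (r k) ≠ G.pi c := fun k e => hcC (e ▸ h.memC k)
  have hce : G.pi (G.al c) ≠ G.pi c := by
    rw [hc0]
    exact hcne 0
  obtain ⟨W', hW', hv', ho', hm⟩ := hw.toggle hc hce (by omega) (d := G.al (r 4))
    (G.al_mem _ (h.ds hF _)) (Or.inr (by rw [h.nxt, a40, hc0]))
    (by rw [hw.sym _ (h.ds hF _)]; omega)
    (by
      rw [G.al_al _ (h.ds hF _), h.nxt, a40]
      exact nif fun e => c40 e.symm)
    (by rw [hc0]; exact ht) hW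
  refine ⟨W', hW', hv'.trans hv, ho', ?_, ?_, ?_, ?_⟩
  · rw [hm, if_pos (Or.inr hc0.symm)]
  · rw [hm, if_pos (Or.inl rfl)]
  · intro k hk
    rw [hm, if_neg]
    rintro (q | q)
    · exact hcne k q
    · rw [hc0] at q
      exact hk (h.inj _ _ q)
  · intro v q1 q2
    rw [hm, if_neg]
    rintro (q | q)
    · exact q2 q
    · rw [hc0] at q
      exact q1 (q ▸ h.memC 0)

/-- **gadget, exit 2**: weights `0,2,1,1,1` on the circuit `c1,p1,p2,p3,p4` and `2` on the edge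
`c = t c1`. A set of value at most `1` can be cleaned or cuts the gadget in `p1,p2,p3 | p4,c1,t`. -/
theorem Cy.gad2 (h : Cy G F C 5 r) (hF : F ⊆ G.ds) {z : D → ℕ} {t : V → ℕ} (hw : G.ZW z t)
    {c : D} (hc : c ∈ G.ds) (hcC : G.pi c ∉ C) (hc0 : G.pi (G.al c) = G.pi (r 0))
    (hzc : z c = 2) (z1 : z (r 1) = 2) (z2 : z (r 2) = 1) (z3 : z (r 3) = 1)
    (z4 : z (r 4) = 1) {W : Finset V} (hW : W ⊆ G.vs) (hv : G.zc z t W ≤ 1) :
    (∃ W' ⊆ G.vs, G.zc z t W' ≤ 1 ∧ (Odd W.card → Odd W'.card) ∧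
      ((C ⊆ W' ∧ G.pi c ∈ W') ∨ (Disjoint C W' ∧ G.pi c ∉ W')) ∧
      ∀ v, v ∉ C → v ≠ G.pi c → (v ∈ W' ↔ v ∈ W)) ∨
    ((G.pi (r 1) ∈ W ↔ G.pi (r 2) ∈ W) ∧ (G.pi (r 2) ∈ W ↔ G.pi (r 3) ∈ W) ∧
      (G.pi (r 3) ∈ W ↔ G.pi (r 4) ∉ W) ∧ (G.pi (r 4) ∈ W ↔ G.pi (r 0) ∈ W) ∧
      (G.pi (r 0) ∈ W ↔ G.pi c ∈ W)) := by
  have a12 : (1 : ZMod 5) + 1 = 2 := by decide
  have a23 : (2 : ZMod 5) + 1 = 3 := by decide
  have a34 : (3 : ZMod 5) + 1 = 4 := by decide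
  have a40 : (4 : ZMod 5) + 1 = 0 := by decide
  have h1 : G.pi (r 1) ∈ W ↔ G.pi (r 2) ∈ W := rcd h hF hw.sym hv a12 (by omega)
  have ht : G.pi c ∈ W ↔ G.pi (r 0) ∈ W := by
    rw [← hc0]
    exact cun hw.sym hc hzc hv
  by_cases c23 : G.pi (r 2) ∈ W ↔ G.pi (r 3) ∈ W
  · by_cases c34 : G.pi (r 3) ∈ W ↔ G.pi (r 4) ∈ W
    · left
      by_cases c40 : G.pi (r 4) ∈ W ↔ G.pi (r 0) ∈ W
      · exact ⟨W, hW, hv, id, gfin h h1 c23 c34 c40 ht.symm, fun _ _ _ => Iff.rfl⟩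
      · obtain ⟨W', hW', hv', ho', m0, mc, mk, hm⟩ := tog_c h hF hw hc hcC hc0 hzc z4 hW hv c40
        refine ⟨W', hW', hv', ho', gfin h ?_ ?_ ?_ ?_ ?_, hm⟩
        · rw [mk 1 (by decide), mk 2 (by decide)]
          exact h1
        · rw [mk 2 (by decide), mk 3 (by decide)]
          exact c23
        · rw [mk 3 (by decide), mk 4 (by decide)]
          exact c34
        · rw [mk 4 (by decide), m0]
          exact nif c40
        · rw [m0, mc]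
          exact not_congr ht.symm
    · right
      have c40 := rcc h hF hw.sym hv a34 a40 (by decide) z3 z4 c34
      exact ⟨h1, c23, nif c34, c40, ht.symm⟩
  · left
    have q1 := rcc h hF hw.sym hv a23 a34 (by decide) z2 z3 c23
    have q2 := rcc h hF hw.sym hv a23 a40 (by decide) z2 z4 c23
    have he : G.pi (G.al (r 1)) ≠ G.pi (r 1) := by
      rw [h.nxt, a12]
      exact fun e => absurd (h.inj _ _ e) (by decide)
    obtain ⟨W', hW', hv', ho', hm⟩ := hw.toggle (h.ds hF 1) he (by omega) (d := r 2)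
      (h.ds hF _) (Or.inr (by rw [h.nxt, a12])) (by omega)
      (by rw [h.nxt, a23]; exact nif c23) (by rw [h.nxt, a12]; exact h1) hW
    have m1 : G.pi (r 1) ∈ W' ↔ G.pi (r 1) ∉ W := by
      rw [hm, if_pos (Or.inl rfl)]
    have m2 : G.pi (r 2) ∈ W' ↔ G.pi (r 2) ∉ W := by
      rw [hm, if_pos (Or.inr (by rw [h.nxt, a12]))]
    have mk : ∀ k : ZMod 5, k ≠ 1 → k ≠ 2 → (G.pi (r k) ∈ W' ↔ G.pi (r k) ∈ W) := by
      intro k hk hk2
      rw [hm, if_neg]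
      rintro (q | q)
      · exact hk (h.inj _ _ q)
      · rw [h.nxt, a12] at q
        exact hk2 (h.inj _ _ q)
    have mc : G.pi c ∈ W' ↔ G.pi c ∈ W := by
      rw [hm, if_neg]
      rintro (q | q)
      · exact hcC (q ▸ h.memC 1)
      · rw [h.nxt, a12] at q
        exact hcC (q ▸ h.memC 2)
    refine ⟨W', hW', hv'.trans hv, ho', gfin h ?_ ?_ ?_ ?_ ?_, ?_⟩
    · rw [m1, m2]
      exact not_congr h1
    · rw [m2, mk 3 (by decide) (by decide)]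
      exact nif' c23
    · rw [mk 3 (by decide) (by decide), mk 4 (by decide) (by decide)]
      exact q1
    · rw [mk 0 (by decide) (by decide), mk 4 (by decide) (by decide)]
      exact q2
    · rw [mk 0 (by decide) (by decide), mc]
      exact ht.symm
    · intro v q3 q4
      rw [hm, if_neg]
      rintro (q | q)
      · exact q3 (q ▸ h.memC 1)
      · exact q3 (q ▸ by rw [h.nxt]; exact h.memC _)

/-- **gadget, exit 4**: weights `0,2,0,2,1` (or `0,3,0,2,1`). A set of value at most `1` can be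
changed such that it is constant on `p3,p4,c1,t` and on `p1,p2`. -/
theorem Cy.gad4 (h : Cy G F C 5 r) (hF : F ⊆ G.ds) {z : D → ℕ} {t : V → ℕ} (hw : G.ZW z t)
    {c : D} (hc : c ∈ G.ds) (hcC : G.pi c ∉ C) (hc0 : G.pi (G.al c) = G.pi (r 0))
    (hzc : z c = 2) (z1 : 2 ≤ z (r 1)) (z3 : z (r 3) = 2)
    (z4 : z (r 4) = 1) {W : Finset V} (hW : W ⊆ G.vs) (hv : G.zc z t W ≤ 1) :
    ∃ W' ⊆ G.vs, G.zc z t W' ≤ 1 ∧ (Odd W.card → Odd W'.card) ∧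
      (G.pi (r 1) ∈ W' ↔ G.pi (r 2) ∈ W') ∧ (G.pi (r 3) ∈ W' ↔ G.pi (r 4) ∈ W') ∧
      (G.pi (r 4) ∈ W' ↔ G.pi (r 0) ∈ W') ∧ (G.pi (r 0) ∈ W' ↔ G.pi c ∈ W') ∧
      ∀ v, v ∉ C → v ≠ G.pi c → (v ∈ W' ↔ v ∈ W) := by
  have a12 : (1 : ZMod 5) + 1 = 2 := by decide
  have a34 : (3 : ZMod 5) + 1 = 4 := by decide
  have h1 : G.pi (r 1) ∈ W ↔ G.pi (r 2) ∈ W := rcd h hF hw.sym hv a12 z1
  have h3 : G.pi (r 3) ∈ W ↔ G.pi (r 4) ∈ W := rcd h hF hw.sym hv a34 (by omega)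
  have ht : G.pi c ∈ W ↔ G.pi (r 0) ∈ W := by
    rw [← hc0]
    exact cun hw.sym hc hzc hv
  by_cases c40 : G.pi (r 4) ∈ W ↔ G.pi (r 0) ∈ W
  · exact ⟨W, hW, hv, id, h1, h3, c40, ht.symm, fun _ _ _ => Iff.rfl⟩
  · obtain ⟨W', hW', hv', ho', m0, mc, mk, hm⟩ := tog_c h hF hw hc hcC hc0 hzc z4 hW hv c40
    refine ⟨W', hW', hv', ho', ?_, ?_, ?_, ?_, hm⟩
    · rw [mk 1 (by decide), mk 2 (by decide)]
      exact h1
    · rw [mk 3 (by decide), mk 4 (by decide)]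
      exact h3
    · rw [mk 4 (by decide), m0]
      exact nif c40
    · rw [m0, mc]
      exact not_congr ht.symm

end gadget

end JP.CG
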