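import Pool.Agent.Lib.JP.Live

/-! Gluing bridgelessness over cuts with 3 or 5 edges. -/

set_option autoImplicit false

namespace JP.CG

open Finset Classical

variable {V D : Type*} {G : CG V D} {Y : Finset V}

private lemma gl35_sdiff {X Y : Finset V} (hX : Odd X.card) (h : Even (X ∩ Y).card) :
    Odd (X \ Y).card := by
  have h1 : (X \ Y).card + (X ∩ Y).card = X.card := Finset.card_sdiff_add_card_inter X Y
  by_contra hn
  rw [Nat.not_odd_iff_even] at hn
  rw [← h1] at hX
  exact (Nat.not_even_iff_odd.2 hX) (hn.add h)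

private lemma gl35_union {X Y : Finset V} (hX : Odd X.card) (hY : Odd Y.card)
    (h : Odd (X ∩ Y).card) : Odd (X ∪ Y).card := by
  have h1 : (X ∪ Y).card + (X ∩ Y).card = X.card + Y.card := Finset.card_union_add_card_inter X Y
  have h2 : Even (X.card + Y.card) := hX.add_odd hY
  rw [← h1] at h2
  by_contra hn
  rw [Nat.not_odd_iff_even] at hn
  exact (Nat.not_even_iff_odd.2 (hn.add_odd h)) h2

theorem b0_of_three (hY : Y ⊆ G.vs) (ho : Odd Y.card) (h3 : G.dg Y = 3)
    (hin : ∀ X ⊆ Y, Odd X.card → 3 ≤ G.dg X)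
    (hout : ∀ X ⊆ G.vs, Odd X.card → Disjoint X Y ∨ Y ⊆ X → 3 ≤ G.dg X) : G.B0 := by
  intro X hX hXo
  by_contra hlt
  have hp := (G.dg_parity hX).2 hXo
  have h1 : G.dg X = 1 := by
    obtain ⟨k, hk⟩ := hp
    omega
  rcases Nat.even_or_odd (X ∩ Y).card with he | hod
  · have hp1 := G.dg_posimod hX hY
    have h2 := hout (X \ Y) (sdiff_subset.trans hX) (gl35_sdiff hXo he)
      (Or.inl sdiff_disjoint)
    have h4 := hin (Y \ X) sdiff_subset (gl35_sdiff ho (by rwa [inter_comm] at he))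
    omega
  · have hp1 := G.dg_submod X Y
    have h2 := hout (X ∪ Y) (union_subset hX hY) (gl35_union hXo ho hod)
      (Or.inr subset_union_right)
    have h4 := hin (X ∩ Y) inter_subset_right hod
    omega

/-- two of the three darts at a vertex of `Y` lead to other vertices of `Y` -/
private lemma gl35_two (hY : Y ⊆ G.vs)
    (hv : ∀ v ∈ Y, ((G.bd Y ∪ G.tk Y).filter fun d => G.pi d = v).card ≤ 1)
    (hl : ∀ d ∈ G.ds, G.pi d ∈ Y → G.al d ≠ d → G.pi (G.al d) ≠ G.pi d) {v : V} (hvY : v ∈ Y) :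
    2 ≤ (G.ds.filter fun d => G.pi d = v ∧ G.pi (G.al d) ∈ Y \ {v} ∧ G.al d ≠ d).card := by
  have h3 := G.cubic v (hY hvY)
  have h1 := hv v hvY
  have hsub : (G.ds.filter fun d => G.pi d = v) ⊆
      ((G.bd Y ∪ G.tk Y).filter fun d => G.pi d = v) ∪
        (G.ds.filter fun d => G.pi d = v ∧ G.pi (G.al d) ∈ Y \ {v} ∧ G.al d ≠ d) := by
    intro d hd
    rw [mem_filter] at hd
    obtain ⟨hd1, hd2⟩ := hd
    rw [mem_union, mem_filter, mem_filter, mem_union, mem_bd, mem_tk]
    by_cases ht : G.al d = d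
    · left
      exact ⟨Or.inr ⟨hd1, hd2 ▸ hvY, ht⟩, hd2⟩
    · by_cases hin : G.pi (G.al d) ∈ Y
      · right
        refine ⟨hd1, hd2, mem_sdiff.2 ⟨hin, fun h => ?_⟩, ht⟩
        rw [mem_singleton] at h
        exact hl d hd1 (hd2 ▸ hvY) ht (by rw [h, hd2])
      · left
        exact ⟨Or.inl ⟨hd1, hd2 ▸ hvY, hin⟩, hd2⟩
  have h4 := (card_le_card hsub).trans (card_union_le _ _)
  omega

/-- `Y` is untouched: odd subsets with at least three vertices have degree at least 5 -/
theorem b0_of_five (hY : Y ⊆ G.vs) (ho : Odd Y.card) (h5 : G.dg Y = 5)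
    (hin : ∀ X ⊆ Y, Odd X.card → 3 ≤ X.card → 5 ≤ G.dg X)
    (hv : ∀ v ∈ Y, ((G.bd Y ∪ G.tk Y).filter fun d => G.pi d = v).card ≤ 1)
    (hl : ∀ d ∈ G.ds, G.pi d ∈ Y → G.al d ≠ d → G.pi (G.al d) ≠ G.pi d)
    (hout : ∀ X ⊆ G.vs, Odd X.card → Disjoint X Y ∨ Y ⊆ X → 3 ≤ G.dg X) : G.B0 := by
  intro X hX hXo
  by_contra hlt
  have hp := (G.dg_parity hX).2 hXo
  have h1 : G.dg X = 1 := by
    obtain ⟨k, hk⟩ := hp
    omega
  have hb1 : (G.bd X).card ≤ 1 := by
    unfold dg at h1
    omega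
  rcases Nat.even_or_odd (X ∩ Y).card with he | hod
  · have hp1 := G.dg_posimod hX hY
    have h2 := hout (X \ Y) (sdiff_subset.trans hX) (gl35_sdiff hXo he)
      (Or.inl sdiff_disjoint)
    have ho2 : Odd (Y \ X).card := gl35_sdiff ho (by rwa [inter_comm] at he)
    have h4 : (Y \ X).card = 1 := by
      by_contra hne
      have h5' := hin (Y \ X) sdiff_subset ho2 (by
        obtain ⟨k, hk⟩ := ho2
        omega)
      omega
    obtain ⟨v, hvx⟩ := card_eq_one.1 h4
    have hvm : v ∈ Y \ X := by rw [hvx]; exact mem_singleton_self v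
    rw [mem_sdiff] at hvm
    have htwo := gl35_two hY hv hl hvm.1
    have hle : (G.ds.filter fun d => G.pi d = v ∧ G.pi (G.al d) ∈ Y \ {v} ∧ G.al d ≠ d).card ≤
        (G.bd X).card := by
      refine Finset.card_le_card_of_injOn G.al ?_ ?_
      · intro d hd
        rw [mem_coe, mem_filter] at hd
        obtain ⟨hd1, hd2, hd3, hd4⟩ := hd
        rw [mem_coe, mem_bd]
        refine ⟨G.al_mem d hd1, ?_, ?_⟩
        · by_contra hnx
          have : G.pi (G.al d) ∈ Y \ X := mem_sdiff.2 ⟨(mem_sdiff.1 hd3).1, hnx⟩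
          rw [hvx] at this
          exact (mem_sdiff.1 hd3).2 this
        · rw [G.al_al d hd1, hd2]
          exact hvm.2
      · intro d hd e he' hde
        rw [mem_coe, mem_filter] at hd he'
        have h6 := G.al_al d hd.1
        have h7 := G.al_al e he'.1
        rw [← h6, ← h7, hde]
    omega
  · have hp1 := G.dg_submod X Y
    have h2 := hout (X ∪ Y) (union_subset hX hY) (gl35_union hXo ho hod)
      (Or.inr subset_union_right)
    have h4 : (X ∩ Y).card = 1 := by
      by_contra hne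
      have h5' := hin (X ∩ Y) inter_subset_right hod (by
        obtain ⟨k, hk⟩ := hod
        omega)
      omega
    obtain ⟨v, hvx⟩ := card_eq_one.1 h4
    have hvm : v ∈ X ∩ Y := by rw [hvx]; exact mem_singleton_self v
    rw [mem_inter] at hvm
    have htwo := gl35_two hY hv hl hvm.2
    have hle : (G.ds.filter fun d => G.pi d = v ∧ G.pi (G.al d) ∈ Y \ {v} ∧ G.al d ≠ d).card ≤
        (G.bd X).card := by
      apply card_le_card
      intro d hd
      rw [mem_filter] at hd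
      obtain ⟨hd1, hd2, hd3, hd4⟩ := hd
      rw [mem_bd]
      refine ⟨hd1, hd2 ▸ hvm.1, fun hx => ?_⟩
      have : G.pi (G.al d) ∈ X ∩ Y := mem_inter.2 ⟨hx, (mem_sdiff.1 hd3).1⟩
      rw [hvx] at this
      exact (mem_sdiff.1 hd3).2 this
    omega

/-- settled sets: a killed structure, `Y` odd saturated with `m + fx = 3`, no bad set inside; a bad set
gives a bad set which contains `Y` or is disjoint from `Y` -/
theorem settled {A : Finset D} {al' p : D → D} (h : G.KD A al' p) (hY : Y ⊆ G.vs) (ho : Odd Y.card)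
    (hs : KD.Sat G A al' Y) (h3 : G.m A Y + KD.fx G A al' Y = 3)
    (hin : ∀ X ⊆ Y, Odd X.card → 3 ≤ h.gr.dg X) {W : Finset V} (hW : W ⊆ G.vs) (hWo : Odd W.card)
    (hbad : h.gr.dg W ≤ 1) :
    (Odd (W ∩ Y).card ∧ h.gr.dg (W ∪ Y) ≤ 1) ∨ (Even (W ∩ Y).card ∧ h.gr.dg (W \ Y) ≤ 1) := by
  have hY3 : h.gr.dg Y = 3 := by rw [h.dg_sat' hs]; exact h3
  rcases Nat.even_or_odd (W ∩ Y).card with he | hod
  · right
    refine ⟨he, ?_⟩
    have hp1 := dg_posimod h.gr (X := W) (Y := Y) hW hY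
    have h4 := hin (Y \ W) sdiff_subset (gl35_sdiff ho (by rwa [inter_comm] at he))
    omega
  · left
    refine ⟨hod, ?_⟩
    have hp1 := dg_submod h.gr W Y
    have h4 := hin (W ∩ Y) inter_subset_right hod
    omega

end JP.CG
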