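import Pool.Agent.Lib.JP.Glue

/-! Gluing along a 3-cut `X` without tokens and disjoint from `K` (then one circuit crosses). -/

set_option autoImplicit false

namespace JP.CG

open Finset Classical

variable {V D : Type*} {G : CG V D} {K : Finset V} {F : Finset D}

section conA

variable {X : Finset V} {z : V}

lemma ga_mem_ds (h : G.CD X z ∅) {d : D} :
    d ∈ h.con.ds ↔ d ∈ G.ds ∧ (G.pi d ∈ X ∨ G.pi (G.al d) ∈ X) := by
  unfold CD.con
  simp only [union_empty, mem_filter]

lemma ga_pi_in (h : G.CD X z ∅) {d : D} (hd : G.pi d ∈ X) : h.con.pi d = G.pi d := by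
  unfold CD.con
  exact if_pos hd

lemma ga_pi_out (h : G.CD X z ∅) {d : D} (hd : G.pi d ∉ X) : h.con.pi d = z := by
  unfold CD.con
  exact if_neg hd

lemma ga_al (h : G.CD X z ∅) (d : D) : h.con.al d = G.al d := rfl

lemma ga_vs (h : G.CD X z ∅) : h.con.vs = insert z X := rfl

/-- classes after a contraction whose new vertex is not absorbed -/
lemma ga_cls (h : G.CD X z ∅) (hc : G.Cls K F) (hK : K ⊆ X)
    (h2 : (F.filter fun d => G.pi d ∉ X ∧ G.pi (G.al d) ∈ X).card = 2) :
    h.con.Cls K (F.filter fun d => d ∈ h.con.ds) := by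
  refine ⟨?_, ?_, ?_, ?_, ?_, ?_⟩
  · exact hK.trans (subset_insert _ _)
  · intro d hd
    exact (mem_filter.1 hd).2
  · intro d hd
    have hd' := mem_filter.1 hd
    exact mem_filter.2 ⟨hc.Fal d hd'.1, h.con.al_mem d hd'.2⟩
  · intro d hd
    exact hc.Ftok d (mem_filter.1 hd).1
  · intro v hv hvK
    rw [filter_filter]
    rcases mem_insert.1 hv with e | hvX
    · rw [← h2]
      congr 1
      apply filter_congr
      intro d hd
      rw [ga_mem_ds h]
      constructor
      · rintro ⟨⟨_, h1⟩, h3⟩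
        have hx : G.pi d ∉ X := by
          intro hx
          rw [ga_pi_in h hx] at h3
          rw [e] at h3
          exact h.zX (h3 ▸ hx)
        exact ⟨hx, h1.resolve_left hx⟩
      · rintro ⟨h1, h3⟩
        refine ⟨⟨hc.Fsub hd, Or.inr h3⟩, ?_⟩
        rw [ga_pi_out h h1, e]
    · rw [← hc.F2 v (h.Xsub hvX) hvK]
      congr 1
      apply filter_congr
      intro d hd
      rw [ga_mem_ds h]
      constructor
      · rintro ⟨⟨_, h1⟩, h3⟩
        by_cases hx : G.pi d ∈ X
        · rwa [ga_pi_in h hx] at h3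
        · rw [ga_pi_out h hx] at h3
          exact absurd (h3 ▸ hvX) h.zX
      · intro h3
        have hx : G.pi d ∈ X := h3 ▸ hvX
        refine ⟨⟨hc.Fsub hd, Or.inl hx⟩, ?_⟩
        rw [ga_pi_in h hx, h3]
  · intro d hd hal
    rw [ga_al] at hal
    have h1 := (ga_mem_ds h).1 hd
    have hx : G.pi d ∈ X := by
      rcases h1.2 with h2 | h2
      · exact h2
      · rwa [hal] at h2
    rw [ga_pi_in h hx]
    exact hc.tokK d h1.1 hal

/-- admissible sets which do not contain the new vertex -/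
lemma ga_adm_out (h : G.CD X z ∅) (hc : G.Cls K F) {Z : Finset V} (hz : z ∉ Z) :
    h.con.Adm K (F.filter fun d => d ∈ h.con.ds) Z ↔ (Z ⊆ X ∧ G.Adm K F Z) := by
  constructor
  · intro ha
    have hZX : Z ⊆ X := by
      intro v hv
      rcases mem_insert.1 (ha.sub hv) with e | e
      · exact absurd (e ▸ hv) hz
      · exact e
    refine ⟨hZX, hZX.trans h.Xsub, ha.dis, ?_⟩
    intro d hd hdZ
    have hdX := hZX hdZ
    have hds : d ∈ h.con.ds := (ga_mem_ds h).2 ⟨hc.Fsub hd, Or.inl hdX⟩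
    have h1 := ha.clo d (mem_filter.2 ⟨hd, hds⟩) (by rw [ga_pi_in h hdX]; exact hdZ)
    rw [ga_al] at h1
    by_cases hx : G.pi (G.al d) ∈ X
    · rwa [ga_pi_in h hx] at h1
    · rw [ga_pi_out h hx] at h1
      exact absurd h1 hz
  · rintro ⟨hZX, ha⟩
    refine ⟨hZX.trans (subset_insert _ _), ha.dis, ?_⟩
    intro d hd hdZ
    have hd' := (mem_filter.1 hd)
    have hdX : G.pi d ∈ X := by
      by_contra hx
      rw [ga_pi_out h hx] at hdZ
      exact hz hdZ
    rw [ga_pi_in h hdX] at hdZ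
    have h1 := ha.clo d hd'.1 hdZ
    rw [ga_al, ga_pi_in h (hZX h1)]
    exact h1

/-- admissible sets which contain the new vertex -/
lemma ga_adm_ins (h : G.CD X z ∅) (hc : G.Cls K F) (hK : K ⊆ X) {Y : Finset V} (hY : Y ⊆ X)
    (ha : h.con.Adm K (F.filter fun d => d ∈ h.con.ds) (insert z Y)) :
    G.Adm K F (Y ∪ (G.vs \ X)) := by
  refine ⟨union_subset (hY.trans h.Xsub) sdiff_subset, ?_, ?_⟩
  · intro v hv
    rcases mem_union.1 hv with hv | hv
    · exact ha.dis v (mem_insert_of_mem hv)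
    · intro hvK
      exact (mem_sdiff.1 hv).2 (hK hvK)
  · intro d hd hdZ
    have hmem : G.pi (G.al d) ∈ G.vs := G.pi_mem _ (G.al_mem _ (hc.Fsub hd))
    by_cases hx : G.pi (G.al d) ∈ X
    · have hds : d ∈ h.con.ds := (ga_mem_ds h).2 ⟨hc.Fsub hd, Or.inr hx⟩
      have h0 : h.con.pi d ∈ insert z Y := by
        rcases mem_union.1 hdZ with hv | hv
        · rw [ga_pi_in h (hY hv)]
          exact mem_insert_of_mem hv
        · rw [ga_pi_out h (mem_sdiff.1 hv).2]
          exact mem_insert_self _ _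
      have h1 := ha.clo d (mem_filter.2 ⟨hd, hds⟩) h0
      rw [ga_al, ga_pi_in h hx] at h1
      rcases mem_insert.1 h1 with e | e
      · exact absurd (e ▸ hx) h.zX
      · exact mem_union_left _ e
    · exact mem_union_right _ (mem_sdiff.2 ⟨hmem, hx⟩)

/-- condition (C) after the contraction of an odd set disjoint from `K` -/
lemma ga_cc (h : G.CD X z ∅) (hc : G.Cls K F) (hK : K ⊆ X) (hcc : G.CC K F)
    (ho : Odd (G.vs \ X).card) :
    h.con.CC K (F.filter fun d => d ∈ h.con.ds) := by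
  intro Z ha hoZ
  by_cases hz : z ∈ Z
  · have hY : Z.erase z ⊆ X := by
      intro v hv
      rcases mem_insert.1 (ha.sub (mem_of_mem_erase hv)) with e | e
      · exact absurd e (ne_of_mem_erase hv)
      · exact e
    have hZ : insert z (Z.erase z) = Z := insert_erase hz
    have ha' : h.con.Adm K (F.filter fun d => d ∈ h.con.ds) (insert z (Z.erase z)) := by
      rwa [hZ]
    have h1 := ga_adm_ins h hc hK hY ha'
    rw [← hZ, h.bd_ins hY]
    refine hcc _ h1 ?_
    have hd : Disjoint (Z.erase z) (G.vs \ X) := by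
      rw [disjoint_left]
      intro v hv hv'
      exact (mem_sdiff.1 hv').2 (hY hv)
    rw [card_union_of_disjoint hd]
    have h4 : (Z.erase z).card + 1 = Z.card := card_erase_add_one hz
    rw [← h4] at hoZ
    have he : Even (Z.erase z).card := by
      by_contra hne
      rw [Nat.not_even_iff_odd] at hne
      have := hne.add_one
      exact (Nat.not_even_iff_odd.2 hoZ) this
    exact he.add_odd ho
  · have h1 := (ga_adm_out h hc hz).1 ha
    rw [h.bd_sub h1.1]
    exact hcc Z h1.2 hoZ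

/-- the length condition after the contraction of an odd set disjoint from `K` -/
lemma ga_sm (h : G.CD X z ∅) (hc : G.Cls K F) (hK : K ⊆ X) (hsm : G.Sm K F)
    (h2 : (F.filter fun d => G.pi d ∉ X ∧ G.pi (G.al d) ∈ X).card = 2) :
    h.con.Sm K (F.filter fun d => d ∈ h.con.ds) := by
  -- all or no crossing darts are in an admissible set
  have hall : ∀ Z, G.Adm K F Z → (∀ d ∈ F, G.pi d ∉ X → G.pi (G.al d) ∈ X → G.pi d ∈ Z) ∨
      (∀ d ∈ F, G.pi d ∉ X → G.pi (G.al d) ∈ X → G.pi d ∉ Z) := by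
    intro Z hZ
    have h3 := hc.even_cross (Y := Z \ X) (sdiff_subset.trans hZ.sub)
      (fun v hv => hZ.dis v (mem_sdiff.1 hv).1)
    have h4 : (F.filter fun d => G.pi d ∈ Z \ X ∧ G.pi (G.al d) ∉ Z \ X) ⊆
        (F.filter fun d => G.pi d ∉ X ∧ G.pi (G.al d) ∈ X) := by
      intro d hd
      rw [mem_filter, mem_sdiff, mem_sdiff] at hd
      rw [mem_filter]
      have h5 := hZ.clo d hd.1 hd.2.1.1
      refine ⟨hd.1, hd.2.1.2, ?_⟩
      by_contra h6
      exact hd.2.2 ⟨h5, h6⟩
    rcases eq_empty_or_nonempty (F.filter fun d => G.pi d ∈ Z \ X ∧ G.pi (G.al d) ∉ Z \ X)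
      with h5 | h5
    · right
      intro d hd h6 h7 h8
      have : d ∈ (F.filter fun d => G.pi d ∈ Z \ X ∧ G.pi (G.al d) ∉ Z \ X) := by
        rw [mem_filter, mem_sdiff, mem_sdiff]
        exact ⟨hd, ⟨h8, h6⟩, fun h9 => h9.2 h7⟩
      rw [h5] at this
      exact notMem_empty _ this
    · left
      have h6 := card_pos.2 h5
      have h7 : (F.filter fun d => G.pi d ∉ X ∧ G.pi (G.al d) ∈ X) ⊆
          (F.filter fun d => G.pi d ∈ Z \ X ∧ G.pi (G.al d) ∉ Z \ X) := by
        rw [← eq_of_subset_of_card_le h4 (by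
          rw [h2]
          obtain ⟨k, hk⟩ := h3
          omega)]
      intro d hd h8 h9
      have := h7 (mem_filter.2 ⟨hd, h8, h9⟩)
      rw [mem_filter, mem_sdiff] at this
      exact this.2.1.1
  -- no crossing dart
  have hno : ∀ Z, G.Adm K F Z →
      (∀ d ∈ F, G.pi d ∉ X → G.pi (G.al d) ∈ X → G.pi d ∉ Z) →
      h.con.Adm K (F.filter fun d => d ∈ h.con.ds) (Z ∩ X) := by
    intro Z hZ hn
    have hz : z ∉ Z ∩ X := fun h3 => h.zX (mem_inter.1 h3).2
    rw [ga_adm_out h hc hz]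
    refine ⟨inter_subset_right, inter_subset_left.trans hZ.sub,
      fun v hv => hZ.dis v (mem_inter.1 hv).1, ?_⟩
    intro d hd hdZ
    rw [mem_inter] at hdZ ⊢
    have h3 := hZ.clo d hd hdZ.1
    refine ⟨h3, ?_⟩
    by_contra h4
    refine hn _ (hc.Fal d hd) h4 ?_ h3
    rw [G.al_al _ (hc.Fsub hd)]
    exact hdZ.2
  -- all crossing darts
  have hyes : ∀ Z, G.Adm K F Z →
      (∀ d ∈ F, G.pi d ∉ X → G.pi (G.al d) ∈ X → G.pi d ∈ Z) →
      h.con.Adm K (F.filter fun d => d ∈ h.con.ds) (insert z (Z ∩ X)) := by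
    intro Z hZ hy
    refine ⟨insert_subset_insert _ inter_subset_right, ?_, ?_⟩
    · intro v hv
      rcases mem_insert.1 hv with e | hv
      · intro h3
        exact h.zX (e ▸ hK h3)
      · exact hZ.dis v (mem_inter.1 hv).1
    · intro d hd hdZ
      rw [mem_filter, ga_mem_ds h] at hd
      obtain ⟨hd1, hd2, hd3⟩ := hd
      rw [ga_al]
      by_cases h3 : G.pi (G.al d) ∈ X
      · rw [ga_pi_in h h3]
        refine mem_insert_of_mem (mem_inter.2 ⟨?_, h3⟩)
        by_cases h4 : G.pi d ∈ X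
        · rw [ga_pi_in h h4] at hdZ
          rcases mem_insert.1 hdZ with e | e
          · exact absurd (e ▸ h4) h.zX
          · exact hZ.clo d hd1 (mem_inter.1 e).1
        · exact hZ.clo d hd1 (hy d hd1 h4 h3)
      · rw [ga_pi_out h h3]
        exact mem_insert_self _ _
  intro Z hZ v hv
  by_cases hz : z ∈ Z
  · have hY : Z.erase z ⊆ X := by
      intro v hv
      rcases mem_insert.1 (hZ.sub (mem_of_mem_erase hv)) with e | e
      · exact absurd e (ne_of_mem_erase hv)
      · exact e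
    have hZe : insert z (Z.erase z) = Z := insert_erase hz
    have ha' : h.con.Adm K (F.filter fun d => d ∈ h.con.ds) (insert z (Z.erase z)) := by
      rwa [hZe]
    have h1 := ga_adm_ins h hc hK hY ha'
    -- a circuit through `w` in the big set
    have hbig : ∀ w ∈ Z.erase z ∪ (G.vs \ X), ∃ Z' ⊆ Z.erase z ∪ (G.vs \ X), G.Adm K F Z' ∧
        w ∈ Z' ∧ Z'.card ≤ 5 := hsm _ h1
    have hsub : ∀ Z' ⊆ Z.erase z ∪ (G.vs \ X), Z' ∩ X ⊆ Z.erase z := by
      intro Z' hs w hw
      rw [mem_inter] at hw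
      rcases mem_union.1 (hs hw.1) with h3 | h3
      · exact h3
      · exact absurd hw.2 (mem_sdiff.1 h3).2
    have hcard : ∀ Z', G.Adm K F Z' → (∃ w ∈ Z', w ∉ X) → Z'.card ≤ 5 →
        (insert z (Z' ∩ X)).card ≤ 5 := by
      rintro Z' - ⟨w, hw, hwX⟩ h5
      have h3 : Z' ∩ X ⊂ Z' := by
        rw [ssubset_iff_of_subset inter_subset_left]
        exact ⟨w, hw, fun h4 => hwX (mem_inter.1 h4).2⟩
      have h4 := card_lt_card h3
      have h6 := card_insert_le z (Z' ∩ X)
      omega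
    obtain ⟨d1, hd1⟩ : (F.filter fun d => G.pi d ∉ X ∧ G.pi (G.al d) ∈ X).Nonempty := by
      rw [← card_pos, h2]
      exact Nat.succ_pos 1
    rw [mem_filter] at hd1
    obtain ⟨hd1, hd2, hd3⟩ := hd1
    by_cases hvz : v = z
    · obtain ⟨Z', hs, ha, hw, h5⟩ := hbig (G.pi d1)
        (mem_union_right _ (mem_sdiff.2 ⟨G.pi_mem _ (hc.Fsub hd1), hd2⟩))
      have hy : ∀ d ∈ F, G.pi d ∉ X → G.pi (G.al d) ∈ X → G.pi d ∈ Z' := by
        rcases hall Z' ha with h3 | h3
        · exact h3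
        · exact absurd hw (h3 d1 hd1 hd2 hd3)
      refine ⟨insert z (Z' ∩ X), ?_, hyes Z' ha hy, ?_, hcard Z' ha ⟨_, hw, hd2⟩ h5⟩
      · rw [← hZe]
        exact insert_subset_insert _ (hsub Z' hs)
      · rw [hvz]
        exact mem_insert_self _ _
    · have hvE : v ∈ Z.erase z := mem_erase.2 ⟨hvz, hv⟩
      obtain ⟨Z', hs, ha, hw, h5⟩ := hbig v (mem_union_left _ hvE)
      have hvi : v ∈ Z' ∩ X := mem_inter.2 ⟨hw, hY hvE⟩
      rcases hall Z' ha with h3 | h3
      · refine ⟨insert z (Z' ∩ X), ?_, hyes Z' ha h3, mem_insert_of_mem hvi,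
          hcard Z' ha ⟨_, h3 d1 hd1 hd2 hd3, hd2⟩ h5⟩
        rw [← hZe]
        exact insert_subset_insert _ (hsub Z' hs)
      · refine ⟨Z' ∩ X, (hsub Z' hs).trans (erase_subset _ _), hno Z' ha h3, hvi, ?_⟩
        exact (card_le_card inter_subset_left).trans h5
  · have h1 := (ga_adm_out h hc hz).1 hZ
    obtain ⟨Z', hs, ha, hw, h5⟩ := hsm Z h1.2 v hv
    refine ⟨Z', hs, ?_, hw, h5⟩
    rw [ga_adm_out h hc (fun h3 => hz (hs h3))]
    exact ⟨hs.trans h1.1, ha⟩

end conA

/-- circuits cross evenly, in terms of `bd` -/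
lemma ga_even (hc : G.Cls K F) {Y : Finset V} (hY : Y ⊆ G.vs) (hK : ∀ v ∈ Y, v ∉ K) :
    Even ((G.bd Y).filter fun d => d ∈ F).card := by
  have h := hc.even_cross hY hK
  have : (F.filter fun d => G.pi d ∈ Y ∧ G.pi (G.al d) ∉ Y) = (G.bd Y).filter fun d => d ∈ F := by
    ext d
    rw [mem_filter, mem_filter, G.mem_bd]
    constructor
    · rintro ⟨h1, h2, h3⟩
      exact ⟨⟨hc.Fsub h1, h2, h3⟩, h1⟩
    · rintro ⟨⟨_, h2, h3⟩, h1⟩
      exact ⟨h1, h2, h3⟩
  rwa [this] at h

/-- **Gluing, `K ∩ X = ∅`.**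

Proof. By (C) `X` is not a union of circuits, so exactly two edges `e1, e2 ∈ F` and one edge
`e3 ∉ F` leave `X` (even crossing, `Z = X`: every vertex of `X` has exactly two `F`-darts).
`W = vs \ X`. `G2` = contraction of `X` to `z2`, `z2` NOT put into `K` (it has exactly two
`F`-darts): `K2 = K`, `F2 = F ∩ ds2`; (C) holds: if `z2 ∈ Z2` replace `z2` by `X`. `M2` good.
It contains exactly one edge `e` of the cut. `G1` = contraction of `W` to `z`, without tokens, the
two other cut edges are cut into tokens, `K1 = {z} ∪ (inner ends of these two edges)`. `M1` good,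
it contains `e`. `M = M1 ∪ M2`. Let `Z` be an odd union of fresh circuits with `bd Z ⊆ M`.
Case 1: no `F`-dart of `bd X` (on either side) is at `Z`. Then `Z ∩ X`, `Z ∩ W` are unions of
circuits; non-`M` edges leaving `Z ∩ X`: at most `e3`, even number, so none; same for `Z ∩ W`; one
of the two sets is odd: contradiction with `M1` (if `q_j ∈ Z ∩ X` for a non-`M` cut edge then this
edge leaves `Z ∩ X`) or `M2`.
Case 2: the ends of `e1, e2` are in `Z`. `Z2 = insert z2 (Z ∩ W)` is a union of fresh circuits of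
`G2`, all edges leaving it are in `M2` (at most `e3` is not, parity), so `Z2` is even, `Z ∩ W` is odd,
`Z ∩ X` is even, `Y = X \ Z` is odd; `Y` is a union of circuits of `G1`, the edges leaving `Y` are in
`M` (at most `e3` is not, parity), hence `Y` avoids `K1`: contradiction with `M1`. -/
theorem glueA0 (hI : G.Inst K F) (ih : IH G.vs.card V D) {X : Finset V} (hX : X ⊆ G.vs)
    (ho : Odd X.card) (h3 : G.dg X = 3) (ht : G.tk X = ∅) (hc : 3 ≤ X.card)
    (hc' : 3 ≤ (G.vs \ X).card) (hK : ∀ v ∈ X, v ∉ K) :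
    ∃ M, G.Good K F M := by
  have hcls := hI.cls
  obtain ⟨W, hWdef⟩ : ∃ W, W = G.vs \ X := ⟨_, rfl⟩
  rw [← hWdef] at hc'
  have hWs : W ⊆ G.vs := by rw [hWdef]; exact sdiff_subset
  have hWX : G.vs \ W = X := by rw [hWdef, Finset.sdiff_sdiff_eq_self hX]
  have hmW : ∀ v ∈ G.vs, v ∉ X → v ∈ W := by
    intro v hv hvX
    rw [hWdef]
    exact mem_sdiff.2 ⟨hv, hvX⟩
  have hWnX : ∀ v ∈ W, v ∉ X := by
    intro v hv
    rw [hWdef] at hv
    exact (mem_sdiff.1 hv).2
  have hcard : W.card + X.card = G.vs.card := by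
    rw [hWdef]
    exact card_sdiff_add_card_eq_card hX
  have hWo : Odd W.card := by
    have := hI.even
    rw [← hcard] at this
    by_contra hne
    rw [Nat.not_odd_iff_even] at hne
    exact (Nat.not_even_iff_odd.2 (hne.add_odd ho)) this
  have hKW : K ⊆ W := by
    intro v hv
    exact hmW v (hcls.Ksub hv) (fun h => hK v h hv)
  have hb3 : (G.bd X).card = 3 := by
    unfold dg at h3
    rw [ht, card_empty, add_zero] at h3
    exact h3
  have hbW : (G.bd W).card = 3 := by
    rw [hWdef, G.bd_compl hX]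
    exact hb3
  have halbd : ∀ d ∈ G.bd X, G.al d ∈ G.ds ∧ G.pi (G.al d) ∈ W ∧ G.pi d ∈ X ∧ d ∈ G.ds ∧
      G.al (G.al d) = d := by
    intro d hd
    have h := (G.mem_bd).1 hd
    have h1 := G.al_mem d h.1
    exact ⟨h1, hmW _ (G.pi_mem _ h1) h.2.2, h.2.1, h.1, G.al_al d h.1⟩
  -- exactly two `F`-darts leave `X`
  have hFX : ((G.bd X).filter fun d => d ∈ F).card = 2 := by
    have hev := ga_even hcls hX hK
    have hle : ((G.bd X).filter fun d => d ∈ F).card ≤ 3 := by
      rw [← hb3]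
      exact card_filter_le _ _
    have hne : ((G.bd X).filter fun d => d ∈ F).card ≠ 0 := by
      intro h0
      rw [card_eq_zero] at h0
      have hadm : G.Adm K F X := by
        refine ⟨hX, hK, ?_⟩
        intro d hd hdX
        by_contra hx
        have : d ∈ (G.bd X).filter fun d => d ∈ F :=
          mem_filter.2 ⟨(G.mem_bd).2 ⟨hcls.Fsub hd, hdX, hx⟩, hd⟩
        rw [h0] at this
        exact absurd this (notMem_empty d)
      have := hI.cc X hadm ho
      omega
    obtain ⟨k, hk⟩ := hev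
    omega
  have hnF : ((G.bd X).filter fun d => d ∉ F).card = 1 := by
    have := card_filter_add_card_filter_not (s := G.bd X) (fun d => d ∈ F)
    omega
  have hone : ∀ S : Finset D, (∀ d ∈ S, d ∈ G.bd X ∧ d ∉ F) → Even S.card → S = ∅ := by
    intro S hS hev
    have h1 : S.card ≤ 1 := by
      rw [← hnF]
      apply card_le_card
      intro d hd
      exact mem_filter.2 (hS d hd)
    obtain ⟨k, hk⟩ := hev
    rw [← card_eq_zero]
    omega
  have hone' : ∀ S : Finset D, (∀ d ∈ S, d ∈ G.ds ∧ G.al d ∈ G.bd X ∧ d ∉ F) → Even S.card →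
      S = ∅ := by
    intro S hS hev
    have hinj : Set.InjOn G.al (S : Set D) := by
      intro a ha b hb hab
      have h1 := G.al_al a (hS a (mem_coe.1 ha)).1
      have h2 := G.al_al b (hS b (mem_coe.1 hb)).1
      rw [← h1, ← h2, hab]
    have h0 : S.image G.al = ∅ := by
      apply hone
      · intro d hd
        obtain ⟨a, ha, rfl⟩ := mem_image.1 hd
        have h := hS a ha
        refine ⟨h.2.1, ?_⟩
        intro hF
        apply h.2.2
        have := hcls.Fal _ hF
        rwa [G.al_al a h.1] at this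
      · rw [card_image_of_injOn hinj]
        exact hev
    exact image_eq_empty.1 h0
  -- the two contractions
  obtain ⟨z2, hz2⟩ : X.Nonempty := card_pos.1 (by omega)
  obtain ⟨z, hz⟩ : W.Nonempty := card_pos.1 (by omega)
  have h1 : G.CD X z ∅ := ⟨hX, hWs hz, hWnX z hz, empty_subset _, by rw [hb3, card_empty]⟩
  have h2 : G.CD W z2 ∅ :=
    ⟨hWs, hX hz2, fun h => hWnX z2 h hz2, empty_subset _, by rw [hbW, card_empty]⟩
  have hcr : (F.filter fun d => G.pi d ∉ W ∧ G.pi (G.al d) ∈ W).card = 2 := by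
    rw [← hFX]
    congr 1
    ext d
    rw [mem_filter, mem_filter, G.mem_bd]
    constructor
    · rintro ⟨hd, h4, h5⟩
      have hds := hcls.Fsub hd
      have hdX : G.pi d ∈ X := by
        by_contra hx
        exact h4 (hmW _ (G.pi_mem d hds) hx)
      exact ⟨⟨hds, hdX, hWnX _ h5⟩, hd⟩
    · rintro ⟨⟨hds, h4, h5⟩, hd⟩
      exact ⟨hd, fun h => hWnX _ h h4, hmW _ (G.pi_mem _ (G.al_mem d hds)) h5⟩
  -- the instance `G2`
  have hI2 : h2.con.Inst K (F.filter fun d => d ∈ h2.con.ds) := by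
    refine ⟨?_, ?_, ?_, ?_, ?_, ?_⟩
    · rw [h2.vs_card]
      exact hWo.add_one
    · rw [h2.tk_vs, card_empty, add_zero]
      have := G.tk_compl hX
      have h4 := hI.four
      rw [← hWdef] at this
      omega
    · apply h2.b0_all hI.b0
      · rw [hWX]
        exact ho
      · rw [hWX, ht]
    · exact ga_cls h2 hcls hKW hcr
    · apply ga_cc h2 hcls hKW hI.cc
      rw [hWX]
      exact ho
    · exact ga_sm h2 hcls hKW hI.sm hcr
  obtain ⟨M2, hM2⟩ := ih h2.con K _ (by rw [h2.vs_card]; omega) hI2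
  -- the matching edge of the cut
  obtain ⟨e, he, heu⟩ : ∃ e ∈ G.bd X, ∀ d ∈ G.bd X, (d ∈ M2 ↔ d = e) := by
    have hone2 := hM2.pm.one z2 (by rw [ga_vs]; exact mem_insert_self _ _)
    rw [card_eq_one] at hone2
    obtain ⟨e, he⟩ := hone2
    have hem : e ∈ M2.filter fun d => h2.con.pi d = z2 := by
      rw [he]
      exact mem_singleton_self e
    rw [mem_filter] at hem
    have hds := (ga_mem_ds h2).1 (hM2.pm.sub hem.1)
    have hnW : G.pi e ∉ W := by
      intro hw
      have := hem.2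
      rw [ga_pi_in h2 hw] at this
      rw [this] at hw
      exact hWnX z2 hw hz2
    have heX : G.pi e ∈ X := by
      by_contra hx
      exact hnW (hmW _ (G.pi_mem e hds.1) hx)
    refine ⟨e, (G.mem_bd).2 ⟨hds.1, heX, hWnX _ (hds.2.resolve_left hnW)⟩, ?_⟩
    intro d hd
    have h4 := halbd d hd
    constructor
    · intro hdM
      have : d ∈ M2.filter fun d => h2.con.pi d = z2 := by
        rw [mem_filter]
        exact ⟨hdM, ga_pi_out h2 (fun h => hWnX _ h h4.2.2.1)⟩
      rw [he] at this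
      exact mem_singleton.1 this
    · intro hde
      rw [hde]
      exact hem.1
  -- the edges which are cut
  obtain ⟨A, hA⟩ : ∃ A : Finset D, A = ((G.bd X).erase e) ∪ ((G.bd X).erase e).image G.al :=
    ⟨_, rfl⟩
  have hAm : ∀ d, d ∈ A ↔ (d ∈ G.bd X ∧ d ≠ e) ∨ (d ∈ G.ds ∧ G.al d ∈ G.bd X ∧ G.al d ≠ e) := by
    intro d
    rw [hA, mem_union, mem_erase, mem_image]
    constructor
    · rintro (h | ⟨a, ha, rfl⟩)
      · exact Or.inl ⟨h.2, h.1⟩
      · rw [mem_erase] at ha
        have h4 := halbd a ha.2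
        right
        rw [h4.2.2.2.2]
        exact ⟨h4.1, ha.2, ha.1⟩
    · rintro (h | h)
      · exact Or.inl ⟨h.2, h.1⟩
      · right
        exact ⟨G.al d, mem_erase.2 ⟨h.2.2, h.2.1⟩, G.al_al d h.1⟩
  have hAc : A.card ≤ 4 := by
    rw [hA]
    have h4 := card_union_le ((G.bd X).erase e) (((G.bd X).erase e).image G.al)
    have h5 := card_image_le (s := (G.bd X).erase e) (f := G.al)
    have h6 := card_erase_of_mem he
    omega
  have hAal : ∀ d ∈ A, h1.con.al d ∈ A := by
    intro d hd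
    rw [ga_al]
    rcases (hAm d).1 hd with h | h
    · have h4 := halbd d h.1
      apply (hAm _).2
      right
      rw [h4.2.2.2.2]
      exact ⟨h4.1, h.1, h.2⟩
    · exact (hAm _).2 (Or.inl ⟨h.2.1, h.2.2⟩)
  have hAds : A ⊆ h1.con.ds := by
    intro d hd
    rw [ga_mem_ds]
    rcases (hAm d).1 hd with h | h
    · have h4 := halbd d h.1
      exact ⟨h4.2.2.2.1, Or.inl h4.2.2.1⟩
    · have h4 := halbd _ h.2.1
      exact ⟨h.1, Or.inr h4.2.2.1⟩
  have hAn : ∀ d ∈ A, h1.con.al d ≠ d := by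
    intro d hd hal
    rw [ga_al] at hal
    rcases (hAm d).1 hd with h | h
    · have h4 := (G.mem_bd).1 h.1
      rw [hal] at h4
      exact h4.2.2 h4.2.1
    · have h4 := (G.mem_bd).1 h.2.1
      rw [G.al_al d h.1] at h4
      rw [hal] at h4
      exact h4.2.2 h4.2.1
  -- the instance `G1`
  have hI1 : (h1.con.cutS A hAal).Inst (insert z (K ∩ X) ∪ A.image h1.con.pi)
      ((F.filter fun d => d ∈ h1.con.ds) \ A) := by
    refine ⟨?_, ?_, ?_, ?_, ?_, ?_⟩
    · show Even h1.con.vs.card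
      rw [h1.vs_card]
      exact ho.add_one
    · show ((h1.con.cutS A hAal).tk h1.con.vs).card ≤ 4
      rw [cutS_tk_card hAal hAds hAn, h1.tk_vs, ht, card_empty]
      omega
    · exact cutS_b0 hAal (h1.b0_eq hI.b0 ho (by rw [ht]))
    · exact cutS_cls hAal hAds (h1.cls hcls)
    · intro Z hZ hoZ
      rw [cutS_adm hAal hAds (h1.cls hcls), h1.adm hcls] at hZ
      obtain ⟨⟨hZX, hZa⟩, hZA⟩ := hZ
      rw [cutS_bd hAal, h1.bd_sub hZX]
      have : G.bd Z \ A = G.bd Z := by
        rw [Finset.sdiff_eq_self_iff_disjoint, disjoint_left]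
        intro d hd hdA
        apply hZA d hdA
        have h4 := ((G.mem_bd).1 hd).2.1
        rw [ga_pi_in h1 (hZX h4)]
        exact h4
      rw [this]
      exact hI.cc Z hZa hoZ
    · refine hI.sm.of_adm ?_ ?_
      · intro Z hZ
        rw [cutS_adm hAal hAds (h1.cls hcls), h1.adm hcls] at hZ
        exact hZ.1.2
      · intro Z hZ Z' hs hZ'
        rw [cutS_adm hAal hAds (h1.cls hcls), h1.adm hcls] at hZ ⊢
        exact ⟨⟨hs.trans hZ.1.1, hZ'⟩, fun d hd hv => hZ.2 d hd (hs hv)⟩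
  obtain ⟨M1, hM1⟩ := ih (h1.con.cutS A hAal) _ _
    (by show h1.con.vs.card < _; rw [h1.vs_card]; omega) hI1
  obtain ⟨hpm1, hav⟩ := (cutS_pm hAal).1 hM1.pm
  have heu1 : ∀ d ∈ G.bd X, (d ∈ M1 ↔ d = e) := by
    have hone1 := hpm1.one z (by rw [ga_vs]; exact mem_insert_self _ _)
    rw [card_eq_one] at hone1
    obtain ⟨f, hf⟩ := hone1
    have hfm : f ∈ M1.filter fun d => h1.con.pi d = z := by
      rw [hf]
      exact mem_singleton_self f
    rw [mem_filter] at hfm
    have hds := (ga_mem_ds h1).1 (hpm1.sub hfm.1)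
    have hnX : G.pi f ∉ X := by
      intro hx
      have := hfm.2
      rw [ga_pi_in h1 hx] at this
      rw [this] at hx
      exact hWnX z hz hx
    have hfX : G.pi (G.al f) ∈ X := hds.2.resolve_left hnX
    have haf : G.al f ∈ G.bd X := by
      rw [G.mem_bd]
      refine ⟨G.al_mem f hds.1, hfX, ?_⟩
      rw [G.al_al f hds.1]
      exact hnX
    have hafM : G.al f ∈ M1 := by
      have := hpm1.closed f hfm.1
      rwa [ga_al] at this
    have hafe : G.al f = e := by
      by_contra hne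
      exact hav (G.al f) ((hAm _).2 (Or.inl ⟨haf, hne⟩)) hafM
    intro d hd
    constructor
    · intro hdM
      by_contra hne
      exact hav d ((hAm _).2 (Or.inl ⟨hd, hne⟩)) hdM
    · intro hde
      rw [hde, ← hafe]
      exact hafM
  subst hWdef
  have hag : ∀ d ∈ G.bd X, (d ∈ M1 ↔ d ∈ M2) := by
    intro d hd
    rw [heu1 d hd, heu d hd]
  obtain ⟨hpm, hin, hout⟩ := glue_pm h1 h2 hpm1 hM2.pm hag
  have hMX : ∀ d ∈ G.bd X, (d ∈ M1 ∪ M2 ↔ d = e) := by
    intro d hd
    have h4 := halbd d hd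
    rw [hin d h4.2.2.2.1 (Or.inl h4.2.2.1)]
    exact heu1 d hd
  refine ⟨M1 ∪ M2, hpm, ?_⟩
  intro Z hZ hoZ
  by_contra hcon
  have hZM : ∀ d ∈ G.bd Z, d ∈ M1 ∪ M2 := by
    intro d hd
    by_contra hne
    exact hcon ⟨d, hd, hne⟩
  -- closure of `Z` under `F`, both directions
  have hZc : ∀ d ∈ F, (G.pi d ∈ Z ↔ G.pi (G.al d) ∈ Z) := by
    intro d hd
    constructor
    · exact hZ.clo d hd
    · intro h
      have := hZ.clo _ (hcls.Fal d hd) h
      rwa [G.al_al d (hcls.Fsub hd)] at this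
  have htkZ : ∀ Y ⊆ Z, G.tk Y = ∅ := by
    intro Y hY
    rw [eq_empty_iff_forall_notMem]
    intro d hd
    rw [G.mem_tk] at hd
    exact hZ.dis _ (hY hd.2.1) (hcls.tokK d hd.1 hd.2.2)
  -- `M1` excludes odd admissible subsets of `X` with all boundary in `M`
  have hexX : ∀ Y ⊆ X, G.Adm K F Y → (∀ d ∈ G.bd Y, d ∈ M1 ∪ M2) → ¬ Odd Y.card := by
    intro Y hYX hYa hYM hYo
    have hadm : (h1.con.cutS A hAal).Adm (insert z (K ∩ X) ∪ A.image h1.con.pi)
      ((F.filter fun d => d ∈ h1.con.ds) \ A) Y := by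
      rw [cutS_adm hAal hAds (h1.cls hcls), h1.adm hcls]
      refine ⟨⟨hYX, hYa⟩, ?_⟩
      intro d hd hdY
      rcases (hAm d).1 hd with h | h
      · have h4 := (G.mem_bd).1 h.1
        rw [ga_pi_in h1 h4.2.1] at hdY
        have h5 : d ∈ G.bd Y := (G.mem_bd).2 ⟨h4.1, hdY, fun h6 => h4.2.2 (hYX h6)⟩
        exact h.2 ((hMX d h.1).1 (hYM d h5))
      · have h4 := (G.mem_bd).1 h.2.1
        rw [G.al_al d h.1] at h4
        rw [ga_pi_out h1 h4.2.2] at hdY
        exact h1.zX (hYX hdY)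
    obtain ⟨d, hd, hdM⟩ := hM1.hit Y hadm hYo
    rw [cutS_bd hAal, h1.bd_sub hYX] at hd
    have hd' := (mem_sdiff.1 hd).1
    have h4 := (G.mem_bd).1 hd'
    exact hdM ((hin d h4.1 (Or.inl (hYX h4.2.1))).1 (hYM d hd'))
  -- number of non-`M` edges leaving `Z ∩ X`, `Z \ X`
  have hsplit : (Z ∩ X).card + (Z \ X).card = Z.card := card_inter_add_card_sdiff Z X
  by_cases hcase : ∀ d ∈ G.bd X, d ∈ F → G.pi d ∉ Z
  · -- Case 1
    have ha1 : G.Adm K F (Z ∩ X) := by
      refine ⟨inter_subset_right.trans hX, fun v hv => hK v (mem_inter.1 hv).2, ?_⟩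
      intro d hd hdZ
      rw [mem_inter] at hdZ
      have h5 := (hZc d hd).1 hdZ.1
      rw [mem_inter]
      refine ⟨h5, ?_⟩
      by_contra hx
      exact hcase d ((G.mem_bd).2 ⟨hcls.Fsub hd, hdZ.2, hx⟩) hd hdZ.1
    have ha2 : G.Adm K F (Z \ X) := by
      refine ⟨sdiff_subset.trans hZ.sub, fun v hv => hZ.dis v (mem_sdiff.1 hv).1, ?_⟩
      intro d hd hdZ
      rw [mem_sdiff] at hdZ
      have h5 := (hZc d hd).1 hdZ.1
      rw [mem_sdiff]
      refine ⟨h5, ?_⟩
      intro hx
      have hds := hcls.Fsub hd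
      apply hcase (G.al d) ((G.mem_bd).2 ⟨G.al_mem d hds, hx, ?_⟩) (hcls.Fal d hd) h5
      rw [G.al_al d hds]
      exact hdZ.2
    have hb1 : ∀ d ∈ G.bd (Z ∩ X), d ∈ M1 ∪ M2 := by
      have hev := hpm.even_compl (inter_subset_right.trans hX) (htkZ (Z ∩ X) inter_subset_left)
      have h0 := hone _ ?_ hev
      · intro d hd
        by_contra hne
        have : d ∈ (G.bd (Z ∩ X)).filter fun d => d ∉ M1 ∪ M2 := mem_filter.2 ⟨hd, hne⟩
        rw [h0] at this
        exact absurd this (notMem_empty d)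
      · intro d hd
        rw [mem_filter, G.mem_bd, mem_inter, mem_inter] at hd
        obtain ⟨⟨hds, ⟨h4, h5⟩, h6⟩, h7⟩ := hd
        have h8 : G.pi (G.al d) ∈ Z := by
          by_contra hx
          exact h7 (hZM d ((G.mem_bd).2 ⟨hds, h4, hx⟩))
        have h9 : d ∈ G.bd X := (G.mem_bd).2 ⟨hds, h5, fun hx => h6 ⟨h8, hx⟩⟩
        exact ⟨h9, fun hF => hcase d h9 hF h4⟩
    have hb2 : ∀ d ∈ G.bd (Z \ X), d ∈ M1 ∪ M2 := by
      have hev := hpm.even_compl (sdiff_subset.trans hZ.sub) (htkZ (Z \ X) sdiff_subset)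
      have h0 := hone' _ ?_ hev
      · intro d hd
        by_contra hne
        have : d ∈ (G.bd (Z \ X)).filter fun d => d ∉ M1 ∪ M2 := mem_filter.2 ⟨hd, hne⟩
        rw [h0] at this
        exact absurd this (notMem_empty d)
      · intro d hd
        rw [mem_filter, G.mem_bd, mem_sdiff, mem_sdiff] at hd
        obtain ⟨⟨hds, ⟨h4, h5⟩, h6⟩, h7⟩ := hd
        have h8 : G.pi (G.al d) ∈ Z := by
          by_contra hx
          exact h7 (hZM d ((G.mem_bd).2 ⟨hds, h4, hx⟩))
        have h9 : G.al d ∈ G.bd X := by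
          rw [G.mem_bd, G.al_al d hds]
          refine ⟨G.al_mem d hds, ?_, h5⟩
          by_contra hx
          exact h6 ⟨h8, hx⟩
        exact ⟨hds, h9, fun hF => hcase _ h9 (hcls.Fal d hF) h8⟩
    have hn1 := hexX (Z ∩ X) inter_subset_right ha1 hb1
    have ho2 : Odd (Z \ X).card := by
      rw [← hsplit] at hoZ
      rw [Nat.not_odd_iff_even] at hn1
      by_contra hne
      rw [Nat.not_odd_iff_even] at hne
      exact (Nat.not_even_iff_odd.2 hoZ) (hn1.add hne)
    have hsub : Z \ X ⊆ G.vs \ X := sdiff_subset_sdiff hZ.sub (Subset.refl _)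
    obtain ⟨d, hd, hdM⟩ := hM2.hit (Z \ X)
      ((ga_adm_out h2 hcls (fun h => (mem_sdiff.1 h).2 hz2)).2 ⟨hsub, ha2⟩) ho2
    rw [h2.bd_sub hsub] at hd
    have h4 := (G.mem_bd).1 hd
    exact hdM ((hout d h4.1 (Or.inl (mem_sdiff.1 h4.2.1).2)).1 (hb2 d hd))
  · -- Case 2
    push Not at hcase
    obtain ⟨d0, hd0, hd0F, hd0Z⟩ := hcase
    -- all `F`-darts of the cut are at `Z`
    have hall : ∀ d ∈ G.bd X, d ∈ F → G.pi d ∈ Z := by
      have hev := ga_even hcls (inter_subset_right.trans hX : Z ∩ X ⊆ G.vs)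
        (fun v hv => hK v (mem_inter.1 hv).2)
      have hsub : ((G.bd (Z ∩ X)).filter fun d => d ∈ F) ⊆ (G.bd X).filter fun d => d ∈ F := by
        intro d hd
        rw [mem_filter, G.mem_bd, mem_inter, mem_inter] at hd
        obtain ⟨⟨hds, ⟨h4, h5⟩, h6⟩, h7⟩ := hd
        refine mem_filter.2 ⟨(G.mem_bd).2 ⟨hds, h5, fun hx => h6 ⟨(hZc d h7).1 h4, hx⟩⟩, h7⟩
      have hpos : 0 < ((G.bd (Z ∩ X)).filter fun d => d ∈ F).card := by
        apply card_pos.2
        have h4 := (G.mem_bd).1 hd0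
        exact ⟨d0, mem_filter.2 ⟨(G.mem_bd).2 ⟨h4.1, mem_inter.2 ⟨hd0Z, h4.2.1⟩,
          fun h => h4.2.2 (mem_inter.1 h).2⟩, hd0F⟩⟩
      have heq : ((G.bd (Z ∩ X)).filter fun d => d ∈ F) = (G.bd X).filter fun d => d ∈ F := by
        apply eq_of_subset_of_card_le hsub
        rw [hFX]
        obtain ⟨k, hk⟩ := hev
        omega
      intro d hd hdF
      have : d ∈ (G.bd X).filter fun d => d ∈ F := mem_filter.2 ⟨hd, hdF⟩
      rw [← heq, mem_filter, G.mem_bd, mem_inter] at this
      exact this.1.2.1.1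
    have hsub : Z \ X ⊆ G.vs \ X := sdiff_subset_sdiff hZ.sub (Subset.refl _)
    -- `insert z2 (Z \ X)` is admissible in `G2`
    have ha2 : h2.con.Adm K (F.filter fun d => d ∈ h2.con.ds) (insert z2 (Z \ X)) := by
      refine ⟨insert_subset_insert _ hsub, ?_, ?_⟩
      · intro v hv
        rcases mem_insert.1 hv with h | h
        · rw [h]
          exact hK z2 hz2
        · exact hZ.dis v (mem_sdiff.1 h).1
      · intro d hd hdZ
        rw [mem_filter] at hd
        obtain ⟨hdF, hdd⟩ := hd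
        have hds := hcls.Fsub hdF
        rw [ga_al]
        by_cases hx : G.pi (G.al d) ∈ X
        · rw [ga_pi_out h2 (fun h => hWnX _ h hx)]
          exact mem_insert_self _ _
        · have hxW := hmW _ (G.pi_mem _ (G.al_mem d hds)) hx
          rw [ga_pi_in h2 hxW]
          apply mem_insert_of_mem
          rw [mem_sdiff]
          refine ⟨?_, hx⟩
          by_cases hy : G.pi d ∈ X
          · exact (hZc d hdF).1 (hall d ((G.mem_bd).2 ⟨hds, hy, hx⟩) hdF)
          · have hyW := hmW _ (G.pi_mem _ hds) hy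
            rw [ga_pi_in h2 hyW] at hdZ
            rcases mem_insert.1 hdZ with h | h
            · exact absurd hz2 (h ▸ hy)
            · exact (hZc d hdF).1 (mem_sdiff.1 h).1
    -- all edges leaving it are in `M2`
    have hb2 : ∀ d ∈ h2.con.bd (insert z2 (Z \ X)), d ∈ M2 := by
      have hevs : insert z2 (Z \ X) ⊆ h2.con.vs := ha2.sub
      have htk : h2.con.tk (insert z2 (Z \ X)) = ∅ := by
        rw [eq_empty_iff_forall_notMem]
        intro d hd
        rw [mem_tk] at hd
        exact ha2.dis _ hd.2.1 (hI2.cls.tokK d hd.1 hd.2.2)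
      have hev := hM2.pm.even_compl hevs htk
      rw [h2.bd_ins hsub, Finset.sdiff_sdiff_eq_self hX] at hev ⊢
      have h0 := hone _ ?_ hev
      · intro d hd
        by_contra hne
        have : d ∈ (G.bd (Z \ X ∪ X)).filter fun d => d ∉ M2 := mem_filter.2 ⟨hd, hne⟩
        rw [h0] at this
        exact absurd this (notMem_empty d)
      · intro d hd
        rw [mem_filter, G.mem_bd, mem_union, mem_union, mem_sdiff, mem_sdiff] at hd
        obtain ⟨⟨hds, h4, h6⟩, h7⟩ := hd
        push Not at h6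
        by_cases hx : G.pi d ∈ X
        · have hb : d ∈ G.bd X := (G.mem_bd).2 ⟨hds, hx, h6.2⟩
          refine ⟨hb, ?_⟩
          intro hF
          have h8 := (hZc d hF).1 (hall d hb hF)
          exact h6.2 (h6.1 h8)
        · exfalso
          have h8 : G.pi d ∈ Z := (h4.resolve_right hx).1
          have h9 : G.pi (G.al d) ∉ Z := fun h => h6.2 (h6.1 h)
          have h10 := hZM d ((G.mem_bd).2 ⟨hds, h8, h9⟩)
          exact h7 ((hout d hds (Or.inl hx)).1 h10)
    have hne2 : ¬ Odd (insert z2 (Z \ X)).card := by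
      intro h
      obtain ⟨d, hd, hdM⟩ := hM2.hit _ ha2 h
      exact hdM (hb2 d hd)
    have hz2n : z2 ∉ Z \ X := fun h => (mem_sdiff.1 h).2 hz2
    rw [card_insert_of_notMem hz2n] at hne2
    have hYo : Odd (X \ Z).card := by
      have h4 : (X \ Z).card + (Z ∩ X).card = X.card := by
        rw [inter_comm]
        have := card_inter_add_card_sdiff X Z
        omega
      rw [Nat.odd_iff] at *
      omega
    have haY : G.Adm K F (X \ Z) := by
      refine ⟨sdiff_subset.trans hX, fun v hv => hK v (mem_sdiff.1 hv).1, ?_⟩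
      intro d hd hdY
      rw [mem_sdiff] at hdY ⊢
      refine ⟨?_, fun h => hdY.2 ((hZc d hd).2 h)⟩
      by_contra hx
      exact hdY.2 (hall d ((G.mem_bd).2 ⟨hcls.Fsub hd, hdY.1, hx⟩) hd)
    have hbY : ∀ d ∈ G.bd (X \ Z), d ∈ M1 ∪ M2 := by
      have htk : G.tk (X \ Z) = ∅ := by
        rw [eq_empty_iff_forall_notMem]
        intro d hd
        rw [mem_tk] at hd
        have : d ∈ G.tk X := (G.mem_tk).2 ⟨hd.1, (mem_sdiff.1 hd.2.1).1, hd.2.2⟩
        rw [ht] at this
        exact absurd this (notMem_empty d)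
      have hev := hpm.even_compl (sdiff_subset.trans hX) htk
      have h0 := hone _ ?_ hev
      · intro d hd
        by_contra hne
        have : d ∈ (G.bd (X \ Z)).filter fun d => d ∉ M1 ∪ M2 := mem_filter.2 ⟨hd, hne⟩
        rw [h0] at this
        exact absurd this (notMem_empty d)
      · intro d hd
        rw [mem_filter, G.mem_bd, mem_sdiff, mem_sdiff] at hd
        obtain ⟨⟨hds, ⟨h4, h5⟩, h6⟩, h7⟩ := hd
        have hx : G.pi (G.al d) ∉ X := by
          intro hx
          have h8 : G.pi (G.al d) ∈ Z := by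
            by_contra hy
            exact h6 ⟨hx, hy⟩
          have h9 : G.al d ∈ G.bd Z := by
            rw [G.mem_bd, G.al_al d hds]
            exact ⟨G.al_mem d hds, h8, h5⟩
          have h10 := hpm.closed _ (hZM _ h9)
          rw [G.al_al d hds] at h10
          exact h7 h10
        have hb : d ∈ G.bd X := (G.mem_bd).2 ⟨hds, h4, hx⟩
        exact ⟨hb, fun hF => h5 (hall d hb hF)⟩
    exact hexX (X \ Z) sdiff_subset haY hbY hYo

end JP.CG
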