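import Pool.Agent.Lib.JP.Step

/-! Lifting a matching over a step. -/

set_option autoImplicit false

namespace JP.CG

open Finset Classical

variable {V D : Type*} {G : CG V D} {σ u1 u2 v1 v2 v3 : D}

/-- lift of a matching of the graph after the step -/
noncomputable def slift (G : CG V D) (u1 u2 v1 v2 : D) (M : Finset D) : Finset D :=
  M ∪ (if G.al u2 ∈ M then {u2, v2} else {u1, v1})

variable (h : G.SD σ u1 u2 v1 v2 v3)
include h

/-- elementary facts about the six darts of a step -/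
lemma SD.lx_facts : G.al v1 = u1 ∧ G.al (G.al u2) = u2 ∧ G.al (G.al v2) = v2 ∧
    G.al (G.al v3) = v3 ∧ u1 ≠ v1 ∧ u1 ≠ v2 ∧ u1 ≠ v3 ∧ u2 ≠ v1 ∧ u2 ≠ v2 ∧ u2 ≠ v3 := by
  have hp1 : G.pi u1 ≠ G.pi v1 := by rw [h.pu1]; exact h.hsv
  have hp2 : G.pi u2 ≠ G.pi v1 := by rw [h.pu2]; exact h.hsv
  refine ⟨?_, G.al_al _ h.mu2, G.al_al _ h.mv2, G.al_al _ h.mv3, ?_, ?_, ?_, ?_, ?_, ?_⟩
  · rw [← h.e1]; exact G.al_al _ h.mu1
  · intro e; exact hp1 (by rw [e])
  · intro e; exact hp1 (by rw [e, h.pv2])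
  · intro e; exact hp1 (by rw [e, h.pv3])
  · intro e; exact hp2 (by rw [e])
  · intro e; exact hp2 (by rw [e, h.pv2])
  · intro e; exact hp2 (by rw [e, h.pv3])

/-- facts about the outer darts -/
lemma SD.lx_outer : G.al u2 ≠ u1 ∧ G.al u2 ≠ v1 ∧ G.al v2 ≠ u1 ∧ G.al v2 ≠ v1 ∧ G.al v2 ≠ u2 ∧
    G.al v3 ≠ u1 ∧ G.al v3 ≠ v1 ∧ G.al v3 ≠ u2 ∧ G.al v3 ≠ v2 := by
  obtain ⟨hv1, hu2, hv2, hv3, f1, f2, f3, f4, f5, f6⟩ := h.lx_facts
  refine ⟨?_, ?_, ?_, ?_, ?_, ?_, ?_, ?_, ?_⟩
  · intro e; rw [e, h.e1] at hu2; exact f4 hu2.symm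
  · intro e; rw [e, hv1] at hu2; exact h.n3 hu2
  · intro e; rw [e, h.e1] at hv2; exact h.n4 hv2
  · intro e; rw [e, hv1] at hv2; exact f2 hv2
  · intro e; rw [e] at hv2; exact h.c2 hv2
  · intro e; rw [e, h.e1] at hv3; exact h.n5 hv3
  · intro e; rw [e, hv1] at hv3; exact f3 hv3
  · intro e; rw [e] at hv3; exact h.c3 hv3
  · intro e; rw [e] at hv3; exact h.d2 hv3

omit h in
lemma SD.lx_vs (h : G.SD σ u1 u2 v1 v2 v3) : h.step.vs = G.vs \ {G.pi σ, G.pi v1} := rfl
omit h in
lemma SD.lx_ds (h : G.SD σ u1 u2 v1 v2 v3) :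
    h.step.ds = G.ds \ {σ, u1, u2, v1, v2, v3} := rfl
omit h in
lemma SD.lx_pi (h : G.SD σ u1 u2 v1 v2 v3) : h.step.pi = G.pi := rfl
omit h in
lemma SD.lx_al (h : G.SD σ u1 u2 v1 v2 v3) (d : D) :
    h.step.al d = if d = G.al u2 then G.al v2 else if d = G.al v2 then G.al u2 else
      if d = G.al v3 then G.al v3 else G.al d := rfl

lemma SD.lx_al_u2 : h.step.al (G.al u2) = G.al v2 := by
  rw [h.lx_al, if_pos rfl]

lemma SD.lx_al_v2 : h.step.al (G.al v2) = G.al u2 := by
  rw [h.lx_al, if_neg (h.outer.2.2.2.1).symm, if_pos rfl]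

lemma SD.lx_al_v3 : h.step.al (G.al v3) = G.al v3 := by
  rw [h.lx_al, if_neg (h.outer.2.2.2.2.1).symm, if_neg (h.outer.2.2.2.2.2).symm, if_pos rfl]

lemma SD.lx_al_else {d : D} (h1 : d ≠ G.al u2) (h2 : d ≠ G.al v2) (h3 : d ≠ G.al v3) :
    h.step.al d = G.al d := by
  rw [h.lx_al, if_neg h1, if_neg h2, if_neg h3]

/-- darts of the new graph are not among the six -/
lemma SD.lx_not {d : D} (hd : d ∈ h.step.ds) :
    d ∈ G.ds ∧ d ≠ σ ∧ d ≠ u1 ∧ d ≠ u2 ∧ d ≠ v1 ∧ d ≠ v2 ∧ d ≠ v3 := by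
  rw [h.lx_ds, mem_sdiff] at hd
  simp only [mem_insert, mem_singleton, not_or] at hd
  exact ⟨hd.1, hd.2⟩

lemma SD.lx_mem_iff {M : Finset D} (hM : h.step.IsPM M) : G.al v2 ∈ M ↔ G.al u2 ∈ M := by
  constructor
  · intro e; have := hM.closed _ e; rwa [h.lx_al_v2] at this
  · intro e; have := hM.closed _ e; rwa [h.lx_al_u2] at this

lemma SD.lx_v3_not {M : Finset D} (hM : h.step.IsPM M) : G.al v3 ∉ M := by
  intro e; exact hM.notok _ e h.lx_al_v3

/-- exactly one of `u1`, `u2` is in the lifted matching, and it determines the live edge -/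
lemma SD.slift_s {M : Finset D} (hM : h.step.IsPM M) :
    (u1 ∈ G.slift u1 u2 v1 v2 M ↔ G.al u2 ∉ M) ∧ (u2 ∈ G.slift u1 u2 v1 v2 M ↔ G.al u2 ∈ M) ∧
      (v1 ∈ G.slift u1 u2 v1 v2 M ↔ G.al u2 ∉ M) ∧ (v2 ∈ G.slift u1 u2 v1 v2 M ↔ G.al u2 ∈ M) ∧
      (G.al u2 ∈ G.slift u1 u2 v1 v2 M ↔ G.al u2 ∈ M) ∧ (G.al v2 ∈ G.slift u1 u2 v1 v2 M ↔ G.al u2 ∈ M) ∧
      (G.al v2 ∈ M ↔ G.al u2 ∈ M) := by
  obtain ⟨hv1, hu2, hv2, hv3, f1, f2, f3, f4, f5, f6⟩ := h.lx_facts
  obtain ⟨g1, g2, g3, g4, g5, g6, g7, g8, g9⟩ := h.lx_outer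
  have nm1 : u1 ∉ M := fun e => (h.lx_not (hM.sub e)).2.2.1 rfl
  have nm2 : u2 ∉ M := fun e => (h.lx_not (hM.sub e)).2.2.2.1 rfl
  have nm3 : v1 ∉ M := fun e => (h.lx_not (hM.sub e)).2.2.2.2.1 rfl
  have nm4 : v2 ∉ M := fun e => (h.lx_not (hM.sub e)).2.2.2.2.2.1 rfl
  have hiff := h.lx_mem_iff hM
  have n3 := h.n3
  have n4 := h.n4
  have a2 := h.a2
  have b2 := h.b2
  have c2 := h.c2
  by_cases hc : G.al u2 ∈ M
  · have hc2 : G.al v2 ∈ M := hiff.2 hc
    have e1 : G.slift u1 u2 v1 v2 M = M ∪ {u2, v2} := by unfold slift; rw [if_pos hc]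
    rw [e1]
    simp only [mem_union, mem_insert, mem_singleton]
    refine ⟨?_, ?_, ?_, ?_, ?_, ?_, ?_⟩
    · constructor
      · rintro (e | e | e)
        · exact absurd e nm1
        · exact absurd e n3
        · exact absurd e f2
      · intro e; exact absurd hc e
    · exact ⟨fun _ => hc, fun _ => by simp⟩
    · constructor
      · rintro (e | e | e)
        · exact absurd e nm3
        · exact absurd e.symm f4
        · exact absurd e n4
      · intro e; exact absurd hc e
    · exact ⟨fun _ => hc, fun _ => by simp⟩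
    · exact ⟨fun _ => hc, fun _ => Or.inl hc⟩
    · exact ⟨fun _ => hc, fun _ => Or.inl hc2⟩
    · exact hiff
  · have hc2 : G.al v2 ∉ M := fun e => hc (hiff.1 e)
    have e1 : G.slift u1 u2 v1 v2 M = M ∪ {u1, v1} := by unfold slift; rw [if_neg hc]
    rw [e1]
    simp only [mem_union, mem_insert, mem_singleton]
    refine ⟨?_, ?_, ?_, ?_, ?_, ?_, ?_⟩
    · exact ⟨fun _ => hc, fun _ => by simp⟩
    · constructor
      · rintro (e | e | e)
        · exact absurd e nm2
        · exact absurd e.symm n3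
        · exact absurd e f4
      · intro e; exact absurd e hc
    · exact ⟨fun _ => hc, fun _ => by simp⟩
    · constructor
      · rintro (e | e | e)
        · exact absurd e nm4
        · exact absurd e.symm f2
        · exact absurd e.symm n4
      · intro e; exact absurd e hc
    · constructor
      · rintro (e | e | e)
        · exact absurd e hc
        · exact absurd e g1
        · exact absurd e g2
      · intro e; exact absurd e hc
    · constructor
      · rintro (e | e | e)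
        · exact absurd e hc2
        · exact absurd e g3
        · exact absurd e g4
      · intro e; exact absurd e hc
    · exact hiff

/-- the edge `vc` is not in the lifted matching -/
lemma SD.slift_c {M : Finset D} (hM : h.step.IsPM M) : v3 ∉ G.slift u1 u2 v1 v2 M ∧ G.al v3 ∉ G.slift u1 u2 v1 v2 M := by
  obtain ⟨hv1, hu2, hv2, hv3, f1, f2, f3, f4, f5, f6⟩ := h.lx_facts
  obtain ⟨g1, g2, g3, g4, g5, g6, g7, g8, g9⟩ := h.lx_outer
  have nm : v3 ∉ M := fun e => (h.lx_not (hM.sub e)).2.2.2.2.2.2 rfl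
  have nm' := h.lx_v3_not hM
  have n5 := h.n5
  have n6 := h.n6
  unfold slift
  by_cases hc : G.al u2 ∈ M
  · rw [if_pos hc]
    simp only [mem_union, mem_insert, mem_singleton, not_or]
    exact ⟨⟨nm, fun e => f6 e.symm, fun e => n6 e.symm⟩, ⟨nm', g8, g9⟩⟩
  · rw [if_neg hc]
    simp only [mem_union, mem_insert, mem_singleton, not_or]
    exact ⟨⟨nm, fun e => f3 e.symm, fun e => n5 e.symm⟩, ⟨nm', g6, g7⟩⟩

lemma SD.slift_pm {M : Finset D} (hM : h.step.IsPM M) : G.IsPM (G.slift u1 u2 v1 v2 M) := by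
  obtain ⟨hv1, hu2, hv2, hv3, f1, f2, f3, f4, f5, f6⟩ := h.lx_facts
  obtain ⟨g1, g2, g3, g4, g5, g6, g7, g8, g9⟩ := h.lx_outer
  have hS := h.slift_s hM
  have hiff := h.lx_mem_iff hM
  have nv3 := h.lx_v3_not hM
  have hsubM : M ⊆ G.slift u1 u2 v1 v2 M := by unfold slift; exact subset_union_left
  -- membership
  have hmem : ∀ d ∈ G.slift u1 u2 v1 v2 M, d ∈ M ∨ (G.al u2 ∈ M ∧ (d = u2 ∨ d = v2)) ∨
      (G.al u2 ∉ M ∧ (d = u1 ∨ d = v1)) := by
    intro d hd
    unfold slift at hd
    by_cases hc : G.al u2 ∈ M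
    · rw [if_pos hc] at hd
      simp only [mem_union, mem_insert, mem_singleton] at hd
      rcases hd with hd | hd
      · exact Or.inl hd
      · exact Or.inr (Or.inl ⟨hc, hd⟩)
    · rw [if_neg hc] at hd
      simp only [mem_union, mem_insert, mem_singleton] at hd
      rcases hd with hd | hd
      · exact Or.inl hd
      · exact Or.inr (Or.inr ⟨hc, hd⟩)
  constructor
  · intro d hd
    rcases hmem d hd with hd | ⟨_, hd | hd⟩ | ⟨_, hd | hd⟩
    · exact (h.lx_not (hM.sub hd)).1
    · rw [hd]; exact h.mu2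
    · rw [hd]; exact h.mv2
    · rw [hd]; exact h.mu1
    · rw [hd, ← h.e1]; exact G.al_mem _ h.mu1
  · intro d hd
    rcases hmem d hd with hd | ⟨hc, hd | hd⟩ | ⟨hc, hd | hd⟩
    · by_cases k1 : d = G.al u2
      · have hc : G.al u2 ∈ M := k1 ▸ hd
        rw [k1, hu2]; exact hS.2.1.2 hc
      by_cases k2 : d = G.al v2
      · have hc : G.al u2 ∈ M := hiff.1 (k2 ▸ hd)
        rw [k2, hv2]; exact hS.2.2.2.1.2 hc
      by_cases k3 : d = G.al v3
      · exact absurd (k3 ▸ hd) nv3
      · have := hM.closed _ hd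
        rw [h.lx_al_else k1 k2 k3] at this
        exact hsubM this
    · rw [hd]; exact hsubM hc
    · rw [hd]; exact hsubM (hiff.2 hc)
    · rw [hd, h.e1]; exact hS.2.2.1.2 hc
    · rw [hd, hv1]; exact hS.1.2 hc
  · intro d hd
    rcases hmem d hd with hd | ⟨hc, hd | hd⟩ | ⟨hc, hd | hd⟩
    · by_cases k1 : d = G.al u2
      · rw [k1, hu2]; exact fun e => h.a2 e.symm
      by_cases k2 : d = G.al v2
      · rw [k2, hv2]; exact fun e => h.b2 e.symm
      by_cases k3 : d = G.al v3
      · exact absurd (k3 ▸ hd) nv3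
      · have := hM.notok _ hd
        rwa [h.lx_al_else k1 k2 k3] at this
    · rw [hd]; exact h.a2
    · rw [hd]; exact h.b2
    · rw [hd, h.e1]; exact fun e => f1 e.symm
    · rw [hd, hv1]; exact f1
  · intro w hw
    -- darts of `M` are not at `s`, `v`
    have hns : ∀ d ∈ M, G.pi d ≠ G.pi σ ∧ G.pi d ≠ G.pi v1 := by
      intro d hd
      have hn := h.lx_not (hM.sub hd)
      have hdd := h.darts hn.1
      constructor
      · intro e
        rcases hdd.1.1 e with e | e | e
        · exact hn.2.1 e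
        · exact hn.2.2.1 e
        · exact hn.2.2.2.1 e
      · intro e
        rcases hdd.2.1 e with e | e | e
        · exact hn.2.2.2.2.1 e
        · exact hn.2.2.2.2.2.1 e
        · exact hn.2.2.2.2.2.2 e
    by_cases ws : w = G.pi σ
    · by_cases hc : G.al u2 ∈ M
      · have : ((G.slift u1 u2 v1 v2 M).filter fun d => G.pi d = w) = {u2} := by
          ext d
          simp only [mem_filter, mem_singleton]
          constructor
          · rintro ⟨hd, hp⟩
            rcases hmem d hd with hd | ⟨_, hd | hd⟩ | ⟨hc', _⟩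
            · exact absurd (hp.trans ws) (hns d hd).1
            · exact hd
            · exfalso; rw [hd, h.pv2, ws] at hp; exact h.hsv hp.symm
            · exact absurd hc hc'
          · intro e; rw [e]; exact ⟨hS.2.1.2 hc, by rw [h.pu2, ws]⟩
        rw [this, card_singleton]
      · have : ((G.slift u1 u2 v1 v2 M).filter fun d => G.pi d = w) = {u1} := by
          ext d
          simp only [mem_filter, mem_singleton]
          constructor
          · rintro ⟨hd, hp⟩
            rcases hmem d hd with hd | ⟨hc', _⟩ | ⟨_, hd | hd⟩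
            · exact absurd (hp.trans ws) (hns d hd).1
            · exact absurd hc' hc
            · exact hd
            · exfalso; rw [hd, ws] at hp; exact h.hsv hp.symm
          · intro e; rw [e]; exact ⟨hS.1.2 hc, by rw [h.pu1, ws]⟩
        rw [this, card_singleton]
    by_cases wv : w = G.pi v1
    · by_cases hc : G.al u2 ∈ M
      · have : ((G.slift u1 u2 v1 v2 M).filter fun d => G.pi d = w) = {v2} := by
          ext d
          simp only [mem_filter, mem_singleton]
          constructor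
          · rintro ⟨hd, hp⟩
            rcases hmem d hd with hd | ⟨_, hd | hd⟩ | ⟨hc', _⟩
            · exact absurd (hp.trans wv) (hns d hd).2
            · exfalso; rw [hd, h.pu2, wv] at hp; exact h.hsv hp
            · exact hd
            · exact absurd hc hc'
          · intro e; rw [e]; exact ⟨hS.2.2.2.1.2 hc, by rw [h.pv2, wv]⟩
        rw [this, card_singleton]
      · have : ((G.slift u1 u2 v1 v2 M).filter fun d => G.pi d = w) = {v1} := by
          ext d
          simp only [mem_filter, mem_singleton]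
          constructor
          · rintro ⟨hd, hp⟩
            rcases hmem d hd with hd | ⟨hc', _⟩ | ⟨_, hd | hd⟩
            · exact absurd (hp.trans wv) (hns d hd).2
            · exact absurd hc' hc
            · exfalso; rw [hd, h.pu1, wv] at hp; exact h.hsv hp
            · exact hd
          · intro e; rw [e]; exact ⟨hS.2.2.1.2 hc, wv.symm⟩
        rw [this, card_singleton]
    · have hw' : w ∈ h.step.vs := by
        rw [h.lx_vs, mem_sdiff]
        refine ⟨hw, ?_⟩
        simp only [mem_insert, mem_singleton, not_or]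
        exact ⟨ws, wv⟩
      have h1 := hM.one w hw'
      rw [h.lx_pi] at h1
      have : ((G.slift u1 u2 v1 v2 M).filter fun d => G.pi d = w) =
          (M.filter fun d => G.pi d = w) := by
        ext d
        simp only [mem_filter]
        constructor
        · rintro ⟨hd, hp⟩
          rcases hmem d hd with hd | ⟨_, hd | hd⟩ | ⟨_, hd | hd⟩
          · exact ⟨hd, hp⟩
          · exfalso; rw [hd, h.pu2] at hp; exact ws hp.symm
          · exfalso; rw [hd, h.pv2] at hp; exact wv hp.symm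
          · exfalso; rw [hd, h.pu1] at hp; exact ws hp.symm
          · exfalso; rw [hd] at hp; exact wv hp.symm
        · rintro ⟨hd, hp⟩; exact ⟨hsubM hd, hp⟩
      rw [this]; exact h1

/-- cuts: an odd cut in the lifted matching comes from one in `M` -/
lemma SD.slift_bd {M : Finset D} (hM : h.step.IsPM M) {Z : Finset V} (hZ : Z ⊆ h.step.vs)
    (hs : G.bd Z ⊆ G.slift u1 u2 v1 v2 M) : G.pi (G.al v3) ∉ Z ∧ h.step.bd Z ⊆ M := by
  obtain ⟨hv1, hu2, hv2, hv3, f1, f2, f3, f4, f5, f6⟩ := h.lx_facts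
  have hS := h.slift_s hM
  have hzs : G.pi σ ∉ Z := by
    intro e
    have := hZ e
    rw [h.lx_vs, mem_sdiff] at this
    exact this.2 (mem_insert_self _ _)
  have hzv : G.pi v1 ∉ Z := by
    intro e
    have := hZ e
    rw [h.lx_vs, mem_sdiff] at this
    exact this.2 (mem_insert_of_mem (mem_singleton_self _))
  have hc3 : G.pi (G.al v3) ∉ Z := by
    intro e
    have : G.al v3 ∈ G.bd Z := by
      rw [mem_bd]
      refine ⟨G.al_mem _ h.mv3, e, ?_⟩
      rw [hv3, h.pv3]; exact hzv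
    exact (h.slift_c hM).2 (hs this)
  refine ⟨hc3, ?_⟩
  intro d hd
  rw [mem_bd, h.lx_pi] at hd
  obtain ⟨hds, hdz, hdn⟩ := hd
  have hn := h.lx_not hds
  by_cases k1 : d = G.al u2
  · have : G.al u2 ∈ G.bd Z := by
      rw [mem_bd]
      refine ⟨G.al_mem _ h.mu2, k1 ▸ hdz, ?_⟩
      rw [hu2, h.pu2]; exact hzs
    rw [k1]
    exact hS.2.2.2.2.1.1 (hs this)
  by_cases k2 : d = G.al v2
  · have : G.al v2 ∈ G.bd Z := by
      rw [mem_bd]
      refine ⟨G.al_mem _ h.mv2, k2 ▸ hdz, ?_⟩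
      rw [hv2, h.pv2]; exact hzv
    rw [k2]
    exact hS.2.2.2.2.2.2.2 (hS.2.2.2.2.2.1.1 (hs this))
  by_cases k3 : d = G.al v3
  · exact absurd (k3 ▸ hdz) hc3
  · rw [h.lx_al_else k1 k2 k3] at hdn
    have hb : d ∈ G.bd Z := by rw [mem_bd]; exact ⟨hn.1, hdz, hdn⟩
    have := hs hb
    unfold slift at this
    by_cases hc : G.al u2 ∈ M
    · rw [if_pos hc] at this
      simp only [mem_union, mem_insert, mem_singleton] at this
      rcases this with e | e | e
      · exact e
      · exact absurd e hn.2.2.2.1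
      · exact absurd e hn.2.2.2.2.2.1
    · rw [if_neg hc] at this
      simp only [mem_union, mem_insert, mem_singleton] at this
      rcases this with e | e | e
      · exact e
      · exact absurd e hn.2.2.1
      · exact absurd e hn.2.2.2.2.1

end JP.CG
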