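import Pool.Agent.Lib.JP.Kill

/-! Live cuts (S5, MP_c95763_co): the cut function of the graph in which a set `A` of darts
(closed under `al`) is killed, parity, the mod 3 law, joined structures of minimal size. -/

set_option autoImplicit false

namespace JP.CG

open Finset Classical

variable {V D : Type*} (G : CG V D)

/-- live boundary darts (edges to the root included) -/
noncomputable def lv (A : Finset D) (X : Finset V) : Finset D := (G.bd X ∪ G.tk X) \ A

/-- the live degree of a vertex set, the root is always outside -/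
noncomputable def m (A : Finset D) (X : Finset V) : ℕ := (G.lv A X).card

/-- live darts from `X` to `Y` -/
noncomputable def le (A : Finset D) (X Y : Finset V) : Finset D := G.ed X Y \ A

lemma mem_lv {A : Finset D} {X : Finset V} {d : D} : d ∈ G.lv A X ↔
    d ∈ G.ds ∧ G.pi d ∈ X ∧ (G.pi (G.al d) ∉ X ∨ G.al d = d) ∧ d ∉ A := by
  unfold lv
  rw [mem_sdiff, mem_union, mem_bd, mem_tk]
  tauto

lemma mem_le {A : Finset D} {X Y : Finset V} {d : D} : d ∈ G.le A X Y ↔
    d ∈ G.ds ∧ G.pi d ∈ X ∧ G.pi (G.al d) ∈ Y ∧ d ∉ A := by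
  unfold le
  rw [mem_sdiff, mem_ed]
  tauto

lemma lv_sub (A : Finset D) (X : Finset V) : G.lv A X ⊆ G.ds := fun _ hd => ((G.mem_lv).1 hd).1

/-- killing fewer edges does not lower live degrees -/
lemma m_mono {A B : Finset D} (h : A ⊆ B) (X : Finset V) : G.m B X ≤ G.m A X :=
  card_le_card fun _ hd => by
    rw [mem_lv] at hd ⊢
    exact ⟨hd.1, hd.2.1, hd.2.2.1, fun hA => hd.2.2.2 (h hA)⟩

lemma m_empty (A : Finset D) : G.m A ∅ = 0 := by
  unfold m
  rw [card_eq_zero]
  ext d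
  rw [mem_lv]
  simp

section cut

variable {A : Finset D} (hcl : ∀ d ∈ A, G.al d ∈ A)

include hcl in
/-- reindexing along the involution outside `A` -/
lemma sum_al_off (f : D → ℕ) : ∑ d ∈ G.ds \ A, f (G.al d) = ∑ d ∈ G.ds \ A, f d := by
  have h : ∀ d ∈ G.ds \ A, G.al d ∈ G.ds \ A := by
    intro d hd
    rw [mem_sdiff] at hd ⊢
    refine ⟨G.al_mem d hd.1, fun h => hd.2 ?_⟩
    have := hcl _ h
    rwa [G.al_al d hd.1] at this
  exact Finset.sum_nbij' G.al G.al h h (fun d hd => G.al_al d (mem_sdiff.1 hd).1)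
    (fun d hd => G.al_al d (mem_sdiff.1 hd).1) (fun _ _ => rfl)

lemma m_eq_sum (A : Finset D) (X : Finset V) : G.m A X =
    ∑ d ∈ G.ds \ A, if G.pi d ∈ X ∧ (G.pi (G.al d) ∉ X ∨ G.al d = d) then 1 else 0 := by
  rw [← card_filter]
  unfold m
  congr 1
  ext d
  rw [mem_lv, mem_filter, mem_sdiff]
  tauto

lemma le_eq_sum (A : Finset D) (X Y : Finset V) : (G.le A X Y).card =
    ∑ d ∈ G.ds \ A, if G.pi d ∈ X ∧ G.pi (G.al d) ∈ Y then 1 else 0 := by
  rw [← card_filter]
  congr 1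
  ext d
  rw [mem_le, mem_filter, mem_sdiff]
  tauto

include hcl in
lemma le_comm (X Y : Finset V) : (G.le A X Y).card = (G.le A Y X).card := by
  rw [le_eq_sum, le_eq_sum,
    ← G.sum_al_off hcl fun d => if G.pi d ∈ Y ∧ G.pi (G.al d) ∈ X then 1 else 0]
  refine Finset.sum_congr rfl fun d hd => ?_
  rw [G.al_al d (mem_sdiff.1 hd).1]
  by_cases h1 : G.pi d ∈ X <;> by_cases h2 : G.pi (G.al d) ∈ Y <;> simp [h1, h2]

include hcl in
/-- uncrossing, first form -/
lemma m_submod (X Y : Finset V) :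
    G.m A (X ∩ Y) + G.m A (X ∪ Y) + 2 * (G.le A (X \ Y) (Y \ X)).card = G.m A X + G.m A Y := by
  have hc := G.le_comm hcl (X \ Y) (Y \ X)
  have h : G.m A (X ∩ Y) + G.m A (X ∪ Y) + (G.le A (X \ Y) (Y \ X)).card +
      (G.le A (Y \ X) (X \ Y)).card = G.m A X + G.m A Y := by
    simp only [m_eq_sum, le_eq_sum, ← Finset.sum_add_distrib]
    refine Finset.sum_congr rfl fun d _ => ?_
    by_cases h0 : G.al d = d
    · by_cases h1 : G.pi d ∈ X <;> by_cases h2 : G.pi d ∈ Y <;> simp [h0, h1, h2]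
    · by_cases h1 : G.pi d ∈ X <;> by_cases h2 : G.pi d ∈ Y <;>
        by_cases h3 : G.pi (G.al d) ∈ X <;> by_cases h4 : G.pi (G.al d) ∈ Y <;>
        simp [h0, h1, h2, h3, h4]
  omega

lemma m_submod_le {A : Finset D} (hcl : ∀ d ∈ A, G.al d ∈ A) (X Y : Finset V) :
    G.m A (X ∩ Y) + G.m A (X ∪ Y) ≤ G.m A X + G.m A Y := by
  have := G.m_submod hcl X Y
  omega

include hcl in
/-- uncrossing, second form -/
lemma m_posimod {X Y : Finset V} (hX : X ⊆ G.vs) (hY : Y ⊆ G.vs) :
    G.m A (X \ Y) + G.m A (Y \ X) + 2 * (G.le A (X ∩ Y) (G.vs \ (X ∪ Y))).card +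
      2 * ((G.tk (X ∩ Y)) \ A).card = G.m A X + G.m A Y := by
  have hc1 := G.le_comm hcl (X ∩ Y) (X \ Y)
  have hc2 := G.le_comm hcl (X ∩ Y) (Y \ X)
  have ht : ((G.tk (X ∩ Y)) \ A).card =
      ∑ d ∈ G.ds \ A, if G.pi d ∈ X ∧ G.pi d ∈ Y ∧ G.al d = d then 1 else 0 := by
    rw [← card_filter]
    congr 1
    ext d
    rw [mem_sdiff, mem_tk, mem_inter, mem_filter, mem_sdiff]
    tauto
  have hX' : G.m A (X \ Y) + G.m A (Y \ X) + 2 * (G.le A (X ∩ Y) (G.vs \ (X ∪ Y))).card
      + 2 * ((G.tk (X ∩ Y)) \ A).card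
      + (G.le A (X ∩ Y) (X \ Y)).card + (G.le A (X ∩ Y) (Y \ X)).card
      = G.m A X + G.m A Y + (G.le A (X \ Y) (X ∩ Y)).card
        + (G.le A (Y \ X) (X ∩ Y)).card := by
    simp only [ht, m_eq_sum, le_eq_sum, Finset.mul_sum, ← Finset.sum_add_distrib]
    refine Finset.sum_congr rfl fun d hd => ?_
    have hv : G.pi (G.al d) ∈ G.vs := G.pi_mem _ (G.al_mem d (mem_sdiff.1 hd).1)
    have hv' : G.pi d ∈ G.vs := G.pi_mem _ (mem_sdiff.1 hd).1
    by_cases h0 : G.al d = d
    · by_cases h1 : G.pi d ∈ X <;> by_cases h2 : G.pi d ∈ Y <;> simp [h0, h1, h2, hv']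
    · by_cases h1 : G.pi d ∈ X <;> by_cases h2 : G.pi d ∈ Y <;>
        by_cases h3 : G.pi (G.al d) ∈ X <;> by_cases h4 : G.pi (G.al d) ∈ Y <;>
        simp [h0, h1, h2, h3, h4, hv]
  omega

/-- disjoint sets -/
lemma m_union {A : Finset D} (hcl : ∀ d ∈ A, G.al d ∈ A) {X Y : Finset V} (h : Disjoint X Y) :
    G.m A (X ∪ Y) + 2 * (G.le A X Y).card = G.m A X + G.m A Y := by
  have h1 := G.m_submod hcl X Y
  rw [disjoint_iff_inter_eq_empty.1 h, G.m_empty, sdiff_eq_self_of_disjoint h,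
    sdiff_eq_self_of_disjoint h.symm] at h1
  omega

end cut

/-- **the mod 3 law**: if all inner edges of `Z` are bichromatic then `dg Z ≠ 1` -/
theorem mod3 (G : CG V D) {Z E : Finset V} (hZ : Z ⊆ G.vs)
    (h : ∀ d ∈ G.ds, G.pi d ∈ Z → G.pi (G.al d) ∈ Z → G.al d ≠ d →
      (G.pi d ∈ E ↔ G.pi (G.al d) ∉ E)) : G.dg Z ≠ 1 := by
  intro h1
  -- inner darts at `E` and at the rest of `Z` are exchanged by `al`
  have hin : ((G.ds.filter fun d => G.pi d ∈ Z ∧ G.pi (G.al d) ∈ Z ∧ G.al d ≠ d ∧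
      G.pi d ∈ E)).card = ((G.ds.filter fun d => G.pi d ∈ Z ∧ G.pi (G.al d) ∈ Z ∧ G.al d ≠ d ∧
      G.pi d ∉ E)).card := by
    apply Finset.card_nbij' G.al G.al
    · intro d hd
      simp only [coe_filter, Set.mem_setOf_eq] at hd ⊢
      obtain ⟨a, b, c, e, f⟩ := hd
      refine ⟨G.al_mem d a, c, ?_, ?_, (h d a b c e).1 f⟩
      · rw [G.al_al d a]; exact b
      · rw [G.al_al d a]; exact fun h => e h.symm
    · intro d hd
      simp only [coe_filter, Set.mem_setOf_eq] at hd ⊢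
      obtain ⟨a, b, c, e, f⟩ := hd
      refine ⟨G.al_mem d a, c, ?_, ?_, ?_⟩
      · rw [G.al_al d a]; exact b
      · rw [G.al_al d a]; exact fun h => e h.symm
      · by_contra hc; exact f ((h d a b c e).2 hc)
    · intro d hd
      simp only [coe_filter, Set.mem_setOf_eq] at hd
      exact G.al_al d hd.1
    · intro d hd
      simp only [coe_filter, Set.mem_setOf_eq] at hd
      exact G.al_al d hd.1
  have hE := G.card_darts (X := Z ∩ E) (inter_subset_left.trans hZ)
  have hO := G.card_darts (X := Z \ E) (sdiff_subset.trans hZ)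
  have sE : (G.ds.filter fun d => G.pi d ∈ Z ∩ E).card =
      ((G.ds.filter fun d => G.pi d ∈ Z ∧ G.pi (G.al d) ∈ Z ∧ G.al d ≠ d ∧ G.pi d ∈ E)).card +
      ((G.bd Z ∪ G.tk Z).filter fun d => G.pi d ∈ E).card := by
    rw [← card_union_of_disjoint]
    · congr 1
      ext d
      simp only [mem_filter, mem_union, mem_bd, mem_tk, mem_inter]
      tauto
    · rw [disjoint_left]
      intro d h1 h2
      simp only [mem_filter, mem_union, mem_bd, mem_tk] at h1 h2
      tauto
  have sO : (G.ds.filter fun d => G.pi d ∈ Z \ E).card =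
      ((G.ds.filter fun d => G.pi d ∈ Z ∧ G.pi (G.al d) ∈ Z ∧ G.al d ≠ d ∧ G.pi d ∉ E)).card +
      ((G.bd Z ∪ G.tk Z).filter fun d => G.pi d ∉ E).card := by
    rw [← card_union_of_disjoint]
    · congr 1
      ext d
      simp only [mem_filter, mem_union, mem_bd, mem_tk, mem_sdiff]
      tauto
    · rw [disjoint_left]
      intro d h1 h2
      simp only [mem_filter, mem_union, mem_bd, mem_tk] at h1 h2
      tauto
  have hs : ((G.bd Z ∪ G.tk Z).filter fun d => G.pi d ∈ E).card +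
      ((G.bd Z ∪ G.tk Z).filter fun d => G.pi d ∉ E).card = 1 := by
    rw [Finset.card_filter_add_card_filter_not, ← G.dg_eq_card_union, h1]
  omega

namespace KD

variable {G} {A : Finset D} {al' p : D → D}

/-- killed darts at `X` which become tokens -/
noncomputable def fx (G : CG V D) (A : Finset D) (al' : D → D) (X : Finset V) : ℕ :=
  (A.filter fun d => G.pi d ∈ X ∧ al' d = d).card

/-- the killed structure has no bad set -/
def NoBad (G : CG V D) (A : Finset D) (al' : D → D) : Prop :=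
  ∀ X ⊆ G.vs, Odd X.card → Sat G A al' X → G.m A X + fx G A al' X ≠ 1

lemma dg_sat' (h : G.KD A al' p) {X : Finset V} (hs : Sat G A al' X) :
    h.gr.dg X = G.m A X + fx G A al' X := h.dg_sat hs

/-- parity for saturated sets -/
lemma sat_parity (h : G.KD A al' p) {X : Finset V} (hX : X ⊆ G.vs) (hs : Sat G A al' X) :
    Odd (G.m A X + fx G A al' X) ↔ Odd X.card := by
  rw [← h.dg_sat' hs]
  exact dg_parity h.gr hX

/-- no bad set: the new graph is bridgeless -/
lemma b0_of_noBad (h : G.KD A al' p) (hn : NoBad G A al') : h.gr.B0 := by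
  refine h.b0 fun X hX ho hs => ?_
  have h1 := (h.sat_parity hX hs).2 ho
  have h2 := hn X hX ho hs
  have h3 : G.m A X + fx G A al' X = ((G.bd X ∪ G.tk X) \ A).card +
      (A.filter fun d => G.pi d ∈ X ∧ al' d = d).card := rfl
  rw [← h3]
  rcases h1 with ⟨k, hk⟩
  omega

/-- conversely -/
lemma noBad_of_b0 (h : G.KD A al' p) (hb : h.gr.B0) : NoBad G A al' := by
  intro X hX ho hs h1
  have := hb X hX ho
  rw [h.dg_sat' hs] at this
  omega

end KD

end JP.CG
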