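import Pool.Agent.Lib.JP.Tok
import Pool.Agent.Lib.JP.Beta
import Pool.Agent.Lib.JP.GlueA

/-! Minimal counterexamples to the main theorem (S5, MP_c95763_co). -/

set_option autoImplicit false

namespace JP.CG

open Finset Classical

variable {V D : Type*}

/-- a minimal counterexample: smallest number of vertices, exactly four tokens, then `K` maximal -/
structure MC (G : CG V D) (K : Finset V) (F : Finset D) : Prop where
  inst : G.Inst K F
  four : (G.tk G.vs).card = 4
  ih : IH G.vs.card V D
  no : ¬ ∃ M, G.Good K F M
  abs : ∀ c ∈ G.vs, c ∉ K → G.Inst (insert c K) F → ∃ M, G.Good (insert c K) F M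

/-- if there is no minimal counterexample then the main theorem holds -/
theorem main_of (h : ∀ (G : CG V D) (K : Finset V) (F : Finset D), ¬ G.MC K F)
    (G : CG V D) (K : Finset V) (F : Finset D) (hI : G.Inst K F) : ∃ M, G.Good K F M := by
  have key : ∀ n : ℕ, ∀ (G : CG V D) (K : Finset V) (F : Finset D), G.vs.card = n → G.Inst K F →
      ∃ M, G.Good K F M := by
    intro n
    induction n using Nat.strong_induction_on with
    | _ n ih =>
      intro G K F hn hI
      refine G.four_suffices hI ?_
      intro G' K' F' hvs hI' h4
      have hIH : IH G'.vs.card V D := by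
        intro G'' K'' F'' hlt hI''
        exact ih G''.vs.card (by rw [hvs, hn] at hlt; exact hlt) G'' K'' F'' rfl hI''
      have key2 : ∀ m : ℕ, ∀ K' : Finset V, (G'.vs \ K').card = m → G'.Inst K' F' →
          ∃ M, G'.Good K' F' M := by
        intro m
        induction m using Nat.strong_induction_on with
        | _ m ih2 =>
          intro K' hm hI'
          by_contra hno
          refine h G' K' F' ⟨hI', h4, hIH, hno, ?_⟩
          intro c hc hcK hIc
          refine ih2 _ ?_ (insert c K') rfl hIc
          rw [← hm]
          apply Finset.card_lt_card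
          refine ⟨fun v hv => ?_, fun hh => ?_⟩
          · rw [mem_sdiff, mem_insert, not_or] at hv
            exact mem_sdiff.2 ⟨hv.1, hv.2.2⟩
          · have := hh (mem_sdiff.2 ⟨hc, hcK⟩)
            rw [mem_sdiff, mem_insert, not_or] at this
            exact this.2.1 rfl
      exact key2 _ K' rfl hI'
  exact key _ G K F rfl hI

end JP.CG
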