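import Pool.Agent.Lib.JP.Cut

/-! The step: the token moves from `s` over the edge `sv` to the vertex `c`.

Darts at `s`: the token `σ`, `u1` (edge to `v`), `u2` (edge to `b`). Darts at `v`: `v1 = al u1`,
`v2` (edge to `d`), `v3` (edge to `c`). The vertices `s`, `v` are deleted, the darts `al u2` (at `b`)
and `al v2` (at `d`) are joined to a live edge, the dart `al v3` (at `c`) becomes a token. -/

set_option autoImplicit false

namespace JP.CG

open Finset Classical

variable {V D : Type*} (G : CG V D)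

/-- the data of a step -/
structure SD (σ u1 u2 v1 v2 v3 : D) : Prop where
  mσ : σ ∈ G.ds
  mu1 : u1 ∈ G.ds
  mu2 : u2 ∈ G.ds
  mv1 : v1 ∈ G.ds
  mv2 : v2 ∈ G.ds
  mv3 : v3 ∈ G.ds
  tσ : G.al σ = σ
  pu1 : G.pi u1 = G.pi σ
  pu2 : G.pi u2 = G.pi σ
  pv2 : G.pi v2 = G.pi v1
  pv3 : G.pi v3 = G.pi v1
  hsv : G.pi σ ≠ G.pi v1
  n1 : σ ≠ u1
  n2 : σ ≠ u2
  n3 : u1 ≠ u2
  n4 : v1 ≠ v2
  n5 : v1 ≠ v3
  n6 : v2 ≠ v3
  e1 : G.al u1 = v1
  a2 : G.al u2 ≠ u2
  b2 : G.al v2 ≠ v2
  b3 : G.al v3 ≠ v3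
  c2 : G.al u2 ≠ v2
  c3 : G.al u2 ≠ v3
  d2 : G.al v2 ≠ v3

/-- the degree of a set, by one filter -/
lemma dg_eq_filter (X : Finset V) : G.dg X =
    (G.ds.filter fun d => G.pi d ∈ X ∧ (G.pi (G.al d) ∉ X ∨ G.al d = d)).card := by
  unfold dg
  rw [← card_union_of_disjoint]
  · congr 1
    ext d
    simp only [mem_union, mem_bd, mem_tk, mem_filter]
    tauto
  · rw [disjoint_left]
    intro d h1 h2
    rw [mem_bd] at h1
    rw [mem_tk] at h2
    rw [h2.2.2] at h1
    exact h1.2.2 h1.2.1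

lemma mem_ite_singleton {c : Prop} [Decidable c] {x d : D} :
    d ∈ (if c then ({x} : Finset D) else ∅) ↔ c ∧ d = x := by
  split_ifs with hc
  · simp [hc]
  · simp [hc]

variable {G} {σ u1 u2 v1 v2 v3 : D}

/-- all darts at `s` and `v` -/
lemma SD.darts (h : G.SD σ u1 u2 v1 v2 v3) {d : D} (hd : d ∈ G.ds) :
    (G.pi d = G.pi σ ↔ d = σ ∨ d = u1 ∨ d = u2) ∧
      (G.pi d = G.pi v1 ↔ d = v1 ∨ d = v2 ∨ d = v3) := by
  have e1 : ({σ, u1, u2} : Finset D) = G.ds.filter fun d => G.pi d = G.pi σ := by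
    apply eq_of_subset_of_card_le
    · intro x hx
      simp only [mem_insert, mem_singleton] at hx
      rw [mem_filter]
      rcases hx with rfl | rfl | rfl
      · exact ⟨h.mσ, rfl⟩
      · exact ⟨h.mu1, h.pu1⟩
      · exact ⟨h.mu2, h.pu2⟩
    · rw [G.cubic _ (G.pi_mem _ h.mσ), card_eq_three.2 ⟨σ, u1, u2, h.n1, h.n2, h.n3, rfl⟩]
  have e2 : ({v1, v2, v3} : Finset D) = G.ds.filter fun d => G.pi d = G.pi v1 := by
    apply eq_of_subset_of_card_le
    · intro x hx
      simp only [mem_insert, mem_singleton] at hx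
      rw [mem_filter]
      rcases hx with rfl | rfl | rfl
      · exact ⟨h.mv1, rfl⟩
      · exact ⟨h.mv2, h.pv2⟩
      · exact ⟨h.mv3, h.pv3⟩
    · rw [G.cubic _ (G.pi_mem _ h.mv1), card_eq_three.2 ⟨v1, v2, v3, h.n4, h.n5, h.n6, rfl⟩]
  constructor
  · constructor
    · intro hp
      have : d ∈ ({σ, u1, u2} : Finset D) := by rw [e1, mem_filter]; exact ⟨hd, hp⟩
      simpa only [mem_insert, mem_singleton] using this
    · rintro (rfl | rfl | rfl)
      · rfl
      · exact h.pu1
      · exact h.pu2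
  · constructor
    · intro hp
      have : d ∈ ({v1, v2, v3} : Finset D) := by rw [e2, mem_filter]; exact ⟨hd, hp⟩
      simpa only [mem_insert, mem_singleton] using this
    · rintro (rfl | rfl | rfl)
      · rfl
      · exact h.pv2
      · exact h.pv3

lemma SD.al_v1 (h : G.SD σ u1 u2 v1 v2 v3) : G.al v1 = u1 := by
  rw [← h.e1, G.al_al _ h.mu1]

/-- the outer darts are not at `s`, `v` -/
lemma SD.out0 (h : G.SD σ u1 u2 v1 v2 v3) :
    (G.al u2 ≠ σ ∧ G.al u2 ≠ u1 ∧ G.al u2 ≠ u2 ∧ G.al u2 ≠ v1 ∧ G.al u2 ≠ v2 ∧ G.al u2 ≠ v3) ∧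
    (G.al v2 ≠ σ ∧ G.al v2 ≠ u1 ∧ G.al v2 ≠ u2 ∧ G.al v2 ≠ v1 ∧ G.al v2 ≠ v2 ∧ G.al v2 ≠ v3) ∧
    (G.al v3 ≠ σ ∧ G.al v3 ≠ u1 ∧ G.al v3 ≠ u2 ∧ G.al v3 ≠ v1 ∧ G.al v3 ≠ v2 ∧ G.al v3 ≠ v3) := by
  have key : ∀ x ∈ G.ds, ∀ y ∈ G.ds, G.al x = y → x = G.al y := by
    intro x hx y hy hxy
    rw [← hxy, G.al_al _ hx]
  have hu2 := h.mu2
  have hv2 := h.mv2
  have hv3 := h.mv3
  refine ⟨⟨?_, ?_, h.a2, ?_, h.c2, h.c3⟩, ⟨?_, ?_, ?_, ?_, h.b2, h.d2⟩,
    ⟨?_, ?_, ?_, ?_, ?_, h.b3⟩⟩
  · intro e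
    have := key _ hu2 _ h.mσ e
    rw [h.tσ] at this
    exact h.n2 this.symm
  · intro e
    have := key _ hu2 _ h.mu1 e
    rw [h.e1] at this
    exact h.hsv (by rw [← this, h.pu2])
  · intro e
    have := key _ hu2 _ h.mv1 e
    rw [h.al_v1] at this
    exact h.n3 this.symm
  · intro e
    have := key _ hv2 _ h.mσ e
    rw [h.tσ] at this
    exact h.hsv (by rw [← this, h.pv2])
  · intro e
    have := key _ hv2 _ h.mu1 e
    rw [h.e1] at this
    exact h.n4 this.symm
  · intro e
    exact h.c2 (key _ hv2 _ h.mu2 e).symm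
  · intro e
    have := key _ hv2 _ h.mv1 e
    rw [h.al_v1] at this
    exact h.hsv (by rw [← h.pu1, ← this, h.pv2])
  · intro e
    have := key _ hv3 _ h.mσ e
    rw [h.tσ] at this
    exact h.hsv (by rw [← this, h.pv3])
  · intro e
    have := key _ hv3 _ h.mu1 e
    rw [h.e1] at this
    exact h.n5 this.symm
  · intro e
    exact h.c3 (key _ hv3 _ h.mu2 e).symm
  · intro e
    have := key _ hv3 _ h.mv1 e
    rw [h.al_v1] at this
    exact h.hsv (by rw [← h.pu1, ← this, h.pv3])
  · intro e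
    exact h.d2 (key _ hv3 _ h.mv2 e).symm

lemma SD.ne0 (h : G.SD σ u1 u2 v1 v2 v3) :
    G.al u2 ≠ G.al v2 ∧ G.al u2 ≠ G.al v3 ∧ G.al v2 ≠ G.al v3 := by
  have inj : ∀ x ∈ G.ds, ∀ y ∈ G.ds, G.al x = G.al y → x = y := by
    intro x hx y hy hxy
    rw [← G.al_al _ hx, hxy, G.al_al _ hy]
  refine ⟨fun e => ?_, fun e => ?_, fun e => h.n6 (inj _ h.mv2 _ h.mv3 e)⟩
  · have := inj _ h.mu2 _ h.mv2 e
    exact h.hsv (by rw [← h.pu2, this, h.pv2])
  · have := inj _ h.mu2 _ h.mv3 e
    exact h.hsv (by rw [← h.pu2, this, h.pv3])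

lemma SD.mem_ds (h : G.SD σ u1 u2 v1 v2 v3) {d : D} :
    d ∈ G.ds \ {σ, u1, u2, v1, v2, v3} ↔
      d ∈ G.ds ∧ G.pi d ≠ G.pi σ ∧ G.pi d ≠ G.pi v1 := by
  rw [mem_sdiff]
  simp only [mem_insert, mem_singleton]
  constructor
  · rintro ⟨hd, hn⟩
    obtain ⟨q1, q2⟩ := h.darts hd
    refine ⟨hd, fun e => ?_, fun e => ?_⟩
    · have := q1.1 e; tauto
    · have := q2.1 e; tauto
  · rintro ⟨hd, n1, n2⟩
    obtain ⟨q1, q2⟩ := h.darts hd
    refine ⟨hd, ?_⟩
    have n1' := fun e => n1 (q1.2 e)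
    have n2' := fun e => n2 (q2.2 e)
    tauto

/-- the graph after the step -/
noncomputable def SD.step (h : G.SD σ u1 u2 v1 v2 v3) : CG V D where
  vs := G.vs \ {G.pi σ, G.pi v1}
  ds := G.ds \ {σ, u1, u2, v1, v2, v3}
  pi := G.pi
  al := fun d => if d = G.al u2 then G.al v2 else if d = G.al v2 then G.al u2 else
    if d = G.al v3 then G.al v3 else G.al d
  pi_mem := by
    intro d hd
    rw [h.mem_ds] at hd
    rw [mem_sdiff]
    refine ⟨G.pi_mem _ hd.1, ?_⟩
    simp only [mem_insert, mem_singleton]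
    tauto
  al_mem := by
    intro d hd
    have ho := h.out0
    obtain ⟨o1, o2, o3⟩ := ho
    have m : ∀ x ∈ G.ds, (x ≠ σ ∧ x ≠ u1 ∧ x ≠ u2 ∧ x ≠ v1 ∧ x ≠ v2 ∧ x ≠ v3) →
        x ∈ G.ds \ {σ, u1, u2, v1, v2, v3} := by
      intro x hx hh
      rw [mem_sdiff]
      simp only [mem_insert, mem_singleton]
      tauto
    show (if d = G.al u2 then G.al v2 else if d = G.al v2 then G.al u2 else
      if d = G.al v3 then G.al v3 else G.al d) ∈ G.ds \ {σ, u1, u2, v1, v2, v3}
    split_ifs with q1 q2 q3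
    · exact m _ (G.al_mem _ h.mv2) o2
    · exact m _ (G.al_mem _ h.mu2) o1
    · exact m _ (G.al_mem _ h.mv3) o3
    · have hd' := hd
      rw [mem_sdiff] at hd
      simp only [mem_insert, mem_singleton] at hd
      have hdm := hd.1
      have back : ∀ y, G.al d = y → d = G.al y := fun y hy => by rw [← hy, G.al_al _ hdm]
      apply m _ (G.al_mem _ hdm)
      refine ⟨fun e => ?_, fun e => ?_, fun e => q1 (back _ e), fun e => ?_,
        fun e => q2 (back _ e), fun e => q3 (back _ e)⟩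
      · have := back _ e
        rw [h.tσ] at this
        tauto
      · have := back _ e
        rw [h.e1] at this
        tauto
      · have := back _ e
        rw [h.al_v1] at this
        tauto
  al_al := by
    intro d hd
    obtain ⟨e1, e2, e3⟩ := h.ne0
    have hdm : d ∈ G.ds := (mem_sdiff.1 hd).1
    have hdn := (mem_sdiff.1 hd).2
    simp only [mem_insert, mem_singleton] at hdn
    by_cases q1 : d = G.al u2
    · simp only [q1, if_true, if_neg e1.symm]
    · by_cases q2 : d = G.al v2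
      · simp only [q2, if_true, if_neg e1.symm]
      · by_cases q3 : d = G.al v3
        · simp only [q3, if_true, if_neg e2.symm, if_neg e3.symm]
        · have r1 : G.al d ≠ G.al u2 := fun e => hdn (by
            have : d = u2 := by rw [← G.al_al _ hdm, e, G.al_al _ h.mu2]
            tauto)
          have r2 : G.al d ≠ G.al v2 := fun e => hdn (by
            have : d = v2 := by rw [← G.al_al _ hdm, e, G.al_al _ h.mv2]
            tauto)
          have r3 : G.al d ≠ G.al v3 := fun e => hdn (by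
            have : d = v3 := by rw [← G.al_al _ hdm, e, G.al_al _ h.mv3]
            tauto)
          simp only [if_neg q1, if_neg q2, if_neg q3, if_neg r1, if_neg r2, if_neg r3]
          exact G.al_al _ hdm
  cubic := by
    intro w hw
    rw [mem_sdiff] at hw
    simp only [mem_insert, mem_singleton] at hw
    rw [← G.cubic w hw.1]
    congr 1
    ext d
    rw [mem_filter, mem_filter, h.mem_ds]
    constructor
    · rintro ⟨⟨a, _, _⟩, b⟩
      exact ⟨a, b⟩
    · rintro ⟨a, b⟩
      refine ⟨⟨a, ?_, ?_⟩, b⟩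
      · rw [b]; tauto
      · rw [b]; tauto

variable (h : G.SD σ u1 u2 v1 v2 v3)
include h

lemma SD.step_ds {d : D} : d ∈ h.step.ds ↔ d ∈ G.ds ∧ G.pi d ≠ G.pi σ ∧ G.pi d ≠ G.pi v1 :=
  h.mem_ds

lemma SD.step_vs {w : V} : w ∈ h.step.vs ↔ w ∈ G.vs ∧ w ≠ G.pi σ ∧ w ≠ G.pi v1 := by
  show w ∈ G.vs \ {G.pi σ, G.pi v1} ↔ _
  rw [mem_sdiff]
  simp only [mem_insert, mem_singleton]
  tauto

lemma SD.step_pi : h.step.pi = G.pi := rfl

lemma SD.step_al1 : h.step.al (G.al u2) = G.al v2 := by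
  show (if G.al u2 = G.al u2 then G.al v2 else _) = _
  rw [if_pos rfl]

lemma SD.step_al2 : h.step.al (G.al v2) = G.al u2 := by
  obtain ⟨e1, e2, e3⟩ := h.ne0
  show (if G.al v2 = G.al u2 then G.al v2 else if G.al v2 = G.al v2 then G.al u2 else _) = _
  rw [if_neg e1.symm, if_pos rfl]

lemma SD.step_al3 : h.step.al (G.al v3) = G.al v3 := by
  obtain ⟨e1, e2, e3⟩ := h.ne0
  show (if G.al v3 = G.al u2 then G.al v2 else if G.al v3 = G.al v2 then G.al u2 else
    if G.al v3 = G.al v3 then G.al v3 else _) = _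
  rw [if_neg e2.symm, if_neg e3.symm, if_pos rfl]

lemma SD.step_al4 {d : D} (q1 : d ≠ G.al u2) (q2 : d ≠ G.al v2) (q3 : d ≠ G.al v3) :
    h.step.al d = G.al d := by
  show (if d = G.al u2 then G.al v2 else if d = G.al v2 then G.al u2 else
    if d = G.al v3 then G.al v3 else G.al d) = _
  rw [if_neg q1, if_neg q2, if_neg q3]

/-- the outer vertices are not `s`, `v` -/
lemma SD.pout : (G.pi (G.al u2) ≠ G.pi σ ∧ G.pi (G.al u2) ≠ G.pi v1) ∧
    (G.pi (G.al v2) ≠ G.pi σ ∧ G.pi (G.al v2) ≠ G.pi v1) ∧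
    (G.pi (G.al v3) ≠ G.pi σ ∧ G.pi (G.al v3) ≠ G.pi v1) := by
  obtain ⟨o1, o2, o3⟩ := h.out0
  have m1 := h.darts (G.al_mem _ h.mu2)
  have m2 := h.darts (G.al_mem _ h.mv2)
  have m3 := h.darts (G.al_mem _ h.mv3)
  refine ⟨⟨fun e => ?_, fun e => ?_⟩, ⟨fun e => ?_, fun e => ?_⟩, ⟨fun e => ?_, fun e => ?_⟩⟩
  · have := m1.1.1 e; tauto
  · have := m1.2.1 e; tauto
  · have := m2.1.1 e; tauto
  · have := m2.2.1 e; tauto
  · have := m3.1.1 e; tauto
  · have := m3.2.1 e; tauto

/-- the outer darts survive, are pairwise different, and are not at `s`, `v` -/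
lemma SD.outer : G.al u2 ∈ h.step.ds ∧ G.al v2 ∈ h.step.ds ∧ G.al v3 ∈ h.step.ds ∧
    G.al u2 ≠ G.al v2 ∧ G.al u2 ≠ G.al v3 ∧ G.al v2 ≠ G.al v3 := by
  obtain ⟨p1, p2, p3⟩ := h.pout
  refine ⟨h.step_ds.2 ⟨G.al_mem _ h.mu2, p1⟩, h.step_ds.2 ⟨G.al_mem _ h.mv2, p2⟩,
    h.step_ds.2 ⟨G.al_mem _ h.mv3, p3⟩, h.ne0⟩

/-- number of tokens: unchanged -/
lemma SD.tk_card : (h.step.tk h.step.vs).card = (G.tk G.vs).card := by
  obtain ⟨e1, e2, e3⟩ := h.ne0
  obtain ⟨p1, p2, p3⟩ := h.pout
  have key : h.step.tk h.step.vs = insert (G.al v3) ((G.tk G.vs).erase σ) := by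
    ext d
    rw [mem_tk, mem_insert, mem_erase, mem_tk]
    constructor
    · rintro ⟨a, b, c⟩
      have a' := h.step_ds.1 a
      by_cases q3 : d = G.al v3
      · exact Or.inl q3
      · right
        by_cases q1 : d = G.al u2
        · rw [q1, h.step_al1] at c
          exact absurd c.symm e1
        · by_cases q2 : d = G.al v2
          · rw [q2, h.step_al2] at c
            exact absurd c e1
          · rw [h.step_al4 q1 q2 q3] at c
            refine ⟨?_, a'.1, G.pi_mem _ a'.1, c⟩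
            rintro rfl
            exact a'.2.1 rfl
    · rintro (rfl | ⟨n, a, b, c⟩)
      · exact ⟨h.outer.2.2.1, h.step.pi_mem _ h.outer.2.2.1, h.step_al3⟩
      · have hd : d ∈ h.step.ds := by
          rw [h.step_ds]
          refine ⟨a, fun e => ?_, fun e => ?_⟩
          · have := (h.darts a).1.1 e
            rcases this with r | r | r
            · exact n r
            · subst r
              rw [h.e1] at c
              exact h.hsv (by rw [← h.pu1, ← c])
            · subst r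
              exact h.a2 c
          · have := (h.darts a).2.1 e
            rcases this with r | r | r
            · subst r
              rw [h.al_v1] at c
              exact h.hsv (by rw [← h.pu1, c])
            · subst r
              exact h.b2 c
            · subst r
              exact h.b3 c
        refine ⟨hd, h.step.pi_mem _ hd, ?_⟩
        have hds := h.step_ds.1 hd
        rw [h.step_al4, c]
        · rintro rfl
          rw [G.al_al _ h.mu2] at c
          exact h.a2 c.symm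
        · rintro rfl
          rw [G.al_al _ h.mv2] at c
          exact h.b2 c.symm
        · rintro rfl
          rw [G.al_al _ h.mv3] at c
          exact h.b3 c.symm
  rw [key, card_insert_of_notMem, card_erase_of_mem]
  · have : 0 < (G.tk G.vs).card := card_pos.2 ⟨σ, (mem_tk G).2 ⟨h.mσ, G.pi_mem _ h.mσ, h.tσ⟩⟩
    omega
  · exact (mem_tk G).2 ⟨h.mσ, G.pi_mem _ h.mσ, h.tσ⟩
  · rw [mem_erase, mem_tk]
    rintro ⟨_, _, _, c⟩
    rw [G.al_al _ h.mv3] at c
    exact h.b3 c.symm

lemma SD.vs_card : h.step.vs.card + 2 = G.vs.card := by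
  show (G.vs \ {G.pi σ, G.pi v1}).card + 2 = G.vs.card
  have hs : ({G.pi σ, G.pi v1} : Finset V) ⊆ G.vs := by
    intro x hx
    simp only [mem_insert, mem_singleton] at hx
    rcases hx with rfl | rfl
    · exact G.pi_mem _ h.mσ
    · exact G.pi_mem _ h.mv1
  have hc : ({G.pi σ, G.pi v1} : Finset V).card = 2 := card_pair h.hsv
  rw [← hc]
  exact card_sdiff_add_card_eq_card hs

lemma SD.sub_vs {X : Finset V} (hX : X ⊆ h.step.vs) : X ⊆ G.vs := fun _ hx =>
  (h.step_vs.1 (hX hx)).1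

lemma SD.nots {X : Finset V} (hX : X ⊆ h.step.vs) : G.pi σ ∉ X ∧ G.pi v1 ∉ X := by
  constructor
  · intro hx
    exact (h.step_vs.1 (hX hx)).2.1 rfl
  · intro hx
    exact (h.step_vs.1 (hX hx)).2.2 rfl

/-- cut formula, outside -/
lemma SD.dg_out {X : Finset V} (hX : X ⊆ h.step.vs) :
    h.step.dg X + 2 * (if G.pi (G.al u2) ∈ X ∧ G.pi (G.al v2) ∈ X then 1 else 0) = G.dg X := by
  obtain ⟨e1, e2, e3⟩ := h.ne0
  obtain ⟨ns, nv⟩ := h.nots hX
  rw [dg_eq_filter, dg_eq_filter]
  have key : (G.ds.filter fun d => G.pi d ∈ X ∧ (G.pi (G.al d) ∉ X ∨ G.al d = d)) =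
      (h.step.ds.filter fun d => h.step.pi d ∈ X ∧
        (h.step.pi (h.step.al d) ∉ X ∨ h.step.al d = d)) ∪
      (if G.pi (G.al u2) ∈ X ∧ G.pi (G.al v2) ∈ X then {G.al u2, G.al v2} else ∅) := by
    ext d
    rw [mem_union, mem_filter, mem_filter, h.step_ds, h.step_pi]
    by_cases q1 : d = G.al u2
    · subst q1
      rw [h.step_al1, G.al_al _ h.mu2]
      have m := G.al_mem _ h.mu2
      have p := h.pout.1
      by_cases w1 : G.pi (G.al u2) ∈ X <;> by_cases w2 : G.pi (G.al v2) ∈ X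
      · simp [w1, w2, m, h.pu2, ns]
      · simp [w1, w2, m, h.pu2, ns, p]
      · simp [w1, w2]
      · simp [w1, w2]
    · by_cases q2 : d = G.al v2
      · subst q2
        rw [h.step_al2, G.al_al _ h.mv2]
        have m := G.al_mem _ h.mv2
        have p := h.pout.2.1
        by_cases w1 : G.pi (G.al u2) ∈ X <;> by_cases w2 : G.pi (G.al v2) ∈ X
        · simp [w1, w2, m, h.pv2, nv]
        · simp [w1, w2]
        · simp [w1, w2, m, h.pv2, nv, p]
        · simp [w1, w2]
      · by_cases q3 : d = G.al v3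
        · subst q3
          rw [h.step_al3, G.al_al _ h.mv3]
          have m := G.al_mem _ h.mv3
          have p := h.pout.2.2
          by_cases w1 : G.pi (G.al u2) ∈ X <;> by_cases w2 : G.pi (G.al v2) ∈ X <;>
            by_cases w3 : G.pi (G.al v3) ∈ X <;>
            simp [w1, w2, w3, m, h.pv3, nv, p, q1, q2]
        · rw [h.step_al4 q1 q2 q3]
          have hx : d ∉ (if G.pi (G.al u2) ∈ X ∧ G.pi (G.al v2) ∈ X then
              ({G.al u2, G.al v2} : Finset D) else ∅) := by
            split_ifs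
            · simp [q1, q2]
            · simp
          constructor
          · rintro ⟨a, b, c⟩
            left
            refine ⟨⟨a, ?_, ?_⟩, b, c⟩
            · rintro e
              rw [e] at b
              exact ns b
            · rintro e
              rw [e] at b
              exact nv b
          · rintro (⟨⟨a, _⟩, b⟩ | b)
            · exact ⟨a, b⟩
            · exact absurd b hx
  rw [key, card_union_of_disjoint]
  · congr 1
    split_ifs
    · rw [card_pair e1]
    · rfl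
  · rw [disjoint_left]
    intro d h1 h2
    rw [mem_filter, h.step_pi] at h1
    split_ifs at h2 with hh
    · simp only [mem_insert, mem_singleton] at h2
      rcases h2 with rfl | rfl
      · rw [h.step_al1] at h1
        rcases h1.2.2 with r | r
        · exact r hh.2
        · exact e1 r.symm
      · rw [h.step_al2] at h1
        rcases h1.2.2 with r | r
        · exact r hh.1
        · exact e1 r
    · simp at h2

lemma SD.al_not {d : D} (hd : d ∈ G.ds) (h1 : G.pi d ≠ G.pi σ) (h2 : G.pi d ≠ G.pi v1)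
    (q1 : d ≠ G.al u2) (q2 : d ≠ G.al v2) (q3 : d ≠ G.al v3) :
    G.pi (G.al d) ≠ G.pi σ ∧ G.pi (G.al d) ≠ G.pi v1 := by
  have m := h.darts (G.al_mem _ hd)
  have back : ∀ y, G.al d = y → d = G.al y := fun y hy => by rw [← hy, G.al_al _ hd]
  constructor
  · intro e
    rcases m.1.1 e with r | r | r
    · have := back _ r
      rw [h.tσ] at this
      rw [this] at h1
      exact h1 rfl
    · have := back _ r
      rw [h.e1] at this
      rw [this] at h2
      exact h2 rfl
    · exact q1 (back _ r)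
  · intro e
    rcases m.2.1 e with r | r | r
    · have := back _ r
      rw [h.al_v1] at this
      rw [this] at h1
      exact h1 h.pu1
    · exact q2 (back _ r)
    · exact q3 (back _ r)

/-- cut formula, inside -/
lemma SD.dg_in {X : Finset V} (hX : X ⊆ h.step.vs) :
    h.step.dg X + 2 * (if G.pi (G.al u2) ∉ X ∧ G.pi (G.al v2) ∉ X then 1 else 0) +
      2 * (if G.pi (G.al v3) ∉ X then 1 else 0) = G.dg (X ∪ {G.pi σ, G.pi v1}) := by
  obtain ⟨e1, e2, e3⟩ := h.ne0
  obtain ⟨ns, nv⟩ := h.nots hX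
  obtain ⟨p1, p2, p3⟩ := h.pout
  have mY : ∀ w, w ∈ X ∪ {G.pi σ, G.pi v1} ↔ w ∈ X ∨ w = G.pi σ ∨ w = G.pi v1 := by
    intro w
    simp only [mem_union, mem_insert, mem_singleton]
  rw [dg_eq_filter, dg_eq_filter]
  set C0 : Finset D := G.ds.filter fun d => G.pi d ∈ X ∧ d ≠ G.al u2 ∧ d ≠ G.al v2 ∧
    d ≠ G.al v3 ∧ (G.pi (G.al d) ∉ X ∨ G.al d = d) with hC0
  have kA : (G.ds.filter fun d => G.pi d ∈ X ∪ {G.pi σ, G.pi v1} ∧
      (G.pi (G.al d) ∉ X ∪ {G.pi σ, G.pi v1} ∨ G.al d = d)) =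
      C0 ∪ ({σ} ∪ (if G.pi (G.al u2) ∉ X then {u2} else ∅) ∪
        (if G.pi (G.al v2) ∉ X then {v2} else ∅) ∪
        (if G.pi (G.al v3) ∉ X then {v3} else ∅)) := by
    ext d
    rw [mem_filter, mY, mY]
    simp only [mem_union, mem_singleton, hC0, mem_filter, mem_ite_singleton]
    by_cases hd : d ∈ G.ds
    swap
    · have n1 : d ≠ σ := by rintro rfl; exact hd h.mσ
      have n2 : d ≠ u2 := by rintro rfl; exact hd h.mu2
      have n3 : d ≠ v2 := by rintro rfl; exact hd h.mv2
      have n4 : d ≠ v3 := by rintro rfl; exact hd h.mv3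
      tauto
    have m := h.darts hd
    have hvs : G.pi v1 ≠ G.pi σ := fun e => h.hsv e.symm
    by_cases hs : G.pi d = G.pi σ
    · rcases m.1.1 hs with rfl | rfl | rfl
      · simp [hd, h.tσ]
      · have t1 : G.al d ≠ d := by rw [h.e1]; rintro rfl; exact hvs h.pu1
        have n2 : d ≠ v2 := by rintro rfl; exact hvs (h.pv2 ▸ h.pu1)
        have n3 : d ≠ v3 := by rintro rfl; exact hvs (h.pv3 ▸ h.pu1)
        have n4 := h.n1.symm
        have n5 := h.n3
        rw [h.e1] at *
        simp [hs, ns, t1, n2, n3, n4, n5]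
      · have n2 : d ≠ v2 := by rintro rfl; exact hvs (h.pv2 ▸ h.pu2)
        have n3 : d ≠ v3 := by rintro rfl; exact hvs (h.pv3 ▸ h.pu2)
        have n4 := h.n2.symm
        have n5 := h.a2
        simp [hd, hs, ns, n2, n3, n4, n5, p1]
    · by_cases hv : G.pi d = G.pi v1
      · rcases m.2.1 hv with rfl | rfl | rfl
        · have t1 : G.al d ≠ d := by rw [h.al_v1]; rintro rfl; exact hvs h.pu1
          have n1 : d ≠ σ := by rintro rfl; exact hvs rfl
          have n2 : d ≠ u2 := by rintro rfl; exact hvs h.pu2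
          have n4 := h.n4
          have n5 := h.n5
          have hu := h.pu1
          rw [h.al_v1]
          rw [h.al_v1] at t1
          simp [nv, t1, n1, n2, n4, n5, hu]
        · have n1 : d ≠ σ := by rintro rfl; exact hs rfl
          have n2 : d ≠ u2 := by rintro rfl; exact hs h.pu2
          have n4 := h.n6
          have n5 := h.b2
          simp [hd, hv, nv, n1, n2, n4, n5, p2]
        · have n1 : d ≠ σ := by rintro rfl; exact hs rfl
          have n2 : d ≠ u2 := by rintro rfl; exact hs h.pu2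
          have n4 := h.n6.symm
          have n5 := h.b3
          simp [hd, hv, nv, n1, n2, n4, n5, p3]
      · have n1 : d ≠ σ := by rintro rfl; exact hs rfl
        have n2 : d ≠ u2 := by rintro rfl; exact hs h.pu2
        have n3 : d ≠ v2 := by rintro rfl; exact hv h.pv2
        have n4 : d ≠ v3 := by rintro rfl; exact hv h.pv3
        by_cases q1 : d = G.al u2
        · subst q1
          have t := h.a2.symm
          rw [G.al_al _ h.mu2]
          simp [h.pu2, t, n1, n2, n3, n4]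
        · by_cases q2 : d = G.al v2
          · subst q2
            have t := h.b2.symm
            rw [G.al_al _ h.mv2]
            simp [h.pv2, t, n1, n2, n3, n4]
          · by_cases q3 : d = G.al v3
            · subst q3
              have t := h.b3.symm
              rw [G.al_al _ h.mv3]
              simp [h.pv3, t, n1, n2, n3, n4]
            · have hn := h.al_not hd hs hv q1 q2 q3
              simp [hd, hs, hv, n1, n2, n3, n4, q1, q2, q3, hn.1, hn.2]
  have kB : (h.step.ds.filter fun d => h.step.pi d ∈ X ∧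
      (h.step.pi (h.step.al d) ∉ X ∨ h.step.al d = d)) =
      C0 ∪ ((if G.pi (G.al u2) ∈ X ∧ G.pi (G.al v2) ∉ X then {G.al u2} else ∅) ∪
        (if G.pi (G.al v2) ∈ X ∧ G.pi (G.al u2) ∉ X then {G.al v2} else ∅) ∪
        (if G.pi (G.al v3) ∈ X then {G.al v3} else ∅)) := by
    ext d
    rw [mem_filter, h.step_ds, h.step_pi]
    simp only [mem_union, hC0, mem_filter, mem_ite_singleton]
    by_cases q1 : d = G.al u2
    · subst q1
      rw [h.step_al1]
      have m := G.al_mem _ h.mu2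
      have e4 := e1.symm
      simp [m, p1, e1, e2, e4]
    · by_cases q2 : d = G.al v2
      · subst q2
        rw [h.step_al2]
        have m := G.al_mem _ h.mv2
        have e4 := e1.symm
        simp [m, p2, e1, e3, e4]
      · by_cases q3 : d = G.al v3
        · subst q3
          rw [h.step_al3]
          have m := G.al_mem _ h.mv3
          simp [m, p3, q1, q2]
        · rw [h.step_al4 q1 q2 q3]
          have hs : G.pi d ∈ X → G.pi d ≠ G.pi σ := by
            intro a e; rw [e] at a; exact ns a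
          have hv : G.pi d ∈ X → G.pi d ≠ G.pi v1 := by
            intro a e; rw [e] at a; exact nv a
          constructor
          · rintro ⟨⟨a, _⟩, b, c⟩
            exact Or.inl ⟨a, b, q1, q2, q3, c⟩
          · rintro (⟨a, b, _, _, _, c⟩ | ((⟨_, a⟩ | ⟨_, a⟩) | ⟨_, a⟩))
            · exact ⟨⟨a, hs b, hv b⟩, b, c⟩
            · exact absurd a q1
            · exact absurd a q2
            · exact absurd a q3
  have dA : Disjoint C0 ({σ} ∪ (if G.pi (G.al u2) ∉ X then {u2} else ∅) ∪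
        (if G.pi (G.al v2) ∉ X then {v2} else ∅) ∪
        (if G.pi (G.al v3) ∉ X then {v3} else ∅)) := by
    rw [disjoint_left]
    intro d hd hd2
    rw [hC0, mem_filter] at hd
    have hX1 := hd.2.1
    simp only [mem_union, mem_singleton, mem_ite_singleton] at hd2
    rcases hd2 with ((a | a) | a) | a
    · rw [a] at hX1; exact ns hX1
    · rw [a.2, h.pu2] at hX1; exact ns hX1
    · rw [a.2, h.pv2] at hX1; exact nv hX1
    · rw [a.2, h.pv3] at hX1; exact nv hX1
  have dB : Disjoint C0 ((if G.pi (G.al u2) ∈ X ∧ G.pi (G.al v2) ∉ X then {G.al u2} else ∅) ∪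
        (if G.pi (G.al v2) ∈ X ∧ G.pi (G.al u2) ∉ X then {G.al v2} else ∅) ∪
        (if G.pi (G.al v3) ∈ X then {G.al v3} else ∅)) := by
    rw [disjoint_left]
    intro d hd hd2
    rw [hC0, mem_filter] at hd
    simp only [mem_union, mem_ite_singleton] at hd2
    rcases hd2 with (a | a) | a
    · exact hd.2.2.1 a.2
    · exact hd.2.2.2.1 a.2
    · exact hd.2.2.2.2.1 a.2
  rw [kA, kB, card_union_of_disjoint dA, card_union_of_disjoint dB]
  have hvs : G.pi v1 ≠ G.pi σ := fun e => h.hsv e.symm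
  have m1 : σ ≠ u2 := h.n2
  have m2 : σ ≠ v2 := by rintro rfl; exact hvs h.pv2.symm
  have m3 : σ ≠ v3 := by rintro rfl; exact hvs h.pv3.symm
  have m4 : u2 ≠ v2 := by rintro rfl; exact hvs (h.pv2 ▸ h.pu2)
  have m5 : u2 ≠ v3 := by rintro rfl; exact hvs (h.pv3 ▸ h.pu2)
  have m6 : v2 ≠ v3 := h.n6
  by_cases w1 : G.pi (G.al u2) ∈ X <;> by_cases w2 : G.pi (G.al v2) ∈ X <;>
    by_cases w3 : G.pi (G.al v3) ∈ X <;>
    simp [w1, w2, w3, m1, m2, m3, m4, m5, m6, e2, e3, card_insert_of_notMem]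

/-- tokens of a set without `c` -/
lemma SD.tk_out {X : Finset V} (hX : X ⊆ h.step.vs) (hc : G.pi (G.al v3) ∉ X) :
    h.step.tk X = G.tk X := by
  obtain ⟨e1, e2, e3⟩ := h.ne0
  obtain ⟨ns, nv⟩ := h.nots hX
  ext d
  rw [mem_tk, mem_tk, h.step_ds, h.step_pi]
  by_cases q1 : d = G.al u2
  · subst q1
    rw [h.step_al1, G.al_al _ h.mu2]
    constructor
    · rintro ⟨_, _, c⟩; exact absurd c.symm e1
    · rintro ⟨_, _, c⟩; exact absurd c.symm h.a2
  · by_cases q2 : d = G.al v2
    · subst q2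
      rw [h.step_al2, G.al_al _ h.mv2]
      constructor
      · rintro ⟨_, _, c⟩; exact absurd c e1
      · rintro ⟨_, _, c⟩; exact absurd c.symm h.b2
    · by_cases q3 : d = G.al v3
      · subst q3
        constructor
        · rintro ⟨_, b, _⟩; exact absurd b hc
        · rintro ⟨_, b, _⟩; exact absurd b hc
      · rw [h.step_al4 q1 q2 q3]
        constructor
        · rintro ⟨⟨a, _⟩, b⟩; exact ⟨a, b⟩
        · rintro ⟨a, b, c⟩
          refine ⟨⟨a, ?_, ?_⟩, b, c⟩
          · rintro e; rw [e] at b; exact ns b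
          · rintro e; rw [e] at b; exact nv b

/-- edges leaving a set without tokens of the new graph -/
lemma SD.bd_out {X : Finset V} (hX : X ⊆ h.step.vs) (hc : G.pi (G.al v3) ∉ X) :
    (h.step.bd X).card + 2 * (if G.pi (G.al u2) ∈ X ∧ G.pi (G.al v2) ∈ X then 1 else 0) =
      (G.bd X).card := by
  have h1 := h.dg_out hX
  unfold dg at h1
  rw [h.tk_out hX hc] at h1
  omega

/-- the step is blocked only by a pair of tight sets -/
lemma SD.blocked (hb : G.B0) {X : Finset V} (hX : X ⊆ h.step.vs) (ho : Odd X.card)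
    (hlt : h.step.dg X < 3) : G.dg X = 3 ∧ G.pi (G.al u2) ∈ X ∧ G.pi (G.al v2) ∈ X ∧
      G.pi (G.al v3) ∉ X ∧ G.dg (X ∪ {G.pi σ, G.pi v1}) = 3 := by
  have h1 := h.dg_out hX
  have h2 := h.dg_in hX
  have g1 := hb X (h.sub_vs hX) ho
  have p1 := (G.dg_parity (h.sub_vs hX)).2 ho
  have hd : Disjoint X {G.pi σ, G.pi v1} := by
    rw [disjoint_left]
    intro x hx hx2
    simp only [mem_insert, mem_singleton] at hx2
    obtain ⟨ns, nv⟩ := h.nots hX
    rcases hx2 with rfl | rfl
    · exact ns hx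
    · exact nv hx
  have hY : X ∪ {G.pi σ, G.pi v1} ⊆ G.vs := by
    apply union_subset (h.sub_vs hX)
    intro x hx
    simp only [mem_insert, mem_singleton] at hx
    rcases hx with rfl | rfl
    · exact G.pi_mem _ h.mσ
    · exact G.pi_mem _ h.mv1
  have hoY : Odd (X ∪ {G.pi σ, G.pi v1}).card := by
    rw [card_union_of_disjoint hd, card_pair h.hsv]
    exact ho.add_even (by decide)
  have g2 := hb _ hY hoY
  by_cases hbd : G.pi (G.al u2) ∈ X ∧ G.pi (G.al v2) ∈ X
  · rw [if_pos hbd] at h1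
    rw [if_neg (fun hh => hh.1 hbd.1)] at h2
    have hk : h.step.dg X = 1 := by
      rcases p1 with ⟨k, hk⟩
      omega
    by_cases hc : G.pi (G.al v3) ∉ X
    · rw [if_pos hc] at h2
      exact ⟨by omega, hbd.1, hbd.2, hc, by omega⟩
    · rw [if_neg hc] at h2
      omega
  · rw [if_neg hbd] at h1
    omega

end JP.CG
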