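import Pool.Agent.Lib.JP.Lift

/-! The reduction by one step over an absorbed vertex `v`. -/

set_option autoImplicit false

namespace JP.CG

open Finset Classical

variable {V D : Type*} {G : CG V D} {K : Finset V} {F : Finset D} {σ u1 u2 v1 v2 v3 : D}

/-- the absorbing class after the step -/
private noncomputable def K1 (h : G.SD σ u1 u2 v1 v2 v3) (K : Finset V) (F : Finset D) : Finset V :=
  h.step.vs.filter fun w => w ∈ K ∨ w = G.pi (G.al v3) ∨ (w = G.pi (G.al u2) ∧ u2 ∈ F) ∨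
    (w = G.pi (G.al v2) ∧ v2 ∈ F)

/-- the surviving edges of the circuits -/
private noncomputable def F1 (h : G.SD σ u1 u2 v1 v2 v3) (F : Finset D) : Finset D :=
  F.filter fun x => x ∈ h.step.ds ∧ x ≠ G.al u2 ∧ x ≠ G.al v2 ∧ x ≠ G.al v3

private lemma mem_stepvs (h : G.SD σ u1 u2 v1 v2 v3) (w : V) :
    w ∈ h.step.vs ↔ w ∈ G.vs ∧ w ≠ G.pi σ ∧ w ≠ G.pi v1 := by
  show w ∈ G.vs \ {G.pi σ, G.pi v1} ↔ _
  simp only [mem_sdiff, mem_insert, mem_singleton, not_or]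

private lemma mem_stepds (h : G.SD σ u1 u2 v1 v2 v3) (x : D) :
    x ∈ h.step.ds ↔ x ∈ G.ds ∧ x ≠ σ ∧ x ≠ u1 ∧ x ≠ u2 ∧ x ≠ v1 ∧ x ≠ v2 ∧ x ≠ v3 := by
  show x ∈ G.ds \ {σ, u1, u2, v1, v2, v3} ↔ _
  simp only [mem_sdiff, mem_insert, mem_singleton, not_or]

private lemma step_al (h : G.SD σ u1 u2 v1 v2 v3) (x : D) :
    h.step.al x = if x = G.al u2 then G.al v2 else if x = G.al v2 then G.al u2 else
    if x = G.al v3 then G.al v3 else G.al x := rfl

private lemma step_al_of (h : G.SD σ u1 u2 v1 v2 v3) {x : D} (h1 : x ≠ G.al u2)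
    (h2 : x ≠ G.al v2) : h.step.al x = G.al x ∨ x = G.al v3 ∧ h.step.al x = G.al v3 := by
  rw [step_al, if_neg h1, if_neg h2]
  by_cases h3 : x = G.al v3
  · right; exact ⟨h3, by rw [if_pos h3]⟩
  · left; rw [if_neg h3]

private lemma mem_F1 (h : G.SD σ u1 u2 v1 v2 v3) {F : Finset D} {x : D} :
    x ∈ F1 h F ↔ x ∈ F ∧ x ∈ h.step.ds ∧ x ≠ G.al u2 ∧ x ≠ G.al v2 ∧ x ≠ G.al v3 := by
  unfold F1; rw [mem_filter]

private lemma mem_K1 (h : G.SD σ u1 u2 v1 v2 v3) {K : Finset V} {F : Finset D} {w : V} :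
    w ∈ K1 h K F ↔ w ∈ h.step.vs ∧ (w ∈ K ∨ w = G.pi (G.al v3) ∨ (w = G.pi (G.al u2) ∧ u2 ∈ F) ∨
    (w = G.pi (G.al v2) ∧ v2 ∈ F)) := by
  unfold K1; rw [mem_filter]

private lemma F1_al (h : G.SD σ u1 u2 v1 v2 v3) {F : Finset D} {x : D} (hx : x ∈ F1 h F) :
    h.step.al x = G.al x := by
  obtain ⟨-, -, a, b, c⟩ := (mem_F1 h).1 hx
  rw [step_al, if_neg a, if_neg b, if_neg c]

/-- darts of `F` at a vertex which is not in the new class survive -/
private lemma surv (h : G.SD σ u1 u2 v1 v2 v3) (hc : G.Cls K F) {x : D} (hx : x ∈ F)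
    (hw : G.pi x ∈ h.step.vs) (hK : G.pi x ∉ K1 h K F) : x ∈ F1 h F := by
  rw [mem_stepvs] at hw
  have hK' : ¬ (G.pi x ∈ K ∨ G.pi x = G.pi (G.al v3) ∨ (G.pi x = G.pi (G.al u2) ∧ u2 ∈ F) ∨
    (G.pi x = G.pi (G.al v2) ∧ v2 ∈ F)) := fun hh =>
      hK ((mem_K1 h).2 ⟨(mem_stepvs h _).2 hw, hh⟩)
  push Not at hK'
  obtain ⟨-, k3, k1, k2⟩ := hK'
  obtain ⟨-, ws, wv⟩ := hw
  rw [mem_F1, mem_stepds]
  refine ⟨hx, ⟨hc.Fsub hx, ?_, ?_, ?_, ?_, ?_, ?_⟩, ?_, ?_, ?_⟩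
  · rintro rfl; exact ws rfl
  · rintro rfl; exact ws h.pu1
  · rintro rfl; exact ws h.pu2
  · rintro rfl; exact wv rfl
  · rintro rfl; exact wv h.pv2
  · rintro rfl; exact wv h.pv3
  · rintro rfl
    have := hc.Fal _ hx
    rw [G.al_al _ h.mu2] at this
    exact k1 rfl this
  · rintro rfl
    have := hc.Fal _ hx
    rw [G.al_al _ h.mv2] at this
    exact k2 rfl this
  · rintro rfl; exact k3 rfl

/-- unions of fresh circuits of the new instance are unions of fresh circuits of the old one -/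
private lemma adm_of (h : G.SD σ u1 u2 v1 v2 v3) (hc : G.Cls K F) {Z : Finset V}
    (hZ : h.step.Adm (K1 h K F) (F1 h F) Z) : G.Adm K F Z ∧ G.pi (G.al v3) ∉ Z := by
  refine ⟨⟨?_, ?_, ?_⟩, ?_⟩
  · intro w hw; exact ((mem_stepvs h w).1 (hZ.sub hw)).1
  · intro w hw hk; exact hZ.dis w hw ((mem_K1 h).2 ⟨hZ.sub hw, Or.inl hk⟩)
  · intro x hx hz
    have h1 : x ∈ F1 h F := surv h hc hx (hZ.sub hz) (hZ.dis _ hz)
    have h2 := hZ.clo x h1 hz
    rw [F1_al h h1] at h2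
    exact h2
  · intro hcz
    exact hZ.dis _ hcz ((mem_K1 h).2 ⟨hZ.sub hcz, Or.inr (Or.inl rfl)⟩)

/-- conversely, a union of fresh circuits not containing `c` -/
private lemma adm_to (h : G.SD σ u1 u2 v1 v2 v3) (hc : G.Cls K F) {Z : Finset V}
    (hZ : G.Adm K F Z) (hs : G.pi σ ∉ Z) (hv : G.pi v1 ∉ Z) (h3 : G.pi (G.al v3) ∉ Z) :
    h.step.Adm (K1 h K F) (F1 h F) Z := by
  have hsub : Z ⊆ h.step.vs := by
    intro w hw
    rw [mem_stepvs]
    exact ⟨hZ.sub hw, fun e => hs (e ▸ hw), fun e => hv (e ▸ hw)⟩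
  refine ⟨hsub, ?_, ?_⟩
  · intro w hw hk
    rcases ((mem_K1 h).1 hk).2 with k | k | ⟨k, hu⟩ | ⟨k, hu⟩
    · exact hZ.dis w hw k
    · exact h3 (k ▸ hw)
    · have := hZ.clo _ (hc.Fal _ hu) (k ▸ hw)
      rw [G.al_al _ h.mu2, h.pu2] at this
      exact hs this
    · have := hZ.clo _ (hc.Fal _ hu) (k ▸ hw)
      rw [G.al_al _ h.mv2, h.pv2] at this
      exact hv this
  · intro x hx hz
    rw [F1_al h hx]
    exact hZ.clo x ((mem_F1 h).1 hx).1 hz

private lemma inst_step (hI : G.Inst K F) (h : G.SD σ u1 u2 v1 v2 v3) (hb : h.step.B0)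
    (hC : ∀ Z, G.Adm K F Z → Odd Z.card → G.pi (G.al u2) ∈ Z → G.pi (G.al v2) ∈ Z →
      G.pi (G.al v3) ∉ Z → 7 ≤ (G.bd Z).card) :
    h.step.Inst (K1 h K F) (F1 h F) := by
  have hc := hI.cls
  obtain ⟨o1, o2, o3, n12, n13, n23⟩ := h.outer
  refine ⟨?_, ?_, hb, ⟨?_, ?_, ?_, ?_, ?_, ?_⟩, ?_, ?_⟩
  · have h1 := hI.even
    have h2 := h.vs_card
    rw [← h2] at h1
    rw [Nat.even_add] at h1
    exact h1.2 (by decide)
  · rw [h.tk_card]; exact hI.four
  · intro w hw; exact ((mem_K1 h).1 hw).1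
  · intro x hx; exact ((mem_F1 h).1 hx).2.1
  · intro x hx
    rw [F1_al h hx]
    obtain ⟨xF, xs, x1, x2, x3⟩ := (mem_F1 h).1 hx
    rw [mem_stepds] at xs
    obtain ⟨xd, y0, y1, y2, y3, y4, y5⟩ := xs
    have key : ∀ y, y ∈ G.ds → G.al x = y → x = G.al y := by
      intro y _ e
      rw [← e, G.al_al _ xd]
    rw [mem_F1, mem_stepds]
    refine ⟨hc.Fal _ xF, ⟨G.al_mem _ xd, ?_, ?_, ?_, ?_, ?_, ?_⟩, ?_, ?_, ?_⟩
    · intro e; have := key _ h.mσ e; rw [h.tσ] at this; exact y0 this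
    · intro e; have := key _ h.mu1 e; rw [h.e1] at this; exact y3 this
    · intro e; exact x1 (key _ h.mu2 e)
    · intro e; have := key _ h.mv1 e
      rw [← h.e1, G.al_al _ h.mu1] at this; exact y1 this
    · intro e; exact x2 (key _ h.mv2 e)
    · intro e; exact x3 (key _ h.mv3 e)
    · intro e; have := congrArg G.al e
      rw [G.al_al _ xd, G.al_al _ h.mu2] at this; exact y2 this
    · intro e; have := congrArg G.al e
      rw [G.al_al _ xd, G.al_al _ h.mv2] at this; exact y4 this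
    · intro e; have := congrArg G.al e
      rw [G.al_al _ xd, G.al_al _ h.mv3] at this; exact y5 this
  · intro x hx
    rw [F1_al h hx]
    exact hc.Ftok _ ((mem_F1 h).1 hx).1
  · intro w hw hk
    have e : ((F1 h F).filter fun x => h.step.pi x = w) = F.filter fun x => G.pi x = w := by
      ext x
      rw [mem_filter, mem_filter]
      constructor
      · rintro ⟨a, b⟩; exact ⟨((mem_F1 h).1 a).1, b⟩
      · rintro ⟨a, b⟩
        refine ⟨surv h hc a ?_ ?_, b⟩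
        · rw [b]; exact hw
        · rw [b]; exact hk
    rw [e]
    refine hc.F2 w ((mem_stepvs h w).1 hw).1 fun hk' => hk ((mem_K1 h).2 ⟨hw, Or.inl hk'⟩)
  · intro x hx hal
    have hxv : h.step.pi x ∈ h.step.vs := h.step.pi_mem x hx
    by_cases e1 : x = G.al u2
    · exfalso
      rw [step_al, if_pos e1, e1] at hal
      exact n12 hal.symm
    by_cases e2 : x = G.al v2
    · exfalso
      rw [step_al, if_neg e1, if_pos e2, e2] at hal
      exact n12 hal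
    by_cases e3 : x = G.al v3
    · refine (mem_K1 h).2 ⟨hxv, Or.inr (Or.inl ?_)⟩
      rw [e3]; rfl
    · rw [step_al, if_neg e1, if_neg e2, if_neg e3] at hal
      exact (mem_K1 h).2 ⟨hxv, Or.inl (hc.tokK x ((mem_stepds h x).1 hx).1 hal)⟩
  · intro Z hZ ho
    obtain ⟨hA, h3⟩ := adm_of h hc hZ
    have hbd := h.bd_out hZ.sub h3
    by_cases hbd2 : G.pi (G.al u2) ∈ Z ∧ G.pi (G.al v2) ∈ Z
    · have h7 := hC Z hA ho hbd2.1 hbd2.2 h3
      rw [if_pos hbd2] at hbd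
      omega
    · have h5 := hI.cc Z hA ho
      rw [if_neg hbd2] at hbd
      omega
  · refine hI.sm.of_adm (fun Z hZ => (adm_of h hc hZ).1) ?_
    intro Z hZ Z' hs hZ'
    refine adm_to h hc hZ' (fun e => ?_) (fun e => ?_) (fun e => (adm_of h hc hZ).2 (hs e))
    · exact ((mem_stepvs h _).1 (hZ.sub (hs e))).2.1 rfl
    · exact ((mem_stepvs h _).1 (hZ.sub (hs e))).2.2 rfl

/-- **Step reduction.** `s` has the token `σ`, its neighbour `v` is absorbed. If the graph after the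
step is bridgeless and no 5-cut `Z` (odd union of fresh circuits) contains both ends of the live edge
and not `c`, the instance is reducible.

Proof. `K' = (K ∪ {c} ∪ {b if u2 ∈ F} ∪ {d if v2 ∈ F}) \ {s, v}`, `F'` = darts of `F` which survive
together with their partner. For `Z ⊆ vs'`: `Z` is a union of fresh circuits of the new instance iff
it is one of `G` and `c ∉ Z` (note that `s ∈ K` and `v` is absorbed, so a union of fresh circuits
contains neither `b` if `u2 ∈ F`, nor `d` if `v2 ∈ F`, nor `c` if `v3 ∈ F`). (C) by `SD.bd_out`.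
`M'` good by induction; `slift` of it is good by `SD.slift_pm`, `SD.slift_bd`. -/
theorem step_red (hI : G.Inst K F) (ih : IH G.vs.card V D) (h : G.SD σ u1 u2 v1 v2 v3)
    (av : G.Abs K F (G.pi v1)) (hb : h.step.B0)
    (hC : ∀ Z, G.Adm K F Z → Odd Z.card → G.pi (G.al u2) ∈ Z → G.pi (G.al v2) ∈ Z →
      G.pi (G.al v3) ∉ Z → 7 ≤ (G.bd Z).card) :
    ∃ M, G.Good K F M := by
  have hI' := inst_step hI h hb hC
  have hlt : h.step.vs.card < G.vs.card := by have := h.vs_card; omega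
  obtain ⟨M, hM⟩ := ih h.step (K1 h K F) (F1 h F) hlt hI'
  refine ⟨G.slift u1 u2 v1 v2 M, h.slift_pm hM.pm, ?_⟩
  intro Z hZ ho
  by_contra hcon
  push Not at hcon
  have hs : G.pi σ ∉ Z := fun hh => hZ.dis _ hh (hI.cls.tokK σ h.mσ h.tσ)
  have hv : G.pi v1 ∉ Z := av Z hZ
  have hsub : Z ⊆ h.step.vs := by
    intro w hw
    rw [mem_stepvs]
    exact ⟨hZ.sub hw, fun e => hs (e ▸ hw), fun e => hv (e ▸ hw)⟩
  obtain ⟨h3, hbd⟩ := h.slift_bd hM.pm hsub hcon
  obtain ⟨e, he, heM⟩ := hM.hit Z (adm_to h hI.cls hZ hs hv h3) ho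
  exact heM (hbd he)

end JP.CG
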