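import Pool.Agent.Lib.JP.ZRed

/-! The DROP LEMMA (helper79, helper44): closed parts which are not joined to `K` can be reset. -/

set_option autoImplicit false

namespace JP.CG

open Finset Classical

variable {V D : Type*} {G : CG V D}

/-- the reset weights -/
noncomputable def zres (G : CG V D) (Z : Finset V) (z : D → ℕ) : D → ℕ :=
  fun d => if G.pi d ∈ Z then 1 else z d

lemma zres_in {Z : Finset V} {z : D → ℕ} {d : D} (h : G.pi d ∈ Z) : G.zres Z z d = 1 := if_pos h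

lemma zres_out {Z : Finset V} {z : D → ℕ} {d : D} (h : G.pi d ∉ Z) : G.zres Z z d = z d :=
  if_neg h

/-- resetting a union `Z` of fresh circuits all of whose boundary edges have `z = 1` and which has no
new tokens. Proof of `ZB`: let `W` be odd with new value 1 (parity). At most one edge of `bd W` has both
ends in `Z` (these have new value 1). If there is none nothing changed. If it is not in `F` then its old
value is at most 1, and all other edges have value 0. It is not in `F`, because the number of darts of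
`F` in `bd W` with both ends in `Z` is even. -/
theorem ZW.reset {K : Finset V} {F : Finset D} (hc : G.Cls K F) {z : D → ℕ} {t : V → ℕ}
    (hw : G.ZW z t) (hb : G.ZB z t)
    {Z : Finset V} (hZ : G.Adm K F Z) (h1 : ∀ d ∈ G.bd Z, z d = 1) (ht : ∀ v ∈ Z, t v = 0)
    (hin : ∀ d ∈ G.ds, d ∉ F → G.pi d ∈ Z → G.pi (G.al d) ∈ Z → z d ≤ 1) :
    G.ZW (G.zres Z z) t ∧ G.ZB (G.zres Z z) t := by
  have hout : ∀ d ∈ G.ds, ¬ (G.pi d ∈ Z ∧ G.pi (G.al d) ∈ Z) → G.zres Z z d = z d := by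
    intro d hd hn
    by_cases h2 : G.pi d ∈ Z
    · have h3 : d ∈ G.bd Z := G.mem_bd.2 ⟨hd, h2, fun h => hn ⟨h2, h⟩⟩
      rw [zres_in h2, h1 d h3]
    · exact zres_out h2
  have hZW : G.ZW (G.zres Z z) t := by
    refine ⟨?_, ?_⟩
    · intro d hd
      by_cases h2 : G.pi d ∈ Z ∧ G.pi (G.al d) ∈ Z
      · rw [zres_in h2.1, zres_in h2.2]
      · rw [hout d hd h2, hout (G.al d) (G.al_mem d hd) (fun h3 => h2 (by
          rw [G.al_al d hd] at h3
          exact ⟨h3.2, h3.1⟩)), hw.sym d hd]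
    · intro v hv
      by_cases hU : v ∈ Z
      · rw [ht v hU, add_zero, ← G.cubic v hv, card_eq_sum_ones]
        refine sum_congr rfl fun d hd => ?_
        rw [mem_filter] at hd
        exact zres_in (by rw [hd.2]; exact hU)
      · rw [← hw.sum v hv]
        congr 1
        refine sum_congr rfl fun d hd => ?_
        rw [mem_filter] at hd
        exact zres_out (by rw [hd.2]; exact hU)
  refine ⟨hZW, ?_⟩
  intro X hX ho
  by_contra hcon
  have hp := (ZW.parity G hZW hX).2 ho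
  have hv1 : G.zc (G.zres Z z) t X = 1 := by
    obtain ⟨k, hk⟩ := hp
    omega
  have hz3 := hb X hX ho
  -- the tokens are not changed
  have htk : ∑ d ∈ G.tk X, G.zres Z z d = ∑ d ∈ G.tk X, z d := by
    refine sum_congr rfl fun d hd => zres_out fun h => ?_
    rw [G.mem_tk] at hd
    exact hZ.dis _ h (hc.tokK d hd.1 hd.2.2)
  -- the boundary darts inside `Z`
  obtain ⟨B, hB⟩ : ∃ B, B = (G.bd X).filter fun d => G.pi d ∈ Z ∧ G.pi (G.al d) ∈ Z := ⟨_, rfl⟩
  have hmB : ∀ d, d ∈ B ↔ (d ∈ G.ds ∧ G.pi d ∈ X ∧ G.pi (G.al d) ∉ X) ∧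
      G.pi d ∈ Z ∧ G.pi (G.al d) ∈ Z := by
    intro d
    rw [hB, mem_filter, G.mem_bd]
  have hBs' : B ⊆ G.bd X := by
    rw [hB]
    exact filter_subset _ _
  have hsplit : ∀ f : D → ℕ, ∑ d ∈ G.bd X, f d = ∑ d ∈ B, f d + ∑ d ∈ G.bd X \ B, f d := by
    intro f
    rw [add_comm, sum_sdiff hBs']
  have hB1 : ∑ d ∈ B, G.zres Z z d = B.card := by
    rw [card_eq_sum_ones]
    refine sum_congr rfl fun d hd => ?_
    exact zres_in ((hmB d).1 hd).2.1
  have hB2 : ∑ d ∈ G.bd X \ B, G.zres Z z d = ∑ d ∈ G.bd X \ B, z d := by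
    refine sum_congr rfl fun d hd => ?_
    rw [mem_sdiff] at hd
    have hd1 := G.mem_bd.1 hd.1
    exact hout d hd1.1 fun h => hd.2 ((hmB d).2 ⟨hd1, h⟩)
  unfold zc at hv1 hz3
  rw [htk, hsplit, hB1, hB2] at hv1
  rw [hsplit] at hz3
  -- the number of `F`-darts in `B` is even
  have hF : Even (B.filter fun d => d ∈ F).card := by
    have e1 : (F.filter fun d => G.pi d ∈ X ∩ Z).card = 2 * (X ∩ Z).card := by
      rw [card_eq_sum_card_fiberwise (s := F.filter fun d => G.pi d ∈ X ∩ Z)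
        (t := X ∩ Z) (f := G.pi)
        (fun d hd => mem_coe.2 (mem_filter.1 (mem_coe.1 hd)).2), mul_comm, ← smul_eq_mul,
        ← sum_const]
      refine sum_congr rfl fun v hv => ?_
      have hv' := hv
      rw [mem_inter] at hv
      rw [← hc.F2 v (hX hv.1) (hZ.dis v hv.2)]
      congr 1
      ext d
      rw [mem_filter, mem_filter, mem_filter]
      constructor
      · rintro ⟨⟨h2, -⟩, h3⟩
        exact ⟨h2, h3⟩
      · rintro ⟨h2, h3⟩
        exact ⟨⟨h2, by rw [h3]; exact hv'⟩, h3⟩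
    have e2 : (F.filter fun d => G.pi d ∈ X ∩ Z) =
        (F.filter fun d => G.pi d ∈ X ∩ Z ∧ G.pi (G.al d) ∈ X) ∪
          (B.filter fun d => d ∈ F) := by
      ext d
      rw [mem_union, mem_filter, mem_filter, mem_filter, hmB, mem_inter]
      constructor
      · rintro ⟨h2, h3, h4⟩
        by_cases h5 : G.pi (G.al d) ∈ X
        · exact Or.inl ⟨h2, ⟨h3, h4⟩, h5⟩
        · exact Or.inr ⟨⟨⟨hc.Fsub h2, h3, h5⟩, h4, hZ.clo d h2 h4⟩, h2⟩
      · rintro (⟨h2, h3, -⟩ | ⟨⟨⟨-, h3, -⟩, h4, -⟩, h2⟩)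
        · exact ⟨h2, h3⟩
        · exact ⟨h2, h3, h4⟩
    have e3 : Disjoint (F.filter fun d => G.pi d ∈ X ∩ Z ∧ G.pi (G.al d) ∈ X)
        (B.filter fun d => d ∈ F) := by
      rw [disjoint_left]
      intro d hd hd'
      rw [mem_filter] at hd
      rw [mem_filter, hmB] at hd'
      exact hd'.1.1.2.2 hd.2.2
    have e4 : Even (F.filter fun d => G.pi d ∈ X ∩ Z ∧ G.pi (G.al d) ∈ X).card := by
      apply G.even_of_closed ((filter_subset _ _).trans hc.Fsub)
      · intro d hd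
        rw [mem_filter, mem_inter] at hd ⊢
        obtain ⟨h2, ⟨h3, h4⟩, h5⟩ := hd
        exact ⟨hc.Fal d h2, ⟨h5, hZ.clo d h2 h4⟩, by rw [G.al_al d (hc.Fsub h2)]; exact h3⟩
      · intro d hd
        exact hc.Ftok d (mem_filter.1 hd).1
    have e5 := card_union_of_disjoint e3
    rw [← e2, e1] at e5
    rw [Nat.even_iff] at e4 ⊢
    omega
  have hBz : ∑ d ∈ B.filter (fun d => d ∉ F), z d ≤ (B.filter fun d => d ∉ F).card := by
    rw [card_eq_sum_ones]
    refine sum_le_sum fun d hd => ?_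
    rw [mem_filter, hmB] at hd
    exact hin d hd.1.1.1 hd.2 hd.1.2.1 hd.1.2.2
  have hBc := card_filter_add_card_filter_not (s := B) (fun d => d ∈ F)
  have hBs := sum_filter_add_sum_filter_not B (fun d => d ∈ F) z
  have hB0 : (B.filter fun d => d ∈ F).card = 0 := by
    obtain ⟨k, hk⟩ := hF
    omega
  rw [card_eq_zero] at hB0
  rw [hB0] at hBc hBs
  rw [sum_empty] at hBs
  rw [card_empty] at hBc
  omega

/-- the union of all clean unions of fresh circuits: `z = 1` on the boundary, no new token -/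
noncomputable def zcl (G : CG V D) (K : Finset V) (F : Finset D) (z : D → ℕ) (t : V → ℕ) :
    Finset V :=
  G.vs.filter fun v => ∃ Z, G.Adm K F Z ∧ (∀ d ∈ G.bd Z, z d = 1) ∧ (∀ u ∈ Z, t u = 0) ∧ v ∈ Z

lemma mem_zcl {K : Finset V} {F : Finset D} {z : D → ℕ} {t : V → ℕ} {v : V} :
    v ∈ G.zcl K F z t ↔
      ∃ Z, G.Adm K F Z ∧ (∀ d ∈ G.bd Z, z d = 1) ∧ (∀ u ∈ Z, t u = 0) ∧ v ∈ Z := by
  unfold zcl
  rw [mem_filter]
  exact ⟨fun h => h.2, fun ⟨Z, h1, h2, h3, h4⟩ => ⟨h1.sub h4, Z, h1, h2, h3, h4⟩⟩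

lemma zcl_adm {K : Finset V} {F : Finset D} {z : D → ℕ} {t : V → ℕ} :
    G.Adm K F (G.zcl K F z t) := by
  refine ⟨?_, ?_, ?_⟩
  · intro v hv
    obtain ⟨Z, h1, -, -, h3⟩ := mem_zcl.1 hv
    exact h1.sub h3
  · intro v hv
    obtain ⟨Z, h1, -, -, h3⟩ := mem_zcl.1 hv
    exact h1.dis v h3
  · intro d hd hv
    obtain ⟨Z, h1, h2, h2', h3⟩ := mem_zcl.1 hv
    exact mem_zcl.2 ⟨Z, h1, h2, h2', h1.clo d hd h3⟩

lemma zcl_bd {K : Finset V} {F : Finset D} {z : D → ℕ} {t : V → ℕ} {d : D}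
    (hd : d ∈ G.bd (G.zcl K F z t)) : z d = 1 := by
  rw [G.mem_bd] at hd
  obtain ⟨h0, h1, h2⟩ := hd
  obtain ⟨Z, h3, h4, h4', h5⟩ := mem_zcl.1 h1
  refine h4 d ?_
  rw [G.mem_bd]
  exact ⟨h0, h5, fun h => h2 (mem_zcl.2 ⟨Z, h3, h4, h4', h⟩)⟩

lemma zcl_t {K : Finset V} {F : Finset D} {z : D → ℕ} {t : V → ℕ} {v : V}
    (hv : v ∈ G.zcl K F z t) : t v = 0 := by
  obtain ⟨Z, -, -, h4, h5⟩ := mem_zcl.1 hv
  exact h4 v h5

/-- **DROP LEMMA.** `hX`: a union of fresh circuits without killed boundary edge, which contains the far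
end of an exceptional edge (`z ≠ 1` in the boundary) or a new token, has two boundary edges meeting in
a vertex of `K`. (`hin`: edges outside `F` between fresh vertices are used at most once.) Everything
clean is reset at once. -/
theorem ZW.drop {K : Finset V} {F : Finset D} (hc : G.Cls K F) {z : D → ℕ} {t : V → ℕ}
    (hw : G.ZW z t) (hb : G.ZB z t)
    (hin : ∀ d ∈ G.ds, d ∉ F → G.pi d ∉ K → G.pi (G.al d) ∉ K → z d ≤ 1)
    (hX : ∀ Z, G.Adm K F Z → (∀ d ∈ G.bd Z, z d ≠ 0) →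
      ((∃ d ∈ G.bd Z, z d ≠ 1) ∨ ∃ v ∈ Z, t v ≠ 0) →
      ∃ d1 ∈ G.bd Z, ∃ d2 ∈ G.bd Z, d1 ≠ d2 ∧ G.pi (G.al d1) = G.pi (G.al d2) ∧
        G.pi (G.al d1) ∈ K) :
    ∃ z' : D → ℕ, G.ZW z' t ∧ G.ZB z' t ∧ G.ZJoined K F z' ∧
      (∀ d ∈ G.ds, G.pi d ∈ K ∨ G.pi (G.al d) ∈ K → z' d = z d) := by
  obtain ⟨U, hU⟩ : ∃ U, U = G.zcl K F z t := ⟨_, rfl⟩
  have hUa : G.Adm K F U := by
    rw [hU]
    exact zcl_adm
  have hUb : ∀ d ∈ G.bd U, z d = 1 := by
    intro d hd
    rw [hU] at hd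
    exact zcl_bd hd
  have hUt : ∀ v ∈ U, t v = 0 := by
    intro v hv
    rw [hU] at hv
    exact zcl_t hv
  have hUmax : ∀ Z, G.Adm K F Z → (∀ d ∈ G.bd Z, z d = 1) → (∀ u ∈ Z, t u = 0) → Z ⊆ U := by
    intro Z h1 h2 h3 v hv
    rw [hU]
    exact mem_zcl.2 ⟨Z, h1, h2, h3, hv⟩
  obtain ⟨hr1, hr2⟩ := ZW.reset hc hw hb hUa hUb hUt (fun d hd hdF h1 h2 =>
    hin d hd hdF (hUa.dis _ h1) (hUa.dis _ h2))
  refine ⟨G.zres U z, hr1, hr2, ?_, ?_⟩
  · intro Z hZ hv
    obtain ⟨v, hvZ, hvt⟩ := hv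
    by_cases hk : ∃ d ∈ G.bd Z, G.zres U z d = 0
    · exact Or.inl hk
    · right
      push Not at hk
      -- the touched vertex is not in `U`
      have hvU : v ∉ U := by
        intro hvU
        unfold ztch at hvt
        rw [mem_filter] at hvt
        obtain ⟨-, d, -, hdv, hd1⟩ := hvt
        exact hd1 (zres_in (by rw [hdv]; exact hvU))
      have hZ' : G.Adm K F (Z \ U) := by
        refine ⟨sdiff_subset.trans hZ.sub, fun u hu => hZ.dis u (mem_sdiff.1 hu).1, ?_⟩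
        intro d hd hdZ
        rw [mem_sdiff] at hdZ ⊢
        refine ⟨hZ.clo d hd hdZ.1, fun h => hdZ.2 ?_⟩
        have h1 := hUa.clo _ (hc.Fal d hd) h
        rwa [G.al_al _ (hc.Fsub hd)] at h1
      have hne : ∀ d ∈ G.bd (Z \ U), z d ≠ 0 := by
        intro d hd
        rw [G.mem_bd, mem_sdiff, mem_sdiff] at hd
        obtain ⟨h1, ⟨h2, h3⟩, h4⟩ := hd
        by_cases h5 : G.pi (G.al d) ∈ Z
        · have h6 : G.pi (G.al d) ∈ U := by
            by_contra h7
            exact h4 ⟨h5, h7⟩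
          have h8 : G.al d ∈ G.bd U := by
            rw [G.mem_bd, G.al_al d h1]
            exact ⟨G.al_mem d h1, h6, h3⟩
          have h9 := hUb _ h8
          rw [hw.sym d h1] at h9
          rw [h9]
          exact Nat.one_ne_zero
        · have h6 := hk d (G.mem_bd.2 ⟨h1, h2, h5⟩)
          rwa [zres_out h3] at h6
      have hex : (∃ d ∈ G.bd (Z \ U), z d ≠ 1) ∨ ∃ u ∈ Z \ U, t u ≠ 0 := by
        by_contra hcon
        push Not at hcon
        have h1 := hUmax _ hZ' hcon.1 hcon.2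
        exact hvU (h1 (mem_sdiff.2 ⟨hvZ, hvU⟩))
      obtain ⟨d1, hd1, d2, hd2, hne12, heq, hK⟩ := hX _ hZ' hne hex
      have hb : ∀ d ∈ G.bd (Z \ U), G.pi (G.al d) ∈ K → d ∈ G.bd Z := by
        intro d hd hdK
        rw [G.mem_bd, mem_sdiff] at hd
        exact G.mem_bd.2 ⟨hd.1, hd.2.1.1, fun h => hZ.dis _ h hdK⟩
      exact ⟨d1, hb d1 hd1 hK, d2, hb d2 hd2 (by rw [← heq]; exact hK), hne12, heq⟩
  · intro d hd hK
    by_cases h1 : G.pi d ∈ U
    · have h2 : G.pi (G.al d) ∉ U := by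
        intro h2
        rcases hK with h3 | h3
        · exact hUa.dis _ h1 h3
        · exact hUa.dis _ h2 h3
      rw [zres_in h1, hUb d (G.mem_bd.2 ⟨hd, h1, h2⟩)]
    · exact zres_out h1

lemma adm_tk0 {K : Finset V} {F : Finset D} (hc : G.Cls K F) {Z : Finset V}
    (hZ : G.Adm K F Z) : G.tk Z = ∅ := by
  rw [eq_empty_iff_forall_notMem]
  intro d hd
  rw [G.mem_tk] at hd
  exact hZ.dis _ hd.2.1 (hc.tokK d hd.1 hd.2.2)

/-- parity of a union of fresh circuits -/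
theorem adm_parity {K : Finset V} {F : Finset D} (hc : G.Cls K F) {Z : Finset V}
    (hZ : G.Adm K F Z) : Odd (G.bd Z).card ↔ Odd Z.card := by
  have h := G.dg_parity hZ.sub
  unfold dg at h
  rwa [adm_tk0 hc hZ, card_empty, add_zero] at h

/-- start (A) / landing: the only exceptional edge is `c` (from `K` to a fresh vertex, `z c = 2`) and
the only new token is at `w` -/
theorem ZW.drop_c {K : Finset V} {F : Finset D} (hc : G.Cls K F) {z : D → ℕ} {t : V → ℕ}
    (hw : G.ZW z t) (hb : G.ZB z t) {c : D} {w : V} (hcd : c ∈ G.ds) (hcK : G.pi c ∈ K)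
    (hz2 : z c = 2) (hin : ∀ d ∈ G.ds, d ∉ F → G.pi d ∉ K → d ≠ G.al c → z d ≤ 1)
    (ht : ∀ v ∈ G.vs, v ∉ K → v ≠ w → t v = 0) (htw : w ∉ K → t w ≤ 1)
    (hL : ∀ Z, G.Adm K F Z → w ∈ Z → G.pi (G.al c) ∈ Z →
      ∃ d2 ∈ G.bd Z, G.pi (G.al d2) = G.pi c ∧ d2 ≠ G.al c) :
    ∃ z' : D → ℕ, G.ZW z' t ∧ G.ZB z' t ∧ G.ZJoined K F z' ∧
      (∀ d ∈ G.ds, G.pi d ∈ K ∨ G.pi (G.al d) ∈ K → z' d = z d) := by
  refine hw.drop hc hb ?_ ?_
  · intro d hd hdF h1 h2
    refine hin d hd hdF h1 ?_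
    rintro rfl
    rw [G.al_al c hcd] at h2
    exact h2 hcK
  · intro Z hZ hne hex
    have hbF : ∀ d ∈ G.bd Z, d ∉ F := by
      intro d hd hdF
      rw [G.mem_bd] at hd
      exact hd.2.2 (hZ.clo d hdF hd.2.1)
    have hone : ∀ d ∈ G.bd Z, d ≠ G.al c → z d = 1 := by
      intro d hd hdc
      have h1 := G.mem_bd.1 hd
      have h2 := hin d h1.1 (hbF d hd) (hZ.dis _ h1.2.1) hdc
      have h3 := hne d hd
      omega
    have hzac : z (G.al c) = 2 := by
      rw [hw.sym c hcd]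
      exact hz2
    have hp := ZW.parity G hw hZ.sub
    rw [← adm_parity hc hZ] at hp
    unfold zc at hp
    rw [adm_tk0 hc hZ, sum_empty, add_zero] at hp
    -- the tokens
    have htok : ∑ v ∈ Z, t v = if w ∈ Z then t w else 0 := by
      by_cases hwZ : w ∈ Z
      · rw [if_pos hwZ]
        refine sum_eq_single w ?_ ?_
        · intro v hv hvw
          exact ht v (hZ.sub hv) (hZ.dis v hv) hvw
        · intro h
          exact absurd hwZ h
      · rw [if_neg hwZ]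
        refine sum_eq_zero ?_
        intro v hv
        refine ht v (hZ.sub hv) (hZ.dis v hv) ?_
        rintro rfl
        exact hwZ hv
    by_cases hac : G.al c ∈ G.bd Z
    · -- the exceptional edge leaves `Z`, so `w ∈ Z`
      have hs : ∑ d ∈ G.bd Z, z d = (G.bd Z).card + 1 := by
        rw [← add_sum_erase _ _ hac, hzac]
        have h1 : ∑ d ∈ (G.bd Z).erase (G.al c), z d = ((G.bd Z).erase (G.al c)).card := by
          rw [card_eq_sum_ones]
          refine sum_congr rfl fun d hd => ?_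
          rw [mem_erase] at hd
          exact hone d hd.2 hd.1
        rw [h1]
        have h2 := card_erase_add_one hac
        omega
      have hwZ : w ∈ Z := by
        by_contra hwZ
        rw [hs, htok, if_neg hwZ, add_zero] at hp
        rcases Nat.even_or_odd (G.bd Z).card with h | h
        · have h1 := hp.1 (Even.add_one h)
          rw [← Nat.not_even_iff_odd] at h1
          exact h1 h
        · have h1 := hp.2 h
          rw [Nat.odd_iff] at h h1
          omega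
      have hacZ : G.pi (G.al c) ∈ Z := (G.mem_bd.1 hac).2.1
      obtain ⟨d2, hd2, h3, h4⟩ := hL Z hZ hwZ hacZ
      refine ⟨G.al c, hac, d2, hd2, h4.symm, ?_, ?_⟩
      · rw [G.al_al c hcd, h3]
      · rw [G.al_al c hcd]
        exact hcK
    · -- nothing exceptional at all
      exfalso
      have hall : ∀ d ∈ G.bd Z, z d = 1 := by
        intro d hd
        refine hone d hd ?_
        rintro rfl
        exact hac hd
      have hs : ∑ d ∈ G.bd Z, z d = (G.bd Z).card := by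
        rw [card_eq_sum_ones]
        exact sum_congr rfl fun d hd => hall d hd
      have hwZ : w ∈ Z ∧ t w ≠ 0 := by
        rcases hex with ⟨d, hd, hd1⟩ | ⟨v, hv, hv0⟩
        · exact absurd (hall d hd) hd1
        · by_cases hvw : v = w
          · rw [← hvw]
            exact ⟨hv, hv0⟩
          · exact absurd (ht v (hZ.sub hv) (hZ.dis v hv) hvw) hv0
      have htw1 : t w = 1 := by
        have h1 := htw (hZ.dis w hwZ.1)
        have h2 := hwZ.2
        omega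
      rw [hs, htok, if_pos hwZ.1, htw1] at hp
      rcases Nat.even_or_odd (G.bd Z).card with h | h
      · have h1 := hp.1 (Even.add_one h)
        rw [← Nat.not_even_iff_odd] at h1
        exact h1 h
      · have h1 := hp.2 h
        rw [Nat.odd_iff] at h h1
        omega

/-- the end of the two finishing theorems -/
private lemma MC2.zfin {K : Finset V} {F : Finset D} (h : MC2 G K F) (hf : G.Full K F)
    {z z' : D → ℕ} {t : V → ℕ}
    (h4 : ∑ d ∈ G.tk G.vs, z d + ∑ v ∈ G.vs, t v ≤ 4)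
    {c : D} (hcd : c ∈ G.ds) (hcK : G.pi c ∈ K) (hcf : G.pi (G.al c) ∉ K) (hz : z c ≠ 1)
    (hw' : G.ZW z' t) (hb' : G.ZB z' t) (hj : G.ZJoined K F z')
    (heq : ∀ d ∈ G.ds, G.pi d ∈ K ∨ G.pi (G.al d) ∈ K → z' d = z d) : False := by
  refine h.zkill hf hw' hb' ?_ hj ⟨G.pi (G.al c), ?_, hcf⟩
  · have h1 : ∑ d ∈ G.tk G.vs, z' d = ∑ d ∈ G.tk G.vs, z d := by
      refine sum_congr rfl fun d hd => ?_
      rw [G.mem_tk] at hd
      exact heq d hd.1 (Or.inl (h.inst.cls.tokK d hd.1 hd.2.2))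
    rw [h1]
    exact h4
  · unfold ztch
    rw [mem_filter]
    refine ⟨G.pi_mem _ (G.al_mem c hcd), G.al c, G.al_mem c hcd, rfl, ?_⟩
    rw [hw'.sym c hcd, heq c hcd (Or.inl hcK)]
    exact hz

/-- **(Z) finishes**, start with the exceptional edge `c` -/
theorem MC2.zdrop_c {K : Finset V} {F : Finset D} (h : MC2 G K F) (hf : G.Full K F)
    {z : D → ℕ} {t : V → ℕ} (hw : G.ZW z t) (hb : G.ZB z t)
    (h4 : ∑ d ∈ G.tk G.vs, z d + ∑ v ∈ G.vs, t v ≤ 4)
    {c : D} {w : V} (hcd : c ∈ G.ds) (hcK : G.pi c ∈ K) (hcf : G.pi (G.al c) ∉ K)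
    (hz2 : z c = 2) (hin : ∀ d ∈ G.ds, d ∉ F → G.pi d ∉ K → d ≠ G.al c → z d ≤ 1)
    (ht : ∀ v ∈ G.vs, v ∉ K → v ≠ w → t v = 0) (htw : w ∉ K → t w ≤ 1)
    (hL : ∀ Z, G.Adm K F Z → w ∈ Z → G.pi (G.al c) ∈ Z →
      ∃ d2 ∈ G.bd Z, G.pi (G.al d2) = G.pi c ∧ d2 ≠ G.al c) : False := by
  obtain ⟨z', hw', hb', hj, heq⟩ := hw.drop_c h.inst.cls hb hcd hcK hz2 hin ht htw hL
  refine h.zfin hf h4 hcd hcK hcf ?_ hw' hb' hj heq
  rw [hz2]
  decide

/-- **(Z) finishes**, start with a killed edge between `K` and a fresh vertex -/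
theorem MC2.zdrop_s {K : Finset V} {F : Finset D} (h : MC2 G K F) (hf : G.Full K F)
    {z : D → ℕ} {t : V → ℕ} (hw : G.ZW z t) (hb : G.ZB z t)
    (h4 : ∑ d ∈ G.tk G.vs, z d + ∑ v ∈ G.vs, t v ≤ 4)
    {c : D} (hcd : c ∈ G.ds) (hcK : G.pi c ∈ K) (hcf : G.pi (G.al c) ∉ K)
    (hz0 : z c = 0) (hin : ∀ d ∈ G.ds, d ∉ F → G.pi d ∉ K → z d ≤ 1)
    (ht : ∀ v ∈ G.vs, v ∉ K → t v = 0) : False := by
  obtain ⟨z', hw', hb', hj, heq⟩ := hw.drop h.inst.cls hb
    (fun d hd hdF h1 _ => hin d hd hdF h1) (by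
    intro Z hZ hne hex
    exfalso
    rcases hex with ⟨d, hd, hd1⟩ | ⟨v, hv, hv0⟩
    · have h1 := G.mem_bd.1 hd
      have h2 : d ∉ F := fun hdF => h1.2.2 (hZ.clo d hdF h1.2.1)
      have h3 := hin d h1.1 h2 (hZ.dis _ h1.2.1)
      have h5 := hne d hd
      omega
    · exact hv0 (ht v (hZ.sub hv) (hZ.dis v hv)))
  refine h.zfin hf h4 hcd hcK hcf ?_ hw' hb' hj heq
  rw [hz0]
  decide

end JP.CG
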